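import Pool.Agent.Run7.h683.MR.V
import Pool.Agent.Run7.h168.Mult.Wrap
import Pool.Agent.Run7.h683.AB.M8

/-!
# Random products: one number with a transcendence measure
-/

set_option autoImplicit false

namespace Run7.h683.MR

open Filter Run7.h683.AB MeasureTheory ProbabilityTheory Topology
open Pool.Agent.N743.SS (MeasM)

theorem measM_single (y : ℝ) (hy : Pool.Agent.TH456.TM.MeasT (y : ℂ)) : MeasM ![y] := by
  have h := (Pool.Agent.Run7.h168.Mult.measM_unit y hy).comp (fun _ : Fin 1 => ())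
    (fun _ _ _ => Subsingleton.elim _ _)
  have e : (![y] : Fin 1 → ℝ) = (fun _ : Unit => y) ∘ (fun _ : Fin 1 => ()) := by
    funext i
    rw [Subsingleton.elim i 0]
    rfl
  rw [e]
  exact h

theorem measM_e : MeasM ![Real.exp 1] := measM_single _ Pool.Agent.TH456.TM.measT_e

theorem measM_pi : MeasM ![Real.pi] := measM_single _ Pool.Agent.TH456.TM.measT_pi

theorem measM_log {q : ℚ} (hq : 0 < q) (hq1 : q ≠ 1) : MeasM ![Real.log q] :=
  measM_single _ (Pool.Agent.TH456.TM.measT_real_log q hq hq1)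

theorem pv_eq {n : ℕ} (t : ℝ) (x : Fin n → ℝ) (R : MvPolynomial (Fin (n + 1)) ℤ) :
    pv t x R = MvPolynomial.aeval (Fin.cons t x : Fin (n + 1) → ℝ) R := rfl

theorem cons_pair (t y : ℝ) : (Fin.cons t ![y] : Fin (1 + 1) → ℝ) = ![t, y] := by
  funext i
  fin_cases i <;> rfl

/-- a polynomial with a very small value at `(z, w)` contains the second variable if `z` has a transcendence measure -/
theorem both_vars {a b : ℝ} (ha : 0 < a) (hab : a < b) {z w : ℝ} (hz : MeasM ![z]) (d : ℕ) :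
    ∀ᶠ N : ℕ in atTop, ∀ F : MvPolynomial (Fin 2) ℤ, F ≠ 0 → F.totalDegree ≤ d →
      (∀ s, |((F.coeff s : ℤ) : ℝ)| ≤ Real.exp ((N : ℝ) ^ a)) →
        |MvPolynomial.aeval ![z, w] F| < Real.exp (-(N : ℝ) ^ b) → 0 < F.degreeOf 1 := by
  obtain ⟨r, c, hr, hc, hm⟩ := hz d
  have e1 : ∀ᶠ N : ℕ in atTop, (|Real.log c| + r) * (N : ℝ) ^ a ≤ (N : ℝ) ^ b := evn (ev_lt hab _)
  filter_upwards [e1, eventually_ge_atTop 1] with N g1 g2
  intro F hF0 hFd hFc hFv
  by_contra hcon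
  have h0 : F.degreeOf 1 = 0 := by omega
  obtain ⟨G, hG⟩ : ∃ G : MvPolynomial (Fin 2) ℤ, G = MvPolynomial.rename (Equiv.swap (0 : Fin 2) 1) F := ⟨_, rfl⟩
  have hinj : Function.Injective (Equiv.swap (0 : Fin 2) 1) := (Equiv.swap (0 : Fin 2) 1).injective
  have hG0 : G ≠ 0 := by
    rw [hG]
    intro h1
    exact hF0 (MvPolynomial.rename_injective _ hinj (h1.trans (map_zero _).symm))
  have hGd : G.totalDegree ≤ d := by
    rw [hG]
    exact (MvPolynomial.totalDegree_rename_le _ _).trans hFd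
  have hG1 : G.degreeOf 0 = 0 := by
    have h1 := MvPolynomial.degreeOf_rename_of_injective (p := F) hinj 1
    rw [Equiv.swap_apply_right] at h1
    rw [hG, h1]
    exact h0
  have hGc : ∀ s, |((G.coeff s : ℤ) : ℝ)| ≤ Real.exp ((N : ℝ) ^ a) := by
    intro s
    by_cases h1 : ∃ u : Fin 2 →₀ ℕ, Finsupp.mapDomain (Equiv.swap (0 : Fin 2) 1) u = s
    · obtain ⟨u, rfl⟩ := h1
      rw [hG, MvPolynomial.coeff_rename_mapDomain _ hinj]
      exact hFc u
    · rw [hG, MvPolynomial.coeff_rename_eq_zero _ _ _ (fun u hu => absurd ⟨u, hu⟩ h1), Int.cast_zero, abs_zero]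
      exact (Real.exp_pos _).le
  have h2 := Pool.Agent.Run7.h168.Near.low_t ![z] d r c hm (w : ℂ) G hG0 hGd hG1 _ hGc
  rw [norm_val, pv_eq, cons_pair, hG, MvPolynomial.aeval_rename] at h2
  have h3 : (![w, z] ∘ (Equiv.swap (0 : Fin 2) 1) : Fin 2 → ℝ) = ![z, w] := by
    funext i
    fin_cases i
    · show ![w, z] (Equiv.swap (0 : Fin 2) 1 0) = z
      rw [Equiv.swap_apply_left]
      rfl
    · show ![w, z] (Equiv.swap (0 : Fin 2) 1 1) = w
      rw [Equiv.swap_apply_right]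
      rfl
  rw [h3] at h2
  have h4 := h2.trans_lt hFv
  have h5 : c * Real.exp ((N : ℝ) ^ a) ^ (-r) = Real.exp (Real.log c + -(r * (N : ℝ) ^ a)) := by
    rw [Real.exp_add, Real.exp_log hc, ← Real.exp_mul]
    congr 2
    ring
  rw [h5, Real.exp_lt_exp] at h4
  have hN1 : (1 : ℝ) ≤ N := by exact_mod_cast g2
  have hNa : 1 ≤ (N : ℝ) ^ a := Real.one_le_rpow hN1 ha.le
  have k1 := neg_abs_le (Real.log c)
  have k2 := abs_nonneg (Real.log c)
  nlinarith

theorem not_dvd_quad {F : MvPolynomial (Fin 2) ℤ} (hF : F = 0 ∨ 0 < F.degreeOf 1) (α β γ : ℤ) (h : α ≠ 0 ∨ β ≠ 0) :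
    ¬ F ∣ MvPolynomial.C α * MvPolynomial.X 0 ^ 2 + MvPolynomial.C β * MvPolynomial.X 0 + MvPolynomial.C γ := by
  obtain ⟨Q, hQ⟩ : ∃ Q : MvPolynomial (Fin 2) ℤ,
    Q = MvPolynomial.C α * MvPolynomial.X 0 ^ 2 + MvPolynomial.C β * MvPolynomial.X 0 + MvPolynomial.C γ := ⟨_, rfl⟩
  rw [← hQ]
  have hev : ∀ y : ℤ, MvPolynomial.eval (fun _ => y) Q = α * y ^ 2 + β * y + γ := by
    intro y
    rw [hQ]
    simp
  have hQ0 : Q ≠ 0 := by
    intro h0
    have k0 := hev 0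
    have k1 := hev 1
    have k2 := hev (-1)
    rw [h0, map_zero] at k0 k1 k2
    have : α = 0 ∧ β = 0 := by
      constructor <;> linarith
    rcases h with h | h
    · exact h this.1
    · exact h this.2
  have hQd : Q.degreeOf 1 = 0 := by
    have h1 : Q.degreeOf 1 ≤ 0 := by
      rw [hQ]
      refine (MvPolynomial.degreeOf_add_le _ _ _).trans (max_le ((MvPolynomial.degreeOf_add_le _ _ _).trans (max_le ?_ ?_)) ?_)
      · refine (MvPolynomial.degreeOf_mul_le _ _ _).trans ?_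
        have h2 := MvPolynomial.degreeOf_pow_le (1 : Fin 2) (MvPolynomial.X 0 : MvPolynomial (Fin 2) ℤ) 2
        rw [MvPolynomial.degreeOf_X] at h2
        rw [MvPolynomial.degreeOf_C]
        simpa using h2
      · refine (MvPolynomial.degreeOf_mul_le _ _ _).trans ?_
        rw [MvPolynomial.degreeOf_C, MvPolynomial.degreeOf_X]
        simp
      · rw [MvPolynomial.degreeOf_C]
    omega
  rintro ⟨A, hA⟩
  rcases hF with hF | hF
  · rw [hF, zero_mul] at hA
    exact hQ0 hA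
  · have hF0 : F ≠ 0 := by
      rintro rfl
      rw [zero_mul] at hA
      exact hQ0 hA
    have hA0 : A ≠ 0 := by
      rintro rfl
      rw [mul_zero] at hA
      exact hQ0 hA
    rw [hA, MvPolynomial.degreeOf_mul_eq hF0 hA0] at hQd
    omega

/-- the polynomial `f` is congruent to a constant modulo `F`, up to a factor -/
def Excl (F f : MvPolynomial (Fin 2) ℤ) : Prop :=
  ∃ c u : ℤ, c ≠ 0 ∧ F ∣ MvPolynomial.C c * f - MvPolynomial.C u

theorem freeMod_single {F f : MvPolynomial (Fin 2) ℤ} (h : ¬ Excl F f) : FreeMod F (fun _ : Fin 1 => f) := by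
  intro c u hc
  rw [Fin.sum_univ_one] at hc
  funext j
  rw [Subsingleton.elim j 0]
  by_contra h1
  exact h ⟨c 0, u, h1, hc⟩

open MvPolynomial in
theorem excl_sum_diff {F : MvPolynomial (Fin 2) ℤ} (hF : F = 0 ∨ 0 < F.degreeOf 1) :
    ¬ (Excl F (X 0 + X 1) ∧ Excl F (X 0 - X 1)) := by
  rintro ⟨⟨c, u, hc, h1⟩, ⟨c', u', hc', h2⟩⟩
  refine not_dvd_quad hF 0 (2 * (c * c')) (-(c' * u) - c * u') (Or.inr (mul_ne_zero two_ne_zero (mul_ne_zero hc hc'))) ?_
  have h3 := dvd_add (h1.mul_left (C c')) (h2.mul_left (C c))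
  convert h3 using 1
  simp only [map_mul, map_sub, map_neg, map_zero, map_ofNat]
  ring

open MvPolynomial in
theorem excl_sum_mul {F : MvPolynomial (Fin 2) ℤ} (hF : F = 0 ∨ 0 < F.degreeOf 1) :
    ¬ (Excl F (X 0 + X 1) ∧ Excl F (X 0 * X 1)) := by
  rintro ⟨⟨c, u, hc, h1⟩, ⟨c', u', hc', h2⟩⟩
  refine not_dvd_quad hF (-(c * c')) (c' * u) (-(c * u')) (Or.inl (neg_ne_zero.2 (mul_ne_zero hc hc'))) ?_
  have h3 := dvd_sub (h2.mul_left (C c)) (h1.mul_left (C c' * X 0))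
  convert h3 using 1
  simp only [map_mul, map_neg]
  ring

open MvPolynomial in
theorem excl_diff_mul {F : MvPolynomial (Fin 2) ℤ} (hF : F = 0 ∨ 0 < F.degreeOf 1) :
    ¬ (Excl F (X 0 - X 1) ∧ Excl F (X 0 * X 1)) := by
  rintro ⟨⟨c, u, hc, h1⟩, ⟨c', u', hc', h2⟩⟩
  refine not_dvd_quad hF (c * c') (-(c' * u)) (-(c * u')) (Or.inl (mul_ne_zero hc hc')) ?_
  have h3 := dvd_add (h2.mul_left (C c)) (h1.mul_left (C c' * X 0))
  convert h3 using 1
  simp only [map_mul, map_neg]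
  ring

end Run7.h683.MR
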