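import Pool.Agent.Run7.h683.MR.U

/-!
# Random products: the powers of a number with a transcendence measure
-/

set_option autoImplicit false

namespace Run7.h683.MR

open Filter Run7.h683.AB MeasureTheory ProbabilityTheory Topology
open Pool.Agent.Y957.VK (dz mn)

theorem indepZ_pow {z : ℝ} (hz : MT z) (J : ℕ) : IndepZ (fun j : Fin (J + 1) => z ^ (j : ℕ)) := by
  classical
  intro g hg
  obtain ⟨κ, c, hc, hm⟩ := hz J
  by_contra hne
  obtain ⟨Q, hQ⟩ : ∃ Q : Polynomial ℤ, Q = ∑ j : Fin (J + 1), Polynomial.monomial (j : ℕ) (g j) := ⟨_, rfl⟩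
  have hQc : ∀ j : Fin (J + 1), Q.coeff (j : ℕ) = g j := by
    intro j
    rw [hQ, Polynomial.finset_sum_coeff, Finset.sum_eq_single j]
    · rw [Polynomial.coeff_monomial, if_pos rfl]
    · intro i _ hi
      rw [Polynomial.coeff_monomial, if_neg (fun h2 => hi (Fin.ext h2))]
    · intro h2
      exact absurd (Finset.mem_univ _) h2
  have hQ0 : Q ≠ 0 := by
    intro h2
    apply hne
    funext j
    rw [← hQc j, h2]
    simp
  have hQd : Q.natDegree ≤ J := by
    rw [hQ]
    refine Polynomial.natDegree_sum_le_of_forall_le _ _ fun j _ => ?_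
    exact (Polynomial.natDegree_monomial_le _).trans (by have := j.2; omega)
  have hS0 : 0 ≤ ∑ i ∈ Q.support, |(Q.coeff i : ℝ)| := Finset.sum_nonneg fun _ _ => abs_nonneg _
  have h1 := hm Q hQ0 hQd (1 + ∑ i ∈ Q.support, |(Q.coeff i : ℝ)|) (by linarith) (fun j => by
    by_cases hj : j ∈ Q.support
    · have h2 : |(Q.coeff j : ℝ)| ≤ ∑ i ∈ Q.support, |(Q.coeff i : ℝ)| :=
        Finset.single_le_sum (f := fun i => |(Q.coeff i : ℝ)|) (fun _ _ => abs_nonneg _) hj
      linarith
    · rw [Polynomial.notMem_support_iff.1 hj, Int.cast_zero, abs_zero]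
      linarith)
  have h2 : Polynomial.aeval z Q = 0 := by
    rw [hQ, map_sum, ← hg]
    refine Finset.sum_congr rfl fun j _ => ?_
    rw [Polynomial.aeval_monomial]
    simp only [eq_intCast]
  rw [h2, abs_zero, mul_zero] at h1
  linarith

theorem alg_pow (z : ℝ) (k : ℕ) : IsAlgebraic (Algebra.adjoin ℤ ({z} : Set ℝ)) (z ^ k) := (alg_self z).pow k

end Run7.h683.MR
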