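import Pool.Agent.Run7.h683.MR.S

/-!
# Random products: the exceptional space contains no small form of numbers with a measure of linear independence
-/

set_option autoImplicit false

namespace Run7.h683.MR

open Finset Filter Run7.h683.AB MeasureTheory ProbabilityTheory Topology
open Pool.Agent.Y957.VK (dz mn)

theorem dz_sum_le {r : ℕ} (t : Fin r → ℝ) : dz (∑ j, t j) ≤ ∑ j, dz (t j) := by
  have h := dz_le_int (∑ j, t j) (∑ j, round (t j))
  refine h.trans ?_
  unfold dz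
  push_cast
  rw [← Finset.sum_sub_distrib]
  exact Finset.abs_sum_le_sum_abs _ _

/-- a nonzero vector of the exceptional space gives a small integral vector which vanishes where the vector vanishes -/
theorem exc_small {a b : ℝ} {s : ℕ} {y : Fin s → ℝ} {N : ℕ} {q : Fin s → ℚ} (hq : q ∈ Exc a b y N) (hq0 : q ≠ 0) :
    ∃ g : Fin s → ℤ, g ≠ 0 ∧ (∀ i, q i = 0 → g i = 0) ∧
      (∀ i, |(g i : ℝ)| ≤ s * ((s * Real.exp ((N : ℝ) ^ a)) ^ s * Real.exp ((N : ℝ) ^ a))) ∧
      dz (∑ i, (g i : ℝ) * y i) ≤ s * ((s * Real.exp ((N : ℝ) ^ a)) ^ s * Real.exp (-(N : ℝ) ^ b)) := by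
  classical
  obtain ⟨X, hX⟩ : ∃ X : ℝ, X = Real.exp ((N : ℝ) ^ a) := ⟨_, rfl⟩
  have hX1 : 1 ≤ X := by
    rw [hX]
    exact Real.one_le_exp (by positivity)
  obtain ⟨R, hR⟩ : ∃ R : Set (Fin s → ℚ), R = {q | ∃ h : Fin s → ℤ, (∀ i, |(h i : ℝ)| ≤ Real.exp ((N : ℝ) ^ a)) ∧
    dz (∑ i, (h i : ℝ) * y i) < Real.exp (-(N : ℝ) ^ b) ∧ q = fun i => (h i : ℚ)} := ⟨_, rfl⟩
  have hq' : q ∈ Submodule.span ℚ R := by
    rw [hR]
    exact hq
  obtain ⟨r, f, hr, hf, hspan, hli⟩ : ∃ (r : ℕ) (f : Fin r → Fin s → ℚ), r = Module.finrank ℚ (Submodule.span ℚ R) ∧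
      (∀ i, f i ∈ R) ∧ Submodule.span ℚ (Set.range f) = Submodule.span ℚ R ∧ LinearIndependent ℚ f := by
    obtain ⟨f, hf, hspan, hli⟩ := Submodule.exists_fun_fin_finrank_span_eq ℚ R
    exact ⟨_, f, rfl, hf, hspan, hli⟩
  have hrs : r ≤ s := by
    rw [hr]
    exact (Submodule.finrank_le _).trans (by rw [Module.finrank_fin_fun])
  rw [← hspan, Submodule.mem_span_range_iff_exists_fun] at hq'
  obtain ⟨a0, ha0⟩ := hq'
  have ha00 : a0 ≠ 0 := by
    rintro rfl
    apply hq0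
    rw [← ha0]
    simp
  have hf' : ∀ j, ∃ h : Fin s → ℤ, (∀ i, |(h i : ℝ)| ≤ Real.exp ((N : ℝ) ^ a)) ∧
    dz (∑ i, (h i : ℝ) * y i) < Real.exp (-(N : ℝ) ^ b) ∧ f j = fun i => (h i : ℚ) := by
    intro j
    have := hf j
    rw [hR] at this
    exact this
  choose h hhX hhd hhf using hf'
  have hqi : ∀ i : Fin s, q i = ∑ j, a0 j * (h j i : ℚ) := by
    intro i
    have h2 := congrFun ha0 i
    rw [Finset.sum_apply] at h2
    rw [← h2]
    refine Finset.sum_congr rfl fun j _ => ?_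
    rw [Pi.smul_apply, smul_eq_mul, hhf j]
  obtain ⟨c, hc0, hc, hcX⟩ := small_kernel r (fun (i : {i : Fin s // q i = 0}) j => h j i) X hX1
    (fun i j => by rw [hX]; exact hhX j i) a0 ha00 (fun i => by
      have h1 : q i = 0 := i.2
      exact (hqi i).symm.trans h1)
  have hs0 : 1 ≤ s := by
    obtain ⟨i, -⟩ := Function.ne_iff.1 hq0
    exact i.pos
  have hs1 : (1 : ℝ) ≤ s := by exact_mod_cast hs0
  have hB : ∀ j, |(c j : ℝ)| ≤ (s * X) ^ s := by
    intro j
    refine (hcX j).trans ?_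
    have hr1 : (1 : ℝ) ≤ r := by exact_mod_cast (show 1 ≤ r from j.pos)
    have h1 : (r : ℝ) ≤ s := by exact_mod_cast hrs
    calc ((r : ℝ) * X) ^ r ≤ (s * X) ^ r := by gcongr
      _ ≤ (s * X) ^ s := pow_le_pow_right₀ (by nlinarith) hrs
  have hrs' : (r : ℝ) ≤ s := by exact_mod_cast hrs
  refine ⟨fun i => ∑ j, c j * h j i, ?_, fun i hi => hc ⟨i, hi⟩, fun i => ?_, ?_⟩
  · intro h1
    apply hc0
    have h2 : ∑ j, (c j : ℚ) • f j = 0 := by
      funext i
      rw [Finset.sum_apply, Pi.zero_apply]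
      have h3 := congrFun h1 i
      simp only [Pi.zero_apply] at h3
      have h4 : ((∑ j, c j * h j i : ℤ) : ℚ) = 0 := by
        rw [h3]
        rfl
      rw [← h4]
      push_cast
      refine Finset.sum_congr rfl fun j _ => ?_
      rw [Pi.smul_apply, smul_eq_mul, hhf j]
    have h3 := Fintype.linearIndependent_iff.1 hli (fun j => (c j : ℚ)) h2
    funext j
    exact_mod_cast h3 j
  · rw [← hX]
    push_cast
    refine (Finset.abs_sum_le_sum_abs _ _).trans ?_
    refine (Finset.sum_le_sum (g := fun _ => (s * X) ^ s * X) fun j _ => ?_).trans ?_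
    · rw [abs_mul]
      exact mul_le_mul (hB j) (by rw [hX]; exact hhX j i) (abs_nonneg _) (by positivity)
    · rw [Finset.sum_const, Finset.card_univ, Fintype.card_fin, nsmul_eq_mul]
      gcongr
  · rw [← hX]
    have h1 : ∑ i, ((∑ j, c j * h j i : ℤ) : ℝ) * y i = ∑ j, (c j : ℝ) * ∑ i, (h j i : ℝ) * y i := by
      simp only [Finset.mul_sum]
      rw [Finset.sum_comm]
      refine Finset.sum_congr rfl fun i _ => ?_
      push_cast
      rw [Finset.sum_mul]
      refine Finset.sum_congr rfl fun j _ => ?_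
      ring
    rw [h1]
    refine (dz_sum_le _).trans ?_
    refine (Finset.sum_le_sum (g := fun _ => (s * X) ^ s * Real.exp (-(N : ℝ) ^ b)) fun j _ => ?_).trans ?_
    · refine (dz_int_mul _ _).trans ?_
      exact mul_le_mul (hB j) (hhd j).le (dz_nonneg _) (by positivity)
    · rw [Finset.sum_const, Finset.card_univ, Fintype.card_fin, nsmul_eq_mul]
      gcongr

/-- the exceptional space contains no nonzero form of numbers with a measure of linear independence -/
theorem exc_inter {a b : ℝ} (ha : 0 < a) (hab : a < b) {s r : ℕ} (y : Fin s → ℝ) (e : Fin r → Fin s)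
    (he : Function.Injective e) (hm : Meas (fun j => y (e j))) :
    ∀ᶠ N : ℕ in atTop, ∀ q ∈ Exc a b y N, (∀ i, i ∉ Set.range e → q i = 0) → q = 0 := by
  classical
  obtain ⟨κ, c, hc, h⟩ := hm
  obtain ⟨C, hC⟩ : ∃ C : ℝ, C = (s + 1) * (s + 1) ^ s := ⟨_, rfl⟩
  have hC1 : 1 ≤ C := by
    rw [hC]
    have h1 : (1 : ℝ) ≤ (s + 1) ^ s := one_le_pow₀ (by linarith [(Nat.cast_nonneg s : (0 : ℝ) ≤ s)])
    have h2 : (1 : ℝ) ≤ s + 1 := by linarith [(Nat.cast_nonneg s : (0 : ℝ) ≤ s)]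
    nlinarith
  -- the decisive inequality
  obtain ⟨E, hE⟩ : ∃ E : ℝ, E = |Real.log (c / (2 * C) ^ κ / C)| + 1 + κ * (s + 1) + s := ⟨_, rfl⟩
  have e1 : ∀ᶠ N : ℕ in atTop, E * (N : ℝ) ^ a ≤ (N : ℝ) ^ b := evn (ev_lt hab _)
  filter_upwards [e1, eventually_ge_atTop 2] with N g1 g2
  intro q hq hqe
  by_contra hq0
  obtain ⟨g, hg0, hgz, hgX, hgd⟩ := exc_small hq hq0
  obtain ⟨X, hX⟩ : ∃ X : ℝ, X = Real.exp ((N : ℝ) ^ a) := ⟨_, rfl⟩
  have hX1 : 1 ≤ X := by
    rw [hX]
    exact Real.one_le_exp (by positivity)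
  have hN2 : (1 : ℝ) < N := by exact_mod_cast g2
  have hNa : 1 ≤ (N : ℝ) ^ a := Real.one_le_rpow hN2.le ha.le
  rw [← hX] at hgX hgd
  have hgC : ∀ i, |(g i : ℝ)| ≤ C * X ^ (s + 1) := by
    intro i
    refine (hgX i).trans ?_
    rw [hC, mul_pow]
    calc (s : ℝ) * ((s : ℝ) ^ s * X ^ s * X) ≤ (s + 1) * ((s + 1) ^ s * X ^ s * X) := by gcongr <;> linarith
      _ = _ := by ring
  obtain ⟨H, hH⟩ : ∃ H : ℕ, H = ⌈C * X ^ (s + 1)⌉₊ := ⟨_, rfl⟩
  have hH1 : (H : ℝ) ≤ 2 * C * X ^ (s + 1) := by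
    rw [hH]
    have h1 := Nat.ceil_lt_add_one (show 0 ≤ C * X ^ (s + 1) by positivity)
    have h2 : (1 : ℝ) ≤ X ^ (s + 1) := one_le_pow₀ hX1
    nlinarith
  have hHpos : (0 : ℝ) < H := by
    rw [hH]
    have : 0 < ⌈C * X ^ (s + 1)⌉₊ := Nat.ceil_pos.2 (by positivity)
    exact_mod_cast this
  have h1 := h (fun j => g (e j)) (fun h2 => hg0 (by
    funext i
    by_cases hi : i ∈ Set.range e
    · obtain ⟨j, rfl⟩ := hi
      exact congrFun h2 j
    · exact hgz i (hqe i hi))) H (fun j => by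
      have h3 := hgC (e j)
      have h4 : C * X ^ (s + 1) ≤ H := by
        rw [hH]
        exact Nat.le_ceil _
      have h5 : |((g (e j) : ℤ) : ℝ)| ≤ (H : ℝ) := h3.trans h4
      exact_mod_cast h5)
  have h2 : ∑ j, (g (e j) : ℝ) * y (e j) = ∑ i, (g i : ℝ) * y i := by
    rw [← Finset.sum_image (f := fun i => (g i : ℝ) * y i) (s := Finset.univ) (g := e) (fun x _ y _ h3 => he h3)]
    refine Finset.sum_subset (Finset.subset_univ _) fun i _ hi => ?_
    have h3 : i ∉ Set.range e := by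
      rintro ⟨j, rfl⟩
      exact hi (Finset.mem_image_of_mem _ (Finset.mem_univ _))
    rw [hgz i (hqe i h3)]
    simp
  rw [h2] at h1
  have h3 : c / (2 * C) ^ κ * Real.exp (-(κ * (s + 1) * (N : ℝ) ^ a)) ≤ c / (H : ℝ) ^ κ := by
    have h4 : c / (2 * C) ^ κ * Real.exp (-(κ * (s + 1) * (N : ℝ) ^ a)) = c / (2 * C * X ^ (s + 1)) ^ κ := by
      have h5 : (X ^ (s + 1)) ^ κ = Real.exp (κ * (s + 1) * (N : ℝ) ^ a) := by
        rw [← pow_mul, hX, ← Real.exp_nat_mul]
        congr 1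
        push_cast
        ring
      rw [mul_pow (2 * C) (X ^ (s + 1)), h5, ← div_div, Real.exp_neg, div_eq_mul_inv (c / (2 * C) ^ κ)]
    rw [h4]
    exact div_le_div_of_nonneg_left hc.le (by positivity) (pow_le_pow_left₀ hHpos.le hH1 κ)
  have h4 : (s : ℝ) * ((s * X) ^ s * Real.exp (-(N : ℝ) ^ b)) ≤ C * Real.exp (s * (N : ℝ) ^ a - (N : ℝ) ^ b) := by
    rw [sub_eq_add_neg, Real.exp_add, hC, Real.exp_nat_mul, ← hX, mul_pow]
    calc (s : ℝ) * ((s : ℝ) ^ s * X ^ s * Real.exp (-(N : ℝ) ^ b)) ≤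
        (s + 1) * ((s + 1) ^ s * X ^ s * Real.exp (-(N : ℝ) ^ b)) := by gcongr <;> linarith
      _ = _ := by ring
  have h5 := h3.trans (h1.trans (hgd.trans h4))
  have h6 : c / (2 * C) ^ κ / C * Real.exp (-(κ * (s + 1) * (N : ℝ) ^ a)) ≤ Real.exp (s * (N : ℝ) ^ a - (N : ℝ) ^ b) := by
    rw [div_mul_eq_mul_div, div_le_iff₀ (by linarith), mul_comm (Real.exp _) C]
    exact h5
  have h7 : 0 < c / (2 * C) ^ κ / C := by positivity
  rw [← Real.exp_log h7, ← Real.exp_add, Real.exp_le_exp] at h6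
  have h8 : -|Real.log (c / (2 * C) ^ κ / C)| ≤ Real.log (c / (2 * C) ^ κ / C) := neg_abs_le _
  have h9 : 0 ≤ |Real.log (c / (2 * C) ^ κ / C)| := abs_nonneg _
  rw [hE] at g1
  nlinarith

/-- the dimension of the exceptional space -/
theorem finrank_exc {s r n : ℕ} (V : Submodule ℚ (Fin s → ℚ)) (e : Fin r → Fin s) (e' : Fin n → Fin s)
    (he : ∀ i, i ∈ Set.range e ∨ i ∈ Set.range e') (hV : ∀ q ∈ V, (∀ i, i ∉ Set.range e → q i = 0) → q = 0) :
    Module.finrank ℚ V ≤ n := by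
  obtain ⟨φ, hφ⟩ : ∃ φ : V →ₗ[ℚ] (Fin n → ℚ), ∀ q j, φ q j = (q : Fin s → ℚ) (e' j) :=
    ⟨(LinearMap.funLeft ℚ ℚ e').comp V.subtype, fun q j => rfl⟩
  have h1 : Function.Injective φ := by
    rw [← LinearMap.ker_eq_bot, LinearMap.ker_eq_bot']
    intro q hq
    apply Subtype.ext
    refine hV q q.2 fun i hi => ?_
    obtain ⟨j, rfl⟩ := (he i).resolve_left hi
    rw [← hφ, hq]
    rfl
  have h2 := LinearMap.finrank_le_finrank_of_injective h1
  rwa [Module.finrank_fin_fun] at h2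

/-- the dimension of the exceptional space, second form -/
theorem finrank_exc' {s r : ℕ} (V : Submodule ℚ (Fin s → ℚ)) (e : Fin r → Fin s) (he : Function.Injective e)
    (hV : ∀ q ∈ V, (∀ i, i ∉ Set.range e → q i = 0) → q = 0) : Module.finrank ℚ V + r ≤ s := by
  classical
  obtain ⟨φ, hφ⟩ : ∃ φ : V →ₗ[ℚ] ({i : Fin s // ¬ (i ∈ Set.range e)} → ℚ), ∀ q j, φ q j = (q : Fin s → ℚ) j :=
    ⟨(LinearMap.funLeft ℚ ℚ (fun j : {i : Fin s // ¬ (i ∈ Set.range e)} => (j : Fin s))).comp V.subtype,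
      fun q j => rfl⟩
  have h1 : Function.Injective φ := by
    rw [← LinearMap.ker_eq_bot, LinearMap.ker_eq_bot']
    intro q hq
    apply Subtype.ext
    refine hV q q.2 fun i hi => ?_
    have h2 := hφ q ⟨i, hi⟩
    rw [hq] at h2
    exact h2.symm
  have h2 := LinearMap.finrank_le_finrank_of_injective h1
  rw [Module.finrank_fintype_fun_eq_card, Fintype.card_subtype_compl, Fintype.card_fin] at h2
  have h3 : Fintype.card {x // x ∈ Set.range e} = r :=
    (Set.card_range_of_injective he).trans (Fintype.card_fin r)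
  rw [h3] at h2
  have h4 : r ≤ s := by
    have := Fintype.card_le_of_injective e he
    rwa [Fintype.card_fin, Fintype.card_fin] at this
  omega

/-- vectors which are proportional to each other -/
theorem finrank_le_one_of {s : ℕ} (R : Set (Fin s → ℚ))
    (h : ∀ u ∈ R, ∀ v ∈ R, ∃ a b : ℚ, (a ≠ 0 ∨ b ≠ 0) ∧ a • u = b • v) :
    Module.finrank ℚ (Submodule.span ℚ R) ≤ 1 := by
  by_cases h0 : ∃ v ∈ R, v ≠ 0
  · obtain ⟨v, hv, hv0⟩ := h0
    have h1 : Submodule.span ℚ R ≤ Submodule.span ℚ {v} := by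
      rw [Submodule.span_le]
      intro u hu
      rw [SetLike.mem_coe, Submodule.mem_span_singleton]
      obtain ⟨x, z, hxz, h2⟩ := h u hu v hv
      have hx : x ≠ 0 := by
        rintro rfl
        rw [zero_smul] at h2
        rcases hxz with h3 | h3
        · exact h3 rfl
        · exact hv0 ((smul_eq_zero.1 h2.symm).resolve_left h3)
      exact ⟨x⁻¹ * z, by rw [mul_smul, ← h2, smul_smul, inv_mul_cancel₀ hx, one_smul]⟩
    refine (Submodule.finrank_mono h1).trans ?_
    rw [finrank_span_singleton hv0]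
  · push Not at h0
    have h1 : Submodule.span ℚ R = ⊥ := by
      rw [Submodule.span_eq_bot]
      exact h0
    rw [h1, finrank_bot]
    exact zero_le_one

/-- a number with a transcendence measure -/
theorem indep_single {z : ℝ} (hz : MT z) : Indep (fun _ : Fin 1 => z) := by
  intro m g hg
  rw [Fin.sum_univ_one] at hg
  have h0 : g 0 = 0 := by
    by_contra hne
    obtain ⟨κ, c, hc, hm⟩ := hz 1
    have h3 := hm (Polynomial.C (g 0) * Polynomial.X + Polynomial.C m) (by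
      intro h5
      apply hne
      have h6 : (Polynomial.C (g 0) * Polynomial.X + Polynomial.C m : Polynomial ℤ).coeff 1 = 0 := by
        rw [h5, Polynomial.coeff_zero]
      rw [Polynomial.coeff_add, Polynomial.coeff_C_mul, Polynomial.coeff_X_one,
        Polynomial.coeff_C_ne_zero one_ne_zero, mul_one, add_zero] at h6
      exact h6) (by
      refine Polynomial.natDegree_linear_le) (|(g 0 : ℝ)| + |(m : ℝ)| + 1) (by
        have h5 := abs_nonneg (g 0 : ℝ)
        have h6 := abs_nonneg (m : ℝ)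
        linarith) (by
      intro j
      have h5 := abs_nonneg (g 0 : ℝ)
      have h6 := abs_nonneg (m : ℝ)
      rcases j with _ | _ | j
      · simp only [Polynomial.coeff_add, Polynomial.coeff_C_mul, Polynomial.coeff_X_zero, mul_zero,
          Polynomial.coeff_C_zero, zero_add]
        linarith
      · simp only [zero_add, Polynomial.coeff_add, Polynomial.coeff_C_mul, Polynomial.coeff_X_one, mul_one,
          Polynomial.coeff_C_succ, add_zero]
        linarith
      · simp only [Polynomial.coeff_add, Polynomial.coeff_C_mul, Polynomial.coeff_C_succ, add_zero,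
          Polynomial.coeff_X]
        rw [if_neg (by omega)]
        simp only [mul_zero, Int.cast_zero, abs_zero]
        linarith)
    have h5 : Polynomial.aeval z (Polynomial.C (g 0) * Polynomial.X + Polynomial.C m) = 0 := by
      simp only [map_add, map_mul, Polynomial.aeval_C, Polynomial.aeval_X]
      simp only [eq_intCast]
      linarith
    rw [h5, abs_zero, mul_zero] at h3
    linarith
  funext i
  rw [Subsingleton.elim i 0, h0]
  rfl

theorem alg_self (z : ℝ) : IsAlgebraic (Algebra.adjoin ℤ ({z} : Set ℝ)) z :=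
  isAlgebraic_algebraMap (⟨z, Algebra.subset_adjoin rfl⟩ : Algebra.adjoin ℤ ({z} : Set ℝ))

/-- two numbers with transcendence measures: all the vectors of the exceptional space are proportional to each other and
have no zero coordinate -/
theorem exc_pair {a b : ℝ} (ha : 0 < a) (hab : a < b) {z w : ℝ} (hz : MT z) (hw : MT w) :
    ∀ᶠ N : ℕ in atTop, ∀ q ∈ Exc a b ![z, w] N, q ≠ 0 → q 0 ≠ 0 ∧ q 1 ≠ 0 ∧
      ∀ q' ∈ Exc a b ![z, w] N, q' 0 * q 1 = q' 1 * q 0 := by
  have h0 : Meas (fun j : Fin 1 => (![z, w] : Fin 2 → ℝ) ((fun _ => 0) j)) :=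
    meas_alg hz (fun _ => z) (fun _ => alg_self z) (indep_single hz)
  have h1 : Meas (fun j : Fin 1 => (![z, w] : Fin 2 → ℝ) ((fun _ => 1) j)) :=
    meas_alg hw (fun _ => w) (fun _ => alg_self w) (indep_single hw)
  have hinj : ∀ k : Fin 2, Function.Injective (fun _ : Fin 1 => k) := fun k x y _ => Subsingleton.elim x y
  filter_upwards [exc_inter ha hab ![z, w] (fun _ => 0) (hinj 0) h0,
    exc_inter ha hab ![z, w] (fun _ => 1) (hinj 1) h1] with N g0 g1
  have k0 : ∀ q ∈ Exc a b ![z, w] N, q 1 = 0 → q = 0 := by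
    intro q hq h2
    refine g0 q hq fun i hi => ?_
    fin_cases i
    · exact absurd ⟨0, rfl⟩ hi
    · exact h2
  have k1 : ∀ q ∈ Exc a b ![z, w] N, q 0 = 0 → q = 0 := by
    intro q hq h2
    refine g1 q hq fun i hi => ?_
    fin_cases i
    · exact h2
    · exact absurd ⟨0, rfl⟩ hi
  intro q hq hq0
  refine ⟨fun h2 => hq0 (k1 q hq h2), fun h2 => hq0 (k0 q hq h2), fun q' hq' => ?_⟩
  have h2 : q 0 • q' - q' 0 • q ∈ Exc a b ![z, w] N :=
    Submodule.sub_mem _ (Submodule.smul_mem _ _ hq') (Submodule.smul_mem _ _ hq)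
  have h3 := k1 _ h2 (by
    simp only [Pi.sub_apply, Pi.smul_apply, smul_eq_mul]
    ring)
  have h4 := congrFun h3 1
  simp only [Pi.sub_apply, Pi.smul_apply, smul_eq_mul, Pi.zero_apply] at h4
  linarith

end Run7.h683.MR
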