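import Pool.Agent.Run7.h683.MR.K

/-!
# Random products: the main theorem for families of numbers
-/

set_option autoImplicit false

namespace Run7.h683.MR

open Finset Filter Run7.h683.AB MeasureTheory ProbabilityTheory Topology

/-- all words of digits of the numbers `x i` in the mixed radix `v` have the right frequencies -/
def NormalIn (v : ℕ → ℕ) {r : ℕ} (x : Fin r → ℝ) : Prop :=
  ∀ (L : ℕ) (u w : Fin L → Fin r → ℝ), (∀ l i, 0 ≤ u l i ∧ u l i ≤ w l i ∧ w l i ≤ 1) →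
    Tendsto (fun N : ℕ => (DW v x u w N : ℝ) / N) atTop (𝓝 (∏ l, ∏ i, (w l i - u l i)))

/-- the exponential sums are small -/
def SmallSums (c : ℝ) (v : ℕ → ℕ) {r : ℕ} (x : Fin r → ℝ) : Prop :=
  ∀ (L : ℕ) (h : Fin L → Fin r → ℤ), h ≠ 0 → ∀ᶠ N : ℕ in atTop, ‖WS v x h N‖ ≤ (N : ℝ) ^ (1 - c)

theorem main.{u} {S : ℕ → Finset ℕ} {M : ℕ → ℕ} {θ Θ : ℝ} (G : Growth S M θ Θ) :
    ∃ κ c : ℝ, 1 < κ ∧ 0 < c ∧ ∀ (Ω : Type u) [MeasurableSpace Ω] (μ : Measure Ω) [IsProbabilityMeasure μ]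
      (p : ℕ → Ω → ℕ), Uniform μ S p → ∀ (r : ℕ) (x : Fin r → ℝ),
        (∀ g : Fin r → ℤ, g ≠ 0 → Tame κ (∑ i, (g i : ℝ) * x i)) →
          ∀ᵐ ω ∂μ, NormalIn (fun k => p k ω) x ∧ SmallSums c (fun k => p k ω) x := by
  classical
  obtain ⟨a, b, c, ha, hab, hb, hc, hc1, h⟩ := ae_words.{u} G
  obtain ⟨κ, hκ⟩ : ∃ κ : ℝ, κ = (1 + b / a) / 2 := ⟨_, rfl⟩
  have hba : 1 < b / a := by rwa [lt_div_iff₀ ha, one_mul]
  have hκ1 : 1 < κ := by rw [hκ]; linarith
  have haκ : a * κ < b := by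
    have h1 : a * κ = (a + b) / 2 := by
      rw [hκ]
      field_simp
    rw [h1]
    linarith
  refine ⟨κ, c, hκ1, hc, ?_⟩
  intro Ω _ μ _ p hp r x hx
  filter_upwards [h Ω μ p hp r x, ae_tendsto G μ p hp] with ω h1 h2
  obtain ⟨h3, h4⟩ := h1
  have hnear : ∀ g : Fin r → ℤ, g ≠ 0 → ∀ᶠ N : ℕ in atTop, ¬ Near a b (∑ i, (g i : ℝ) * x i) N :=
    fun g hg => (hx g hg).not_near ha (by linarith) haκ
  constructor
  · intro L u w huw
    refine digits_of_words (fun k => ?_) h2 x (fun ε hε => ?_) u w huw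
    · exact (G.prime k _ (hp.mem k ω)).1.one_le
    · obtain ⟨H, hH⟩ := h4 L ε hε
      obtain ⟨B, hB⟩ : ∃ B : Finset (Fin r → ℤ), B = Fintype.piFinset fun _ => Finset.Icc (-(H : ℤ)) H := ⟨_, rfl⟩
      have h5 : ∀ᶠ N : ℕ in atTop, ∀ g ∈ B, g ≠ 0 → ¬ Near a b (∑ i, (g i : ℝ) * x i) N := by
        rw [Filter.eventually_all_finset]
        intro g _
        by_cases hg : g = 0
        · exact Eventually.of_forall fun N h6 => absurd hg h6
        · filter_upwards [hnear g hg] with N hN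
          exact fun _ => hN
      filter_upwards [hH, h5] with N g1 g2
      refine g1 fun g hg hgH => g2 g ?_ hg
      rw [hB, Fintype.mem_piFinset]
      intro i
      rw [Finset.mem_Icc]
      exact abs_le.1 (hgH i)
  · intro L f hf
    obtain ⟨g, hg, -, h5⟩ := h3 L f hf
    filter_upwards [h5, hnear g hg] with N g1 g2
    exact g1 g2

/-- linear independence together with `1` over `ℚ` -/
def Indep {r : ℕ} (x : Fin r → ℝ) : Prop := ∀ (m : ℤ) (g : Fin r → ℤ), (m : ℝ) + ∑ i, (g i : ℝ) * x i = 0 → g = 0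

theorem Indep.irrational {r : ℕ} {x : Fin r → ℝ} (h : Indep x) (g : Fin r → ℤ) (hg : g ≠ 0) :
    Irrational (∑ i, (g i : ℝ) * x i) := by
  rintro ⟨q, hq⟩
  apply hg
  have h1 := h (-q.num) (fun i => g i * q.den) (by
    have h2 : ∑ i, ((g i * q.den : ℤ) : ℝ) * x i = (∑ i, (g i : ℝ) * x i) * q.den := by
      rw [Finset.sum_mul]
      refine Finset.sum_congr rfl fun i _ => ?_
      push_cast
      ring
    rw [h2, ← hq]
    have h3 : (q : ℝ) * q.den = q.num := by exact_mod_cast q.mul_den_eq_num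
    rw [h3]
    push_cast
    ring)
  funext i
  have h2 := congrFun h1 i
  simp only [Pi.zero_apply, mul_eq_zero] at h2
  rcases h2 with h2 | h2
  · exact h2
  · exfalso
    have := q.den_nz
    exact this (by exact_mod_cast h2)

theorem Indep.tame {r : ℕ} {x : Fin r → ℝ} (h : Indep x) (ha : ∀ i, IsAlgebraic ℚ (x i)) {κ : ℝ} (hκ : 1 ≤ κ)
    (g : Fin r → ℤ) (hg : g ≠ 0) : Tame κ (∑ i, (g i : ℝ) * x i) := by
  refine tame_of_not_liouville (h.irrational g hg) (fun hL => ?_) hκ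
  refine hL.transcendental ?_
  rw [IsFractionRing.isAlgebraic_iff ℤ ℚ ℝ]
  rw [← mem_algebraicClosure_iff]
  exact sum_mem fun i _ => mul_mem (intCast_mem _ (g i)) (mem_algebraicClosure_iff.2 (ha i))

/-- all families of algebraic numbers at once -/
theorem main_algebraic.{u} {S : ℕ → Finset ℕ} {M : ℕ → ℕ} {θ Θ : ℝ} (G : Growth S M θ Θ) (κ c : ℝ) (hκ : 1 ≤ κ)
    {Ω : Type u} [MeasurableSpace Ω] (μ : Measure Ω) [IsProbabilityMeasure μ]
    (p : ℕ → Ω → ℕ) (h : ∀ (r : ℕ) (x : Fin r → ℝ),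
        (∀ g : Fin r → ℤ, g ≠ 0 → Tame κ (∑ i, (g i : ℝ) * x i)) →
          ∀ᵐ ω ∂μ, NormalIn (fun k => p k ω) x ∧ SmallSums c (fun k => p k ω) x) :
    ∀ᵐ ω ∂μ, ∀ (r : ℕ) (x : Fin r → ℝ), (∀ i, IsAlgebraic ℚ (x i)) → Indep x →
      NormalIn (fun k => p k ω) x ∧ SmallSums c (fun k => p k ω) x := by
  have hc : Countable {x : ℝ // IsAlgebraic ℚ x} := (Algebraic.countable ℚ ℝ).to_subtype
  have h1 : ∀ᵐ ω ∂μ, ∀ (r : ℕ) (x : Fin r → {x : ℝ // IsAlgebraic ℚ x}), Indep (fun i => (x i : ℝ)) →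
      NormalIn (fun k => p k ω) (fun i => (x i : ℝ)) ∧ SmallSums c (fun k => p k ω) (fun i => (x i : ℝ)) := by
    rw [ae_all_iff]
    intro r
    rw [ae_all_iff]
    intro x
    by_cases hx : Indep (fun i => (x i : ℝ))
    · filter_upwards [h r (fun i => (x i : ℝ)) fun g hg => hx.tame (fun i => (x i).2) hκ g hg] with ω hω
      exact fun _ => hω
    · exact Eventually.of_forall fun ω h2 => absurd h2 hx
  filter_upwards [h1] with ω hω
  intro r x hx hi
  exact hω r (fun i => ⟨x i, hx i⟩) hi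

/-- all families of numbers algebraic over `ℚ(z)` at once -/
theorem main_over.{u} (κ c : ℝ) (hκ : 1 ≤ κ)
    {Ω : Type u} [MeasurableSpace Ω] (μ : Measure Ω) [IsProbabilityMeasure μ]
    (p : ℕ → Ω → ℕ) (h : ∀ (r : ℕ) (x : Fin r → ℝ),
        (∀ g : Fin r → ℤ, g ≠ 0 → Tame κ (∑ i, (g i : ℝ) * x i)) →
          ∀ᵐ ω ∂μ, NormalIn (fun k => p k ω) x ∧ SmallSums c (fun k => p k ω) x) (z : ℝ) (hz : MT z) :
    ∀ᵐ ω ∂μ, ∀ (r : ℕ) (x : Fin r → ℝ), (∀ i, IsAlgebraic (Algebra.adjoin ℤ ({z} : Set ℝ)) (x i)) → Indep x →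
      NormalIn (fun k => p k ω) x ∧ SmallSums c (fun k => p k ω) x := by
  have hcz : Countable (Algebra.adjoin ℤ ({z} : Set ℝ)) := by
    have h0 : Countable (Polynomial ℤ) :=
      Cardinal.mk_le_aleph0_iff.1 (Polynomial.cardinalMk_le_max.trans (by simp))
    rw [Algebra.adjoin_singleton_eq_range_aeval]
    exact Set.countable_range _
  have hc : Countable {x : ℝ // IsAlgebraic (Algebra.adjoin ℤ ({z} : Set ℝ)) x} :=
    (Algebraic.countable (Algebra.adjoin ℤ ({z} : Set ℝ)) ℝ).to_subtype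
  have h1 : ∀ᵐ ω ∂μ, ∀ (r : ℕ) (x : Fin r → {x : ℝ // IsAlgebraic (Algebra.adjoin ℤ ({z} : Set ℝ)) x}),
      Indep (fun i => (x i : ℝ)) →
      NormalIn (fun k => p k ω) (fun i => (x i : ℝ)) ∧ SmallSums c (fun k => p k ω) (fun i => (x i : ℝ)) := by
    rw [ae_all_iff]
    intro r
    rw [ae_all_iff]
    intro x
    by_cases hx : Indep (fun i => (x i : ℝ))
    · filter_upwards [h r (fun i => (x i : ℝ)) fun g hg => tame_of_meas
        (meas_alg hz (fun i => (x i : ℝ)) (fun i => (x i).2) hx) hκ g hg] with ω hω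
      exact fun _ => hω
    · exact Eventually.of_forall fun ω h2 => absurd h2 hx
  filter_upwards [h1] with ω hω
  intro r x hx hi
  exact hω r (fun i => ⟨x i, hx i⟩) hi

end Run7.h683.MR
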