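import Pool.Agent.Run7.h683.MR.W

/-!
# Random products: the polynomials in one arbitrary number, and a criterion for transcendence
-/

set_option autoImplicit false

namespace Run7.h683.MR

open Filter Run7.h683.AB MeasureTheory ProbabilityTheory Topology

/-- the isomorphism between the polynomials in one variable -/
noncomputable def toPoly : MvPolynomial (Fin 1) ℤ ≃ₐ[ℤ] Polynomial ℤ := MvPolynomial.uniqueAlgEquiv ℤ (Fin 1)

theorem toPoly_coeff (R : MvPolynomial (Fin 1) ℤ) (k : ℕ) :
    (toPoly R).coeff k = R.coeff (Finsupp.single default k) := MvPolynomial.coeff_uniqueAlgEquiv ℤ R k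

theorem single_default (s : Fin 1 →₀ ℕ) : s = Finsupp.single default (s default) := by
  ext
  rw [Finsupp.single_eq_same]

theorem coeff_eq_toPoly (R : MvPolynomial (Fin 1) ℤ) (s : Fin 1 →₀ ℕ) :
    R.coeff s = (toPoly R).coeff (s default) := by
  rw [toPoly_coeff, ← single_default]

theorem pv_toPoly (t : ℝ) (x : Fin 0 → ℝ) (R : MvPolynomial (Fin 1) ℤ) : pv t x R = Polynomial.aeval t (toPoly R) := by
  have h : (Fin.cons t x : Fin (0 + 1) → ℝ) = fun _ => t := by
    funext i
    exact Fin.cases rfl (fun j => j.elim0) i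
  have h2 : MvPolynomial.eval₂ (algebraMap ℤ ℝ) (fun _ : Fin 1 => t) R =
      Polynomial.eval₂ (algebraMap ℤ ℝ) t (MvPolynomial.uniqueAlgEquiv ℤ (Fin 1) R) :=
    MvPolynomial.eval₂_const_uniqueAlgEquiv.symm
  rw [pv_eq, h, Polynomial.aeval_def, MvPolynomial.aeval_def]
  exact h2

theorem natDegree_toPoly (R : MvPolynomial (Fin 1) ℤ) {d : ℕ} (hR : R.totalDegree ≤ d) : (toPoly R).natDegree ≤ d := by
  rw [Polynomial.natDegree_le_iff_coeff_eq_zero]
  intro k hk
  rw [toPoly_coeff]
  by_contra hne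
  have h1 := MvPolynomial.le_totalDegree (MvPolynomial.mem_support_iff.2 hne)
  rw [Finsupp.sum_single_index rfl] at h1
  omega

theorem totalDegree_symm (f : Polynomial ℤ) {d : ℕ} (hf : f.natDegree ≤ d) : (toPoly.symm f).totalDegree ≤ d := by
  unfold MvPolynomial.totalDegree
  refine Finset.sup_le fun s hs => ?_
  rw [MvPolynomial.mem_support_iff, coeff_eq_toPoly, AlgEquiv.apply_symm_apply] at hs
  have h1 : s default ≤ f.natDegree := Polynomial.le_natDegree_of_ne_zero hs
  rw [single_default s, Finsupp.sum_single_index rfl]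
  exact h1.trans hf

theorem uni_structure.{u} {S : ℕ → Finset ℕ} {M : ℕ → ℕ} {θ Θ : ℝ} (G : Growth S M θ Θ) :
    ∃ a b : ℝ, 0 < a ∧ a < b ∧ b < 1 ∧ ∀ t : ℝ, ∃ F : ℕ → ℕ → Polynomial ℤ,
      (∀ d : ℕ, 1 ≤ d → (∀ᶠ N : ℕ in atTop, F d N = 0 ∨ (Irreducible (F d N) ∧ 0 < (F d N).natDegree ∧
        (F d N).natDegree ≤ d ∧ (∀ k, |(((F d N).coeff k : ℤ) : ℝ)| ≤ Real.exp ((N : ℝ) ^ a)) ∧
        |Polynomial.aeval t (F d N)| < Real.exp (-(N : ℝ) ^ b))) ∧
        ((∃ R : Polynomial ℤ, R ≠ 0 ∧ R.natDegree ≤ d ∧ Polynomial.aeval t R = 0) ↔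
          ∀ᶠ N : ℕ in atTop, F d N ≠ 0)) ∧
      ∀ (Ω : Type u) [MeasurableSpace Ω] (μ : Measure Ω) [IsProbabilityMeasure μ] (p : ℕ → Ω → ℕ),
        Uniform μ S p → ∀ᵐ ω ∂μ, ∀ d : ℕ, 1 ≤ d → ∀ (m : ℕ) (f : Fin m → Polynomial ℤ),
          (∀ j, (f j).natDegree ≤ d) → ∀ (L : ℕ) (ε : ℝ), 0 < ε → ∀ᶠ N : ℕ in atTop,
            (∀ (c : Fin m → ℤ) (u : ℤ), F d N ∣ ∑ j, Polynomial.C (c j) * f j - Polynomial.C u → c = 0) →
              Words (fun k => p k ω) (fun j => Polynomial.aeval t (f j)) L N ε := by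
  obtain ⟨a, b, ha, hab, hb, h⟩ := poly_structure.{u} G
  refine ⟨a, b, ha, hab, hb, fun t => ?_⟩
  obtain ⟨F, hF1, hF2⟩ := h 0 (fun i => i.elim0) (measM_empty _) t
  refine ⟨fun d N => toPoly (F d N), fun d hd => ⟨?_, ?_⟩, ?_⟩
  · filter_upwards [(hF1 d hd).1, eventually_ge_atTop 1] with N hN hN1
    rcases hN with hN | ⟨k1, k2, k3, k4, k5⟩
    · left
      rw [hN, map_zero]
    · right
      rw [pv_toPoly] at k5
      refine ⟨(MulEquiv.irreducible_iff toPoly).2 k1, ?_, natDegree_toPoly _ k3, fun k => ?_, k5⟩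
      · by_contra hcon
        have h0 : (toPoly (F d N)).natDegree = 0 := by omega
        rw [Polynomial.natDegree_eq_zero] at h0
        obtain ⟨z, hz⟩ := h0
        have hz0 : z ≠ 0 := by
          rintro rfl
          rw [map_zero] at hz
          exact k1.ne_zero (toPoly.injective (hz.symm.trans (map_zero _).symm))
        rw [← hz, Polynomial.aeval_C] at k5
        have h1 : (1 : ℝ) ≤ |(z : ℝ)| := by exact_mod_cast Int.one_le_abs hz0
        have h2 : Real.exp (-(N : ℝ) ^ b) ≤ 1 := by
          rw [Real.exp_le_one_iff]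
          have : (0 : ℝ) ≤ (N : ℝ) ^ b := by positivity
          linarith
        simp only [eq_intCast] at k5
        linarith
      · rw [toPoly_coeff]
        exact k4 _
  · have h1 := (hF1 d hd).2
    constructor
    · rintro ⟨R, hR0, hRd, hRv⟩
      have h2 := h1.1 ⟨toPoly.symm R, fun h3 => hR0 (toPoly.symm.injective (h3.trans (map_zero _).symm)),
        totalDegree_symm R hRd, by rw [pv_toPoly, AlgEquiv.apply_symm_apply]; exact hRv⟩
      filter_upwards [h2] with N hN
      intro h3
      exact hN (toPoly.injective (h3.trans (map_zero _).symm))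
    · intro h2
      obtain ⟨R, hR0, hRd, hRv⟩ := h1.2 (by
        filter_upwards [h2] with N hN
        intro h3
        apply hN
        rw [h3, map_zero])
      refine ⟨toPoly R, fun h3 => hR0 (toPoly.injective (h3.trans (map_zero _).symm)), natDegree_toPoly R hRd, ?_⟩
      rw [← pv_toPoly t (fun i => i.elim0)]
      exact hRv
  · intro Ω _ μ _ p hp
    filter_upwards [hF2 Ω μ p hp] with ω hω
    intro d hd m f hf L ε hε
    filter_upwards [hω d hd m (fun j => toPoly.symm (f j)) (fun j => totalDegree_symm _ (hf j)) L ε hε] with N hN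
    intro hfree
    have h2 := hN (fun c u hcu => by
      apply hfree c u
      have h3 := (map_dvd toPoly hcu)
      rw [map_sub, map_sum] at h3
      have h4 : toPoly (MvPolynomial.C u) = Polynomial.C u := toPoly.commutes u
      rw [h4] at h3
      convert h3 using 3
      rw [map_mul, AlgEquiv.apply_symm_apply]
      congr 1
      exact (toPoly.commutes _).symm)
    simp only [pv_toPoly, AlgEquiv.apply_symm_apply] at h2
    exact h2

theorem transcendental_iff (t : ℝ) : Transcendental ℚ t ↔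
    ∀ d : ℕ, ¬ ∃ R : Polynomial ℤ, R ≠ 0 ∧ R.natDegree ≤ d ∧ Polynomial.aeval t R = 0 := by
  constructor
  · rintro h d ⟨R, hR0, -, hRv⟩
    exact h ((IsFractionRing.isAlgebraic_iff ℤ ℚ ℝ).1 ⟨R, hR0, hRv⟩)
  · intro h h1
    obtain ⟨R, hR0, hRv⟩ := (IsFractionRing.isAlgebraic_iff ℤ ℚ ℝ).2 h1
    exact h _ ⟨R, hR0, le_rfl, hRv⟩

theorem irrational_iff (t : ℝ) : Irrational t ↔
    ¬ ∃ R : Polynomial ℤ, R ≠ 0 ∧ R.natDegree ≤ 1 ∧ Polynomial.aeval t R = 0 := by
  rw [irrational_iff_ne_rational]
  constructor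
  · rintro h ⟨R, hR0, hRd, hRv⟩
    rw [Polynomial.aeval_eq_sum_range' (n := 2) (by omega), Finset.sum_range_succ, Finset.sum_range_one] at hRv
    simp only [zsmul_eq_mul, pow_zero, mul_one, pow_one] at hRv
    by_cases h1 : R.coeff 1 = 0
    · rw [h1, Int.cast_zero, zero_mul, add_zero] at hRv
      have h0 : R.coeff 0 = 0 := by exact_mod_cast hRv
      apply hR0
      ext k
      rcases k with _ | _ | k
      · rw [h0, Polynomial.coeff_zero]
      · rw [h1, Polynomial.coeff_zero]
      · rw [Polynomial.coeff_eq_zero_of_natDegree_lt (by omega), Polynomial.coeff_zero]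
    · apply h (-R.coeff 0) (R.coeff 1) h1
      have h2 : (R.coeff 1 : ℝ) ≠ 0 := by exact_mod_cast h1
      rw [eq_div_iff h2]
      push_cast
      linarith
  · intro h a b hb hab
    apply h
    have hb' : (b : ℝ) ≠ 0 := by exact_mod_cast hb
    refine ⟨Polynomial.C b * Polynomial.X + Polynomial.C (-a), ?_, Polynomial.natDegree_linear_le, ?_⟩
    · intro h1
      have h2 := congrArg (fun Q : Polynomial ℤ => Q.coeff 1) h1
      simp only [Polynomial.coeff_add, Polynomial.coeff_C_mul, Polynomial.coeff_X_one, mul_one,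
        Polynomial.coeff_C_succ, add_zero, Polynomial.coeff_zero] at h2
      exact hb h2
    · rw [map_add, map_mul, Polynomial.aeval_C, Polynomial.aeval_X, Polynomial.aeval_C, hab]
      simp only [eq_intCast]
      push_cast
      field_simp
      ring

/-- a criterion for transcendence and for irrationality -/
theorem powers_criterion.{u} {S : ℕ → Finset ℕ} {M : ℕ → ℕ} {θ Θ : ℝ} (G : Growth S M θ Θ) (t : ℝ)
    (Ω : Type u) [MeasurableSpace Ω] (μ : Measure Ω) [IsProbabilityMeasure μ] (p : ℕ → Ω → ℕ) (hp : Uniform μ S p) :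
    ∀ᵐ ω ∂μ, ∀ d : ℕ, (¬ ∃ R : Polynomial ℤ, R ≠ 0 ∧ R.natDegree ≤ d ∧ Polynomial.aeval t R = 0) ↔
      ∀ (L : ℕ) (ε : ℝ), 0 < ε → ∃ᶠ N : ℕ in atTop,
        Words (fun k => p k ω) (fun j : Fin d => t ^ ((j : ℕ) + 1)) L N ε := by
  obtain ⟨a, b, ha, hab, hb, h⟩ := uni_structure.{u} G
  obtain ⟨F, hF1, hF2⟩ := h t
  filter_upwards [hF2 Ω μ p hp] with ω hω
  intro d
  constructor
  · intro hR L ε hε
    rcases Nat.eq_zero_or_pos d with hd | hd
    · subst hd
      refine Eventually.frequently (Eventually.of_forall fun N => ?_)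
      intro u w _
      have h1 : ((Finset.range N).filter fun n => ∀ (l : Fin L) (i : Fin 0),
          u l i ≤ Int.fract ((PP (fun k => p k ω) (n + (l : ℕ)) : ℝ) * (fun j : Fin 0 => t ^ ((j : ℕ) + 1)) i) ∧
          Int.fract ((PP (fun k => p k ω) (n + (l : ℕ)) : ℝ) * (fun j : Fin 0 => t ^ ((j : ℕ) + 1)) i) < w l i) =
          Finset.range N := by
        rw [Finset.filter_true_of_mem]
        intro n _ l i
        exact i.elim0
      rw [h1, Finset.card_range]
      simp only [Finset.univ_eq_empty, Finset.prod_empty, Finset.prod_const_one, one_mul, sub_self, abs_zero]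
      positivity
    · have h1 : ∃ᶠ N : ℕ in atTop, F d N = 0 := by
        by_contra hcon
        rw [not_frequently] at hcon
        exact hR ((hF1 d hd).2.2 hcon)
      have h2 := hω d hd d (fun j => Polynomial.X ^ ((j : ℕ) + 1)) (fun j => by
        rw [Polynomial.natDegree_X_pow]
        exact j.2) L ε hε
      refine (h1.and_eventually h2).mono fun N hN => ?_
      have h3 := hN.2 (fun c u hcu => by
        rw [hN.1, zero_dvd_iff] at hcu
        funext j
        have h4 := congrArg (fun Q : Polynomial ℤ => Q.coeff ((j : ℕ) + 1)) hcu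
        simp only [Polynomial.coeff_sub, Polynomial.finset_sum_coeff, Polynomial.coeff_C_mul, Polynomial.coeff_X_pow,
          Polynomial.coeff_C_succ, sub_zero, Polynomial.coeff_zero] at h4
        rw [Finset.sum_eq_single j] at h4
        · simpa using h4
        · intro i _ hi
          rw [if_neg (fun h5 => hi (Fin.ext (by omega))), mul_zero]
        · intro h5
          exact absurd (Finset.mem_univ _) h5)
      simp only [map_pow, Polynomial.aeval_X] at h3
      exact h3
  · rintro hW ⟨R, hR0, hRd, hRv⟩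
    have hrel : ∑ j : Fin d, ((R.coeff ((j : ℕ) + 1) : ℤ) : ℝ) * t ^ ((j : ℕ) + 1) = ((-R.coeff 0 : ℤ) : ℝ) := by
      rw [Polynomial.aeval_eq_sum_range' (n := d + 1) (by omega), Finset.sum_range_succ'] at hRv
      simp only [zsmul_eq_mul, pow_zero, mul_one] at hRv
      rw [Fin.sum_univ_eq_sum_range (fun j => ((R.coeff (j + 1) : ℤ) : ℝ) * t ^ (j + 1)) d]
      push_cast
      linarith
    have hr0 : (fun j : Fin d => R.coeff ((j : ℕ) + 1)) ≠ 0 := by
      intro h1
      have h2 : ∀ k, R.coeff (k + 1) = 0 := by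
        intro k
        by_cases hk : k < d
        · exact congrFun h1 ⟨k, hk⟩
        · exact Polynomial.coeff_eq_zero_of_natDegree_lt (by omega)
      have h3 : R = Polynomial.C (R.coeff 0) := by
        ext k
        rcases k with _ | k
        · simp
        · rw [h2 k, Polynomial.coeff_C_succ]
      have h4 : R.coeff 0 ≠ 0 := by
        intro h5
        rw [h5, map_zero] at h3
        exact hR0 h3
      rw [h3, Polynomial.aeval_C] at hRv
      simp only [eq_intCast] at hRv
      exact h4 (by exact_mod_cast hRv)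
    obtain ⟨ε, hε, hno⟩ := words_relation (v := fun k => p k ω) (y := fun j : Fin d => t ^ ((j : ℕ) + 1))
      (fun j => R.coeff ((j : ℕ) + 1)) hr0 (-R.coeff 0) hrel
    obtain ⟨N, hN, hN1⟩ := ((hW 1 ε hε).and_eventually (eventually_ge_atTop 1)).exists
    exact hno N hN1 hN

end Run7.h683.MR
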