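import Pool.Agent.Run7.h683.MR.X
import Pool.Agent.Run7.h683.MR.Y

/-!
# Random products: the empty family, and shifted powers
-/

set_option autoImplicit false

namespace Run7.h683.MR

open Filter Run7.h683.AB MeasureTheory ProbabilityTheory Topology
open Pool.Agent.N743.SS (MeasM)

theorem measM_empty (x : Fin 0 → ℝ) : MeasM x := by
  intro D
  refine ⟨1, 1, one_pos, one_pos, fun P hP _ H hH => ?_⟩
  have hH1 := Pool.Agent.N743.SS.one_le_of_mcoeff hP hH
  obtain ⟨a, ha⟩ : ∃ a : ℤ, P = MvPolynomial.C a := by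
    obtain ⟨a, ha⟩ := MvPolynomial.C_surjective (R := ℤ) (Fin 0) P
    exact ⟨a, ha.symm⟩
  have ha0 : a ≠ 0 := by
    rintro rfl
    apply hP
    rw [ha, map_zero]
  rw [ha, MvPolynomial.aeval_C, one_mul]
  have h1 : (1 : ℝ) ≤ |(a : ℝ)| := by exact_mod_cast Int.one_le_abs ha0
  have h2 : H ^ (-(1 : ℝ)) ≤ 1 := Real.rpow_le_one_of_one_le_of_nonpos hH1 (by norm_num)
  simp only [eq_intCast]
  linarith

theorem indepZ_pow_mul {z : ℝ} (hz : MT z) (J : ℕ) {c : ℝ} (hc : c ≠ 0) :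
    IndepZ (fun j : Fin (J + 1) => z ^ (j : ℕ) * c) := by
  intro g hg
  apply indepZ_pow hz J g
  have h1 : (∑ j : Fin (J + 1), (g j : ℝ) * z ^ (j : ℕ)) * c = 0 := by
    rw [← hg, Finset.sum_mul]
    exact Finset.sum_congr rfl fun j _ => by ring
  exact (mul_eq_zero.1 h1).resolve_right hc

theorem alg_inv_pow (z : ℝ) (k : ℕ) : IsAlgebraic (Algebra.adjoin ℤ ({z} : Set ℝ)) (z ^ k)⁻¹ := (alg_pow z k).inv

theorem indepZ_inv_pow {z : ℝ} (hz : MT z) (hz0 : z ≠ 0) (J : ℕ) :
    IndepZ (fun j : Fin (J + 1) => (z ^ (j : ℕ))⁻¹) := by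
  intro g hg
  have h1 := indepZ_pow hz J (fun j => g j.rev) (by
    have h2 : (∑ j : Fin (J + 1), (g j : ℝ) * (z ^ (j : ℕ))⁻¹) * z ^ J = 0 := by
      rw [hg, zero_mul]
    rw [← h2, Finset.sum_mul, ← Equiv.sum_comp Fin.revPerm]
    refine Finset.sum_congr rfl fun j _ => ?_
    rw [Fin.revPerm_apply, Fin.rev_rev, mul_assoc]
    congr 1
    have h3 : z ^ J = z ^ (j : ℕ) * z ^ (J - (j : ℕ)) := by
      rw [← pow_add]
      congr 1
      have := j.2
      omega
    rw [h3, inv_mul_cancel_left₀ (pow_ne_zero _ hz0)]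
    show z ^ ((j.rev : Fin (J + 1)) : ℕ) = z ^ (J - (j : ℕ))
    congr 1
    rw [Fin.val_rev]
    omega)
  funext j
  have h2 := congrFun h1 j.rev
  simpa using h2

theorem zeta_pos {n : ℕ} (hn : 2 ≤ n) : 0 < ∑' k : ℕ, 1 / ((k : ℝ) + 1) ^ n := by
  have hs : Summable fun k : ℕ => 1 / ((k : ℝ) + 1) ^ n := by
    have h := (summable_nat_add_iff 1).2 (Real.summable_one_div_nat_pow.2 (by omega : 1 < n))
    simpa using h
  exact hs.tsum_pos (fun k => by positivity) 0 (by positivity)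

/-- numbers with an integral relation are not equidistributed -/
theorem words_relation {v : ℕ → ℕ} {d : ℕ} {y : Fin d → ℝ} (r : Fin d → ℤ) (hr : r ≠ 0) (k : ℤ)
    (hk : ∑ j, (r j : ℝ) * y j = k) : ∃ ε : ℝ, 0 < ε ∧ ∀ N : ℕ, 1 ≤ N → ¬ Words v y 1 N ε := by
  classical
  obtain ⟨j₀, hj₀⟩ := Function.ne_iff.1 hr
  rw [Pi.zero_apply] at hj₀
  obtain ⟨S, hS⟩ : ∃ S : ℝ, S = ∑ j, |(r j : ℝ)| := ⟨_, rfl⟩
  have hr0 : (1 : ℝ) ≤ |(r j₀ : ℝ)| := by exact_mod_cast Int.one_le_abs hj₀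
  have hS1 : 1 ≤ S := by
    rw [hS]
    exact hr0.trans (Finset.single_le_sum (f := fun j => |(r j : ℝ)|) (fun _ _ => abs_nonneg _) (Finset.mem_univ j₀))
  obtain ⟨η, hη⟩ : ∃ η : ℝ, η = 1 / (4 * S) := ⟨_, rfl⟩
  have hη0 : 0 < η := by rw [hη]; positivity
  have hη1 : η ≤ 1 / 4 := by
    rw [hη]
    exact div_le_div_of_nonneg_left (by norm_num) (by norm_num) (by linarith)
  obtain ⟨q, hq⟩ : ∃ q : ℝ, q = 1 / (2 * |(r j₀ : ℝ)|) := ⟨_, rfl⟩
  have hq0 : 0 ≤ q := by rw [hq]; positivity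
  have hq1 : q ≤ 1 / 2 := by
    rw [hq]
    exact div_le_div_of_nonneg_left (by norm_num) (by norm_num) (by linarith)
  have hvol : 0 < η ^ d := by positivity
  refine ⟨η ^ d / 2, by positivity, fun N hN hw => ?_⟩
  have h1 := hw (fun _ j => if j = j₀ then q else 0) (fun _ j => if j = j₀ then q + η else η) (fun _ j => by
    split_ifs
    · exact ⟨hq0, by linarith, by linarith⟩
    · exact ⟨le_rfl, hη0.le, by linarith⟩)
  have h2 : ((Finset.range N).filter fun n => ∀ (l : Fin 1) (i : Fin d),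
      (if i = j₀ then q else 0) ≤ Int.fract ((PP v (n + (l : ℕ)) : ℝ) * y i) ∧
      Int.fract ((PP v (n + (l : ℕ)) : ℝ) * y i) < (if i = j₀ then q + η else η)) = ∅ := by
    rw [Finset.filter_eq_empty_iff]
    intro n _ h3
    have h4 := h3 0
    obtain ⟨z, hz⟩ : ∃ z : Fin d → ℝ, z = fun i => Int.fract ((PP v (n + ((0 : Fin 1) : ℕ)) : ℝ) * y i) := ⟨_, rfl⟩
    have h5 : ∃ m : ℤ, ∑ j, (r j : ℝ) * z j = m := by
      refine ⟨(PP v (n + ((0 : Fin 1) : ℕ)) : ℤ) * k - ∑ j, r j * ⌊(PP v (n + ((0 : Fin 1) : ℕ)) : ℝ) * y j⌋, ?_⟩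
      push_cast
      rw [← hk, Finset.mul_sum, ← Finset.sum_sub_distrib]
      refine Finset.sum_congr rfl fun j _ => ?_
      rw [hz]
      show (r j : ℝ) * Int.fract ((PP v (n + ((0 : Fin 1) : ℕ)) : ℝ) * y j) = _
      rw [Int.fract]
      push_cast
      ring
    obtain ⟨m, hm⟩ := h5
    have h6 : |∑ j, (r j : ℝ) * z j - (r j₀ : ℝ) * q| < 1 / 2 := by
      have h7 : ∑ j, (r j : ℝ) * z j - (r j₀ : ℝ) * q = ∑ j, (r j : ℝ) * (z j - if j = j₀ then q else 0) := by
        simp only [mul_sub]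
        rw [Finset.sum_sub_distrib]
        congr 1
        rw [Finset.sum_eq_single j₀]
        · rw [if_pos rfl]
        · intro j _ hj
          rw [if_neg hj, mul_zero]
        · intro hj
          exact absurd (Finset.mem_univ _) hj
      rw [h7]
      have h8 : |∑ j, (r j : ℝ) * (z j - if j = j₀ then q else 0)| ≤ ∑ j, |(r j : ℝ)| * η := by
        refine (Finset.abs_sum_le_sum_abs _ _).trans (Finset.sum_le_sum fun j _ => ?_)
        rw [abs_mul]
        refine mul_le_mul_of_nonneg_left ?_ (abs_nonneg _)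
        have h9 := h4 j
        rw [abs_le]
        have h10 : z j = Int.fract ((PP v (n + ((0 : Fin 1) : ℕ)) : ℝ) * y j) := by rw [hz]
        rw [← h10] at h9
        split_ifs at h9 ⊢ with h11
        · constructor <;> linarith [h9.1, h9.2]
        · constructor <;> linarith [h9.1, h9.2]
      rw [← Finset.sum_mul, ← hS, hη] at h8
      have h12 : S * (1 / (4 * S)) = 1 / 4 := by field_simp
      linarith
    rw [hm] at h6
    have h7 : (r j₀ : ℝ) * q = 1 / 2 ∨ (r j₀ : ℝ) * q = -(1 / 2) := by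
      rw [hq]
      have hne : |(r j₀ : ℝ)| ≠ 0 := by linarith
      rcases abs_choice (r j₀ : ℝ) with h8 | h8
      · left
        rw [h8] at hne ⊢
        field_simp
      · right
        rw [h8] at hne ⊢
        have hne' : (r j₀ : ℝ) ≠ 0 := by
          intro h9
          apply hne
          rw [h9, neg_zero]
        field_simp
    rcases h7 with h7 | h7
    · rw [h7, abs_lt] at h6
      have k1 : (0 : ℝ) < m := by linarith [h6.1]
      have k2 : (m : ℝ) < 1 := by linarith [h6.2]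
      have k3 : 0 < m := by exact_mod_cast k1
      have k4 : m < 1 := by exact_mod_cast k2
      omega
    · rw [h7, abs_lt] at h6
      have k1 : (-1 : ℝ) < m := by linarith [h6.1]
      have k2 : (m : ℝ) < 0 := by linarith [h6.2]
      have k3 : -1 < m := by exact_mod_cast k1
      have k4 : m < 0 := by exact_mod_cast k2
      omega
  rw [h2, Finset.card_empty, Nat.cast_zero, zero_sub, abs_neg] at h1
  have h3 : ∏ _l : Fin 1, ∏ j : Fin d, ((if j = j₀ then q + η else η) - (if j = j₀ then q else 0)) = η ^ d := by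
    rw [Fin.prod_univ_one]
    rw [Finset.prod_congr rfl (g := fun _ => η) (fun j _ => by
      split_ifs
      · ring
      · ring), Finset.prod_const, Finset.card_univ, Fintype.card_fin]
  rw [h3] at h1
  have hN1 : (1 : ℝ) ≤ N := by exact_mod_cast hN
  rw [abs_of_nonneg (by positivity)] at h1
  nlinarith

end Run7.h683.MR
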