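import Mathlib

/-!
# Random products: means over finitely many coordinates
-/

set_option autoImplicit false

namespace Run7.h683.MR

open Finset

/-- the mean over the first `N` coordinates; the coordinate `k` runs through the finite set `S k`, the coordinates from
`N` on are `0` -/
noncomputable def avg (S : ℕ → Finset ℕ) : ℕ → ((ℕ → ℕ) → ℝ) → ℝ
  | 0, f => f 0
  | N + 1, f => avg S N fun v => (∑ p ∈ S N, f (Function.update v N p)) / (S N).card

variable {S : ℕ → Finset ℕ}

theorem avg_zero (f : (ℕ → ℕ) → ℝ) : avg S 0 f = f 0 := rfl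

theorem avg_succ (N : ℕ) (f : (ℕ → ℕ) → ℝ) :
    avg S (N + 1) f = avg S N fun v => (∑ p ∈ S N, f (Function.update v N p)) / (S N).card := rfl

theorem avg_mono (N : ℕ) : ∀ (f g : (ℕ → ℕ) → ℝ), (∀ v, (∀ k < N, v k ∈ S k) → f v ≤ g v) →
    avg S N f ≤ avg S N g := by
  induction N with
  | zero =>
    intro f g h
    exact h 0 (by omega)
  | succ N ih =>
    intro f g h
    rw [avg_succ, avg_succ]
    refine ih _ _ fun v hv => ?_
    refine div_le_div_of_nonneg_right ?_ (by positivity)
    refine Finset.sum_le_sum fun p hp => h _ fun k hk => ?_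
    rcases eq_or_ne k N with rfl | hkN
    · rw [Function.update_self]
      exact hp
    · rw [Function.update_of_ne hkN]
      exact hv k (by omega)

theorem avg_congr (N : ℕ) (f g : (ℕ → ℕ) → ℝ) (h : ∀ v, (∀ k < N, v k ∈ S k) → f v = g v) :
    avg S N f = avg S N g :=
  le_antisymm (avg_mono N f g fun v hv => (h v hv).le) (avg_mono N g f fun v hv => (h v hv).ge)

theorem avg_add (N : ℕ) : ∀ (f g : (ℕ → ℕ) → ℝ), avg S N (fun v => f v + g v) = avg S N f + avg S N g := by
  induction N with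
  | zero =>
    intro f g
    rfl
  | succ N ih =>
    intro f g
    rw [avg_succ, avg_succ, avg_succ, ← ih]
    congr 1
    funext v
    rw [Finset.sum_add_distrib, add_div]

theorem avg_mul (N : ℕ) (c : ℝ) : ∀ (f : (ℕ → ℕ) → ℝ), avg S N (fun v => c * f v) = c * avg S N f := by
  induction N with
  | zero =>
    intro f
    rfl
  | succ N ih =>
    intro f
    rw [avg_succ, avg_succ, ← ih]
    congr 1
    funext v
    rw [← Finset.mul_sum, mul_div_assoc]

theorem avg_sum {ι : Type*} (s : Finset ι) (N : ℕ) (f : ι → (ℕ → ℕ) → ℝ) :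
    avg S N (fun v => ∑ i ∈ s, f i v) = ∑ i ∈ s, avg S N (f i) := by
  classical
  induction s using Finset.induction_on with
  | empty =>
    simp only [Finset.sum_empty]
    have h := avg_mul (S := S) N 0 (fun _ => 0)
    simpa using h
  | insert i s hi ih =>
    rw [Finset.sum_insert hi, ← ih, ← avg_add]
    congr 1
    funext v
    rw [Finset.sum_insert hi]

theorem avg_const (hS : ∀ k, (S k).Nonempty) (N : ℕ) (c : ℝ) : avg S N (fun _ => c) = c := by
  induction N with
  | zero => rfl
  | succ N ih =>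
    rw [avg_succ]
    rw [avg_congr N _ (fun _ => c) fun v _ => ?_]
    · exact ih
    · have h : ((S N).card : ℝ) ≠ 0 := by
        have := (hS N).card_pos
        positivity
      rw [Finset.sum_const, nsmul_eq_mul]
      field_simp

/-- `f` depends on the first `n` coordinates only -/
def Dep {α : Type*} (n : ℕ) (f : (ℕ → ℕ) → α) : Prop := ∀ v w : ℕ → ℕ, (∀ k < n, v k = w k) → f v = f w

theorem Dep.update {α : Type*} {n : ℕ} {f : (ℕ → ℕ) → α} (h : Dep n f) {k : ℕ} (hk : n ≤ k) (v : ℕ → ℕ) (p : ℕ) :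
    f (Function.update v k p) = f v :=
  h _ _ fun i hi => Function.update_of_ne (by omega) _ _

theorem Dep.mono {α : Type*} {n m : ℕ} {f : (ℕ → ℕ) → α} (h : Dep n f) (hnm : n ≤ m) : Dep m f :=
  fun v w hvw => h v w fun k hk => hvw k (by omega)

theorem avg_dep (hS : ∀ k, (S k).Nonempty) (n : ℕ) (f : (ℕ → ℕ) → ℝ) (hf : Dep n f) (m : ℕ) :
    avg S (n + m) f = avg S n f := by
  induction m with
  | zero => rfl
  | succ m ih =>
    rw [← add_assoc, avg_succ, ← ih]
    refine avg_congr _ _ _ fun v _ => ?_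
    have h : ((S (n + m)).card : ℝ) ≠ 0 := by
      have := (hS (n + m)).card_pos
      positivity
    rw [Finset.sum_congr rfl fun p _ => hf.update (Nat.le_add_right n m) v p, Finset.sum_const, nsmul_eq_mul]
    field_simp

theorem avg_dep' (hS : ∀ k, (S k).Nonempty) {n N : ℕ} (hnN : n ≤ N) (f : (ℕ → ℕ) → ℝ) (hf : Dep n f) :
    avg S N f = avg S n f := by
  obtain ⟨m, rfl⟩ := Nat.exists_eq_add_of_le hnN
  exact avg_dep hS n f hf m

/-- the indicator of a property -/
noncomputable def ind (Q : (ℕ → ℕ) → Prop) (v : ℕ → ℕ) : ℝ := by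
  classical
  exact if Q v then 1 else 0

theorem ind_nonneg (Q : (ℕ → ℕ) → Prop) (v : ℕ → ℕ) : 0 ≤ ind Q v := by
  unfold ind
  split_ifs <;> norm_num

theorem ind_le_one (Q : (ℕ → ℕ) → Prop) (v : ℕ → ℕ) : ind Q v ≤ 1 := by
  unfold ind
  split_ifs <;> norm_num

theorem ind_true {Q : (ℕ → ℕ) → Prop} {v : ℕ → ℕ} (h : Q v) : ind Q v = 1 := by
  unfold ind
  rw [if_pos h]

theorem ind_false {Q : (ℕ → ℕ) → Prop} {v : ℕ → ℕ} (h : ¬ Q v) : ind Q v = 0 := by
  unfold ind
  rw [if_neg h]

theorem ind_dep {Q : (ℕ → ℕ) → Prop} {n : ℕ} (h : Dep n Q) : Dep n (ind Q) := by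
  intro v w hvw
  unfold ind
  rw [h v w hvw]

/-! ### Probabilities -/

open MeasureTheory

variable {Ω : Type*} [MeasurableSpace Ω] {μ : Measure Ω} [IsProbabilityMeasure μ]

theorem prob_aux {p : ℕ → Ω → ℕ} (hp : ∀ k ω, p k ω ∈ S k)
    (hcyl : ∀ (N : ℕ) (v : ℕ → ℕ), μ.real {ω | ∀ k < N, p k ω = v k} ≤ ∏ k ∈ range N, (1 / ((S k).card : ℝ)))
    (L : ℕ) (N : ℕ) : N ≤ L → ∀ (Q : (ℕ → ℕ) → Prop), Dep N Q → ∀ w : ℕ → ℕ,
    μ.real {ω | Q (fun k => p k ω) ∧ ∀ k, N ≤ k → k < L → p k ω = w k} ≤
      avg S N (ind Q) * ∏ k ∈ Finset.Ico N L, (1 / ((S k).card : ℝ)) := by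
  induction N with
  | zero =>
    intro _ Q hQ w
    by_cases h0 : Q 0
    · have h2 := hcyl L w
      rw [Finset.range_eq_Ico] at h2
      rw [avg_zero, ind_true h0, one_mul]
      refine le_trans (measureReal_mono ?_ (measure_ne_top _ _)) h2
      rintro ω ⟨-, h⟩
      exact fun k hk => h k (Nat.zero_le _) hk
    · have h1 : {ω | Q (fun k => p k ω) ∧ ∀ k, 0 ≤ k → k < L → p k ω = w k} = ∅ := by
        rw [Set.eq_empty_iff_forall_notMem]
        rintro ω ⟨h, -⟩
        apply h0
        rw [hQ 0 (fun k => p k ω) (by omega)]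
        exact h
      rw [h1, avg_zero, ind_false h0]
      simp
  | succ N ih =>
    intro hNL Q hQ w
    obtain ⟨R, hR⟩ : ∃ R : ℕ → (ℕ → ℕ) → Prop, R = fun q v => Q (Function.update v N q) := ⟨_, rfl⟩
    have hRdep : ∀ q, Dep N (R q) := by
      intro q v v' hv
      rw [hR]
      refine hQ _ _ fun k hk => ?_
      rcases eq_or_ne k N with rfl | hkN
      · rw [Function.update_self, Function.update_self]
      · rw [Function.update_of_ne hkN, Function.update_of_ne hkN]
        exact hv k (by omega)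
    have h1 : {ω | Q (fun k => p k ω) ∧ ∀ k, N + 1 ≤ k → k < L → p k ω = w k} ⊆
        ⋃ q ∈ S N, {ω | R q (fun k => p k ω) ∧ ∀ k, N ≤ k → k < L → p k ω = Function.update w N q k} := by
      rintro ω ⟨h2, h3⟩
      rw [Set.mem_iUnion₂]
      refine ⟨p N ω, hp N ω, ?_, fun k hk hkL => ?_⟩
      · rw [hR]
        show Q (Function.update (fun k => p k ω) N (p N ω))
        have : Function.update (fun k => p k ω) N (p N ω) = fun k => p k ω := by
          funext k
          rcases eq_or_ne k N with rfl | hkN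
          · rw [Function.update_self]
          · rw [Function.update_of_ne hkN]
        rw [this]
        exact h2
      · rcases eq_or_ne k N with rfl | hkN
        · rw [Function.update_self]
        · rw [Function.update_of_ne hkN]
          exact h3 k (by omega) hkL
    refine (measureReal_mono h1 (measure_ne_top _ _)).trans ?_
    refine (measureReal_biUnion_finset_le _ _).trans ?_
    refine (Finset.sum_le_sum fun q _ => ih (by omega) (R q) (hRdep q) (Function.update w N q)).trans ?_
    rw [← Finset.sum_mul, ← avg_sum, Finset.prod_eq_prod_Ico_succ_bot (by omega : N < L), ← mul_assoc]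
    refine le_of_eq ?_
    congr 1
    rw [avg_succ, mul_comm, ← avg_mul]
    congr 1
    funext v
    have h4 : ∀ q, ind (R q) v = ind Q (Function.update v N q) := by
      intro q
      unfold ind
      rw [hR]
    simp only [h4]
    ring

theorem prob_le {p : ℕ → Ω → ℕ} (hp : ∀ k ω, p k ω ∈ S k)
    (hcyl : ∀ (N : ℕ) (v : ℕ → ℕ), μ.real {ω | ∀ k < N, p k ω = v k} ≤ ∏ k ∈ range N, (1 / ((S k).card : ℝ)))
    (N : ℕ) (Q : (ℕ → ℕ) → Prop) (hQ : Dep N Q) :
    μ.real {ω | Q (fun k => p k ω)} ≤ avg S N (ind Q) := by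
  have h := prob_aux hp hcyl N N le_rfl Q hQ 0
  rw [Finset.Ico_self, Finset.prod_empty, mul_one] at h
  refine le_trans (measureReal_mono ?_ (measure_ne_top _ _)) h
  intro ω hω
  exact ⟨hω, fun k h1 h2 => absurd h2 (by omega)⟩

end Run7.h683.MR
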