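import Pool.Agent.Run7.h683.AB.F1
import Pool.Agent.Run7.h683.MR.A

/-!
# Random products: bilinear sums over two sets of integers
-/

set_option autoImplicit false

namespace Run7.h683.MR

open Finset Run7.h683.AB
open Pool.Agent.Y957.VK (dz mn)

theorem gs_le_mn (V : ℕ) (t : ℝ) : ‖gs (V + 1) t‖ ≤ mn V t := by
  have h1 : ‖gs (V + 1) t‖ ≤ 2 * (V : ℝ) + 1 := by
    unfold gs
    refine (norm_sum_le _ _).trans ?_
    refine (Finset.sum_le_sum fun l _ => (norm_ee _).le).trans ?_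
    rw [Finset.sum_const, Finset.card_range, nsmul_eq_mul, mul_one]
    push_cast
    have : (0 : ℝ) ≤ V := by positivity
    linarith
  unfold mn
  split_ifs with h
  · exact h1
  · refine le_min h1 ?_
    exact gs_le _ _ _ (lt_of_le_of_ne (dz_nonneg t) (Ne.symm h)) le_rfl

theorem sq_expand (P' : Finset ℕ) (z : ℝ) (m : ℕ) :
    ((‖∑ p ∈ P', ee ((m : ℝ) * p * z)‖ ^ 2 : ℝ) : ℂ) =
      ∑ p ∈ P', ∑ p' ∈ P', ee (z * ((p : ℤ) - (p' : ℤ) : ℤ) * m) := by
  have h1 : ((‖∑ p ∈ P', ee ((m : ℝ) * p * z)‖ ^ 2 : ℝ) : ℂ) =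
      (∑ p ∈ P', ee ((m : ℝ) * p * z)) * (starRingEnd ℂ) (∑ p ∈ P', ee ((m : ℝ) * p * z)) := by
    rw [Complex.mul_conj, Complex.normSq_eq_norm_sq]
  rw [h1, map_sum, Finset.sum_mul_sum]
  refine Finset.sum_congr rfl fun i _ => Finset.sum_congr rfl fun j _ => ?_
  rw [← ee_neg, ← ee_add]
  congr 1
  push_cast
  ring

theorem bilinear (P P' : Finset ℕ) (V Q : ℕ) (z : ℝ) (w : ℕ → ℂ) (hw : ∀ p, ‖w p‖ ≤ 1) (hP : ∀ p ∈ P, p ≤ V)
    (hP' : ∀ p ∈ P', p ≤ V) (hQ : 1 ≤ Q) (hQV : Q ≤ 2 * V + 1)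
    (hz : ∀ q : ℕ, 1 ≤ q → q < Q → (Q : ℝ) / (2 * V + 1) ≤ dz (z * q)) :
    ‖∑ p ∈ P, w p * ∑ p' ∈ P', ee ((p : ℝ) * p' * z)‖ ^ 2 ≤
      P.card * P'.card * (4 * (2 * (V : ℝ) + 1) ^ 2 / Q) := by
  have hQ0 : (0 : ℝ) < Q := by exact_mod_cast hQ
  have h1 : ‖∑ p ∈ P, w p * ∑ p' ∈ P', ee ((p : ℝ) * p' * z)‖ ^ 2 ≤
      P.card * ∑ p ∈ P, ‖∑ p' ∈ P', ee ((p : ℝ) * p' * z)‖ ^ 2 := by
    refine le_trans ?_ (sq_sum_le_card_mul_sum_sq (s := P) (f := fun p : ℕ => ‖∑ p' ∈ P', ee ((p : ℝ) * p' * z)‖))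
    gcongr
    refine (norm_sum_le _ _).trans (Finset.sum_le_sum fun p _ => ?_)
    rw [norm_mul]
    exact mul_le_of_le_one_left (norm_nonneg _) (hw p)
  refine h1.trans ?_
  rw [mul_assoc]
  refine mul_le_mul_of_nonneg_left ?_ (by positivity)
  have h2 : ∑ p ∈ P, ‖∑ p' ∈ P', ee ((p : ℝ) * p' * z)‖ ^ 2 ≤
      ∑ m ∈ range (V + 1), ‖∑ p' ∈ P', ee ((m : ℝ) * p' * z)‖ ^ 2 := by
    refine Finset.sum_le_sum_of_subset_of_nonneg (fun p hp => ?_) fun _ _ _ => by positivity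
    rw [Finset.mem_range]
    have := hP p hp
    omega
  refine h2.trans ?_
  have h3 : ((∑ m ∈ range (V + 1), ‖∑ p' ∈ P', ee ((m : ℝ) * p' * z)‖ ^ 2 : ℝ) : ℂ) =
      ∑ p ∈ P', ∑ p' ∈ P', gs (V + 1) (z * ((p : ℤ) - (p' : ℤ) : ℤ)) := by
    push_cast
    have h4 : ∀ m ∈ range (V + 1), ((‖∑ p' ∈ P', ee ((m : ℝ) * p' * z)‖ : ℂ)) ^ 2 =
        ∑ p ∈ P', ∑ p' ∈ P', ee (z * ((p : ℤ) - (p' : ℤ) : ℤ) * m) := by
      intro m _
      rw [← sq_expand]
      push_cast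
      rfl
    rw [Finset.sum_congr rfl h4, Finset.sum_comm]
    refine Finset.sum_congr rfl fun p _ => ?_
    rw [Finset.sum_comm]
    refine Finset.sum_congr rfl fun p' _ => ?_
    unfold gs
    push_cast
    rfl
  have h5 : ∑ m ∈ range (V + 1), ‖∑ p' ∈ P', ee ((m : ℝ) * p' * z)‖ ^ 2 ≤
      ∑ p ∈ P', ∑ p' ∈ P', mn V (z * ((p : ℤ) - (p' : ℤ) : ℤ)) := by
    have h6 : ∑ m ∈ range (V + 1), ‖∑ p' ∈ P', ee ((m : ℝ) * p' * z)‖ ^ 2 =
        ‖((∑ m ∈ range (V + 1), ‖∑ p' ∈ P', ee ((m : ℝ) * p' * z)‖ ^ 2 : ℝ) : ℂ)‖ := by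
      rw [Complex.norm_real, Real.norm_of_nonneg (Finset.sum_nonneg fun _ _ => by positivity)]
    rw [h6, h3]
    refine (norm_sum_le _ _).trans (Finset.sum_le_sum fun p _ => ?_)
    refine (norm_sum_le _ _).trans (Finset.sum_le_sum fun p' _ => ?_)
    exact gs_le_mn V _
  refine h5.trans ?_
  have h7 : ∀ p ∈ P', ∑ p' ∈ P', mn V (z * ((p : ℤ) - (p' : ℤ) : ℤ)) ≤ 4 * (2 * (V : ℝ) + 1) ^ 2 / Q := by
    intro p hp
    refine le_trans ?_ (sum_blocks V Q z (Q / (2 * V + 1)) hQ (by positivity) hz hQV (by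
      rw [div_div_eq_mul_div, mul_comm, mul_div_assoc, div_self hQ0.ne', mul_one]))
    rw [← Finset.sum_image (s := P') (g := fun p' : ℕ => (p : ℤ) - (p' : ℤ)) (f := fun u : ℤ => mn V (z * u))]
    · refine Finset.sum_le_sum_of_subset_of_nonneg ?_ fun _ _ _ => mn_nonneg _ _
      intro u hu
      rw [Finset.mem_image] at hu
      obtain ⟨p', hp', rfl⟩ := hu
      rw [Finset.mem_Icc]
      have h8 := hP' p hp
      have h9 := hP' p' hp'
      constructor <;> omega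
    · intro a _ b _ hab
      simp only at hab
      omega
  refine (Finset.sum_le_sum h7).trans (le_of_eq ?_)
  rw [Finset.sum_const, nsmul_eq_mul]

/-- few primes `p` for which `w p` is very close to an integer which is not divisible by `p` -/
theorem few_primes (A : Finset ℕ) (M : ℕ) (w ρ R : ℝ) (hρ : 0 < ρ) (hR : 4 * ρ ^ 2 * M ^ 2 ≤ R)
    (hA : ∀ p ∈ A, p.Prime ∧ p ≤ M) (hw : ∀ p ∈ A, ∃ a : ℤ, ¬ (p : ℤ) ∣ a ∧ |w * p - a| < ρ) :
    (A.card : ℝ) ≤ R + 3 := by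
  classical
  choose! a ha1 ha2 using hw
  -- the fractions are separated
  have hsep : ∀ p ∈ A, ∀ q ∈ A, p ≠ q → 1 / ((p : ℝ) * q) ≤ |(a p : ℝ) / p - (a q : ℝ) / q| := by
    intro p hp q hq hpq
    have hp0 : (0 : ℝ) < p := by exact_mod_cast (hA p hp).1.pos
    have hq0 : (0 : ℝ) < q := by exact_mod_cast (hA q hq).1.pos
    have h1 : (a p : ℝ) / p - (a q : ℝ) / q = ((a p * q - a q * p : ℤ) : ℝ) / (p * q) := by
      push_cast
      field_simp
    have h2 : a p * q - a q * p ≠ 0 := by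
      intro h3
      have h4 : (p : ℤ) ∣ a p * q := ⟨a q, by linarith⟩
      have h5 := Int.Prime.dvd_mul' (hA p hp).1 h4
      rcases h5 with h6 | h6
      · exact ha1 p hp h6
      · have h7 : p ∣ q := by exact_mod_cast h6
        exact hpq ((Nat.prime_dvd_prime_iff_eq (hA p hp).1 (hA q hq).1).1 h7)
    rw [h1, abs_div, abs_of_pos (mul_pos hp0 hq0)]
    refine div_le_div_of_nonneg_right ?_ (by positivity)
    exact_mod_cast Int.one_le_abs h2
  have hclose : ∀ p ∈ A, |w - (a p : ℝ) / p| < ρ / p := by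
    intro p hp
    have hp0 : (0 : ℝ) < p := by exact_mod_cast (hA p hp).1.pos
    have h1 : w - (a p : ℝ) / p = (w * p - a p) / p := by field_simp
    rw [h1, abs_div, abs_of_pos hp0]
    exact div_lt_div_of_pos_right (ha2 p hp) hp0
  have hsum : ∀ p ∈ A, ∀ q ∈ A, p ≠ q → 1 < ρ * ((p : ℝ) + q) := by
    intro p hp q hq hpq
    have hp0 : (0 : ℝ) < p := by exact_mod_cast (hA p hp).1.pos
    have hq0 : (0 : ℝ) < q := by exact_mod_cast (hA q hq).1.pos
    have h1 := hsep p hp q hq hpq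
    have h2 : |(a p : ℝ) / p - (a q : ℝ) / q| < ρ / p + ρ / q := by
      have h3 := hclose p hp
      have h4 := hclose q hq
      rw [abs_lt] at h3 h4 ⊢
      constructor <;> linarith [h3.1, h3.2, h4.1, h4.2]
    have h3 := h1.trans_lt h2
    rw [div_add_div _ _ hp0.ne' hq0.ne', div_lt_div_iff_of_pos_right (by positivity)] at h3
    linarith
  -- the small primes
  obtain ⟨A1, hA1⟩ : ∃ A1, A1 = A.filter fun p : ℕ => ρ * (2 * (p : ℝ)) ≤ 1 := ⟨_, rfl⟩
  obtain ⟨A2, hA2⟩ : ∃ A2, A2 = A.filter fun p : ℕ => ¬ ρ * (2 * (p : ℝ)) ≤ 1 := ⟨_, rfl⟩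
  have hcard : A.card = A1.card + A2.card := by
    rw [hA1, hA2]
    exact (Finset.card_filter_add_card_filter_not _).symm
  have h1 : A1.card ≤ 1 := by
    rw [Finset.card_le_one]
    intro p hp q hq
    by_contra hpq
    rw [hA1, Finset.mem_filter] at hp hq
    have h2 := hsum p hp.1 q hq.1 hpq
    nlinarith [hp.2, hq.2]
  have h2 : (A2.card : ℝ) ≤ R + 2 := by
    obtain ⟨lo, hlo⟩ : ∃ lo : ℤ, lo = ⌊(w - 2 * ρ ^ 2) * M ^ 2⌋ := ⟨_, rfl⟩
    obtain ⟨hi, hhi⟩ : ∃ hi : ℤ, hi = ⌊(w + 2 * ρ ^ 2) * M ^ 2⌋ := ⟨_, rfl⟩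
    have h3 : A2.card ≤ (Finset.Icc lo hi).card := by
      refine Finset.card_le_card_of_injOn (fun p => ⌊(a p : ℝ) / p * M ^ 2⌋) (fun p hp => ?_) ?_
      · have hp' : p ∈ A2 := hp
        rw [hA2, Finset.mem_filter] at hp'
        have hp0 : (0 : ℝ) < p := by exact_mod_cast (hA p hp'.1).1.pos
        have h4 := hclose p hp'.1
        have h5 : ρ / p ≤ 2 * ρ ^ 2 := by
          rw [div_le_iff₀ hp0]
          have := hp'.2
          push Not at this
          nlinarith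
        rw [abs_lt] at h4
        rw [Finset.mem_coe, Finset.mem_Icc, hlo, hhi]
        constructor
        · refine Int.floor_le_floor ?_
          refine mul_le_mul_of_nonneg_right ?_ (by positivity)
          linarith [h4.1, h4.2]
        · refine Int.floor_le_floor ?_
          refine mul_le_mul_of_nonneg_right ?_ (by positivity)
          linarith [h4.1, h4.2]
      · intro p hp q hq hpq
        by_contra hne
        have hp' : p ∈ A2 := hp
        have hq' : q ∈ A2 := hq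
        rw [hA2, Finset.mem_filter] at hp' hq'
        have hp0 : (0 : ℝ) < p := by exact_mod_cast (hA p hp'.1).1.pos
        have hq0 : (0 : ℝ) < q := by exact_mod_cast (hA q hq'.1).1.pos
        have h4 := hsep p hp'.1 q hq'.1 hne
        simp only at hpq
        have h5 : |(a p : ℝ) / p * M ^ 2 - (a q : ℝ) / q * M ^ 2| < 1 := Int.abs_sub_lt_one_of_floor_eq_floor hpq
        rw [← sub_mul, abs_mul, abs_of_nonneg (by positivity : (0 : ℝ) ≤ (M : ℝ) ^ 2)] at h5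
        have h6 : (p : ℝ) * q ≤ (M : ℝ) ^ 2 := by
          have h7 : (p : ℝ) ≤ M := by exact_mod_cast (hA p hp'.1).2
          have h8 : (q : ℝ) ≤ M := by exact_mod_cast (hA q hq'.1).2
          rw [sq]
          exact mul_le_mul h7 h8 hq0.le (by linarith)
        have h7 : 1 ≤ 1 / ((p : ℝ) * q) * (M : ℝ) ^ 2 := by
          rw [one_div_mul_eq_div, le_div_iff₀ (mul_pos hp0 hq0)]
          linarith
        have h8 : 1 / ((p : ℝ) * q) * (M : ℝ) ^ 2 ≤ |(a p : ℝ) / p - (a q : ℝ) / q| * (M : ℝ) ^ 2 :=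
          mul_le_mul_of_nonneg_right h4 (by positivity)
        linarith
    have h4 : ((Finset.Icc lo hi).card : ℝ) ≤ R + 2 := by
      rw [Int.card_Icc]
      have h5 : lo ≤ hi := by
        rw [hlo, hhi]
        refine Int.floor_le_floor ?_
        refine mul_le_mul_of_nonneg_right ?_ (by positivity)
        nlinarith [sq_nonneg ρ]
      have h6 : (((hi + 1 - lo).toNat : ℕ) : ℝ) = (hi : ℝ) + 1 - lo := by
        have : (((hi + 1 - lo).toNat : ℕ) : ℤ) = hi + 1 - lo := Int.toNat_of_nonneg (by omega)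
        exact_mod_cast this
      rw [h6]
      have h7 : (hi : ℝ) ≤ (w + 2 * ρ ^ 2) * M ^ 2 := by
        rw [hhi]
        exact Int.floor_le _
      have h8 : (w - 2 * ρ ^ 2) * M ^ 2 < lo + 1 := by
        rw [hlo]
        exact Int.lt_floor_add_one _
      nlinarith
    exact (by exact_mod_cast h3 : (A2.card : ℝ) ≤ ((Finset.Icc lo hi).card : ℝ)).trans h4
  have h3 : ((A1.card : ℕ) : ℝ) ≤ 1 := by exact_mod_cast h1
  rw [hcard]
  push_cast
  linarith

end Run7.h683.MR
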