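import Pool.Agent.Run7.h683.MR.B

/-!
# Random products: the product is rarely close to a rational number with a small denominator
-/

set_option autoImplicit false

namespace Run7.h683.MR

open Finset Run7.h683.AB
open Pool.Agent.Y957.VK (dz mn)

/-- the product of the first `n` coordinates -/
def PP (v : ℕ → ℕ) (n : ℕ) : ℕ := ∏ k ∈ range n, v k

theorem PP_zero (v : ℕ → ℕ) : PP v 0 = 1 := by
  unfold PP
  simp

theorem PP_succ (v : ℕ → ℕ) (n : ℕ) : PP v (n + 1) = PP v n * v n := by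
  unfold PP
  rw [Finset.prod_range_succ]

theorem PP_dep (n : ℕ) : Dep n (fun v => PP v n) := by
  intro v w h
  simp only [PP]
  exact Finset.prod_congr rfl fun k hk => h k (Finset.mem_range.1 hk)

theorem PP_update (v : ℕ → ℕ) (n p : ℕ) {i : ℕ} (hi : i ≤ n) : PP (Function.update v n p) i = PP v i :=
  (PP_dep i).update hi v p

theorem PP_pos {v : ℕ → ℕ} {n : ℕ} (h : ∀ k < n, 1 ≤ v k) : 1 ≤ PP v n := by
  unfold PP
  exact Finset.one_le_prod' fun k hk => h k (Finset.mem_range.1 hk)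

theorem PP_le {v w : ℕ → ℕ} {n : ℕ} (h : ∀ k < n, v k ≤ w k) : PP v n ≤ PP w n := by
  unfold PP
  exact Finset.prod_le_prod' fun k hk => h k (Finset.mem_range.1 hk)

/-- going down from the place `n` to the place `j` -/
theorem descend (v : ℕ → ℕ) (x : ℝ) (j : ℕ) : ∀ n : ℕ, j ≤ n → (∀ k < n, 2 ≤ v k) → ∀ ρ : ℝ, 0 < ρ →
    ∀ a : ℤ, |x * PP v n - a| < ρ →
    (∃ i, j ≤ i ∧ i < n ∧ ∃ a' : ℤ, ¬ (v i : ℤ) ∣ a' ∧ |x * PP v i * v i - a'| < ρ) ∨
      ∃ a' : ℤ, |x * PP v j - a'| < ρ * (1 / 2) ^ (n - j) := by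
  intro n hjn
  induction n, hjn using Nat.le_induction with
  | base =>
    intro _ ρ _ a ha
    right
    refine ⟨a, ?_⟩
    rw [Nat.sub_self, pow_zero, mul_one]
    exact ha
  | succ n hjn ih =>
    intro hv ρ hρ a ha
    by_cases hd : (v n : ℤ) ∣ a
    · obtain ⟨b, rfl⟩ := hd
      have hv2 : (2 : ℝ) ≤ v n := by exact_mod_cast hv n (by omega)
      have h1 : |x * PP v n - b| < ρ / 2 := by
        have h2 : x * PP v (n + 1) - ((v n * b : ℤ) : ℝ) = (x * PP v n - b) * v n := by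
          rw [PP_succ]
          push_cast
          ring
        rw [h2, abs_mul, abs_of_pos (by linarith : (0 : ℝ) < v n)] at ha
        have h3 : 0 ≤ |x * PP v n - b| := abs_nonneg _
        nlinarith
      rcases ih (fun k hk => hv k (by omega)) (ρ / 2) (by linarith) b h1 with ⟨i, h2, h3, a', h4, h5⟩ | ⟨a', h2⟩
      · exact Or.inl ⟨i, h2, by omega, a', h4, h5.trans (by linarith)⟩
      · right
        refine ⟨a', h2.trans_eq ?_⟩
        rw [Nat.succ_sub hjn, pow_succ]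
        ring
    · left
      refine ⟨n, hjn, by omega, a, hd, ?_⟩
      have h2 : x * PP v n * v n = x * PP v (n + 1) := by
        rw [PP_succ]
        push_cast
        ring
      rw [h2]
      exact ha

/-- the product is close to a rational number with a small denominator -/
def Bad (Q : ℕ) (ρ y : ℝ) (n : ℕ) (v : ℕ → ℕ) : Prop := ∃ q : ℕ, 1 ≤ q ∧ q < Q ∧ dz (y * PP v n * q) < ρ

theorem Bad_dep (Q : ℕ) (ρ y : ℝ) (n : ℕ) : Dep n (Bad Q ρ y n) := by
  intro v w h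
  have h1 : PP v n = PP w n := PP_dep n v w h
  unfold Bad
  rw [h1]

/-- the last step -/
def Hit (ρ x : ℝ) (i : ℕ) (v : ℕ → ℕ) : Prop := ∃ a : ℤ, ¬ (v i : ℤ) ∣ a ∧ |x * PP v i * v i - a| < ρ

theorem Hit_dep (ρ x : ℝ) (i : ℕ) : Dep (i + 1) (Hit ρ x i) := by
  intro v w h
  unfold Hit
  have h1 : PP v i = PP w i := PP_dep i v w fun k hk => h k (by omega)
  rw [h i (by omega), h1]

variable {S : ℕ → Finset ℕ}

theorem prob_hit (hS : ∀ k, (S k).Nonempty) (ρ x : ℝ) (i V Q : ℕ) (hQ : 1 ≤ Q)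
    (hp : ∀ p ∈ S i, p.Prime ∧ p ≤ V) (hρ : ρ = (Q : ℝ) / (2 * V + 1)) (N : ℕ) (hN : i < N) :
    avg S N (ind (Hit ρ x i)) ≤ 4 * (Q : ℝ) ^ 2 / (S i).card := by
  classical
  have hQ0 : (1 : ℝ) ≤ Q := by exact_mod_cast hQ
  have hV0 : (0 : ℝ) < 2 * V + 1 := by positivity
  have hρ0 : 0 < ρ := by
    rw [hρ]
    positivity
  rw [avg_dep' hS (Nat.succ_le_of_lt hN) _ (ind_dep (Hit_dep ρ x i)), Nat.succ_eq_add_one, avg_succ]
  refine (avg_mono i _ (fun _ => 4 * (Q : ℝ) ^ 2 / (S i).card) fun v _ => ?_).trans (avg_const hS _ _).le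
  refine div_le_div_of_nonneg_right ?_ (by positivity)
  obtain ⟨A, hA⟩ : ∃ A, A = (S i).filter fun p => Hit ρ x i (Function.update v i p) := ⟨_, rfl⟩
  have h1 : ∑ p ∈ S i, ind (Hit ρ x i) (Function.update v i p) = A.card := by
    rw [hA, Finset.card_filter]
    push_cast
    refine Finset.sum_congr rfl fun p _ => ?_
    unfold ind
    split_ifs <;> rfl
  rw [h1]
  have h2 := few_primes A V (x * PP v i) ρ ((Q : ℝ) ^ 2) hρ0 (by
    have h3 : ρ * (2 * V + 1) = Q := by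
      rw [hρ]
      field_simp
    have h4 : 2 * (ρ * V) ≤ Q := by nlinarith
    have h5 : 0 ≤ ρ * V := by positivity
    calc 4 * ρ ^ 2 * (V : ℝ) ^ 2 = (2 * (ρ * V)) ^ 2 := by ring
      _ ≤ (Q : ℝ) ^ 2 := by gcongr) (fun p hpA => by
    rw [hA, Finset.mem_filter] at hpA
    exact hp p hpA.1) (fun p hpA => by
    rw [hA, Finset.mem_filter] at hpA
    obtain ⟨a, ha1, ha2⟩ := hpA.2
    rw [Function.update_self] at ha1 ha2
    rw [PP_update v i p le_rfl] at ha2
    exact ⟨a, ha1, ha2⟩)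
  nlinarith

/-- the probability that the product is close to a rational number with a small denominator -/
theorem prob_bad (hS : ∀ k, (S k).Nonempty) (y ρ : ℝ) (j n V Q : ℕ) (hQ : 1 ≤ Q) (hjn : j ≤ n)
    (hp : ∀ i < n, ∀ p ∈ S i, p.Prime ∧ p ≤ V) (hρ : ρ = (Q : ℝ) / (2 * V + 1))
    (hgood : ∀ v : ℕ → ℕ, (∀ k < n, v k ∈ S k) → ∀ q : ℕ, 1 ≤ q → q < Q →
      ρ * (1 / 2) ^ (n - j) ≤ dz (y * PP v j * q)) (N : ℕ) (hN : n ≤ N) :
    avg S N (ind (Bad Q ρ y n)) ≤ ∑ i ∈ Finset.Ico j n, 4 * (Q : ℝ) ^ 3 / (S i).card := by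
  have hV0 : (0 : ℝ) < 2 * V + 1 := by positivity
  have hQ0 : (1 : ℝ) ≤ Q := by exact_mod_cast hQ
  have hρ0 : 0 < ρ := by
    rw [hρ]
    positivity
  have h1 : avg S n (ind (Bad Q ρ y n)) ≤
      avg S n (fun v => ∑ i ∈ Finset.Ico j n, ∑ q ∈ Finset.range Q, ind (Hit ρ ((q : ℝ) * y) i) v) := by
    refine avg_mono n _ _ fun v hv => ?_
    by_cases hb : Bad Q ρ y n v
    · rw [ind_true hb]
      obtain ⟨q, hq1, hq2, hq3⟩ := hb
      have h2 : |(q : ℝ) * y * PP v n - (round (y * PP v n * q) : ℤ)| < ρ := by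
        have h3 : (q : ℝ) * y * PP v n = y * PP v n * q := by ring
        rw [h3]
        exact hq3
      rcases descend v ((q : ℝ) * y) j n hjn (fun k hk => (hp k hk _ (hv k hk)).1.two_le) ρ hρ0 _ h2 with
        ⟨i, h3, h4, a, h5, h6⟩ | ⟨a, h3⟩
      · have h7 : (1 : ℝ) = ind (Hit ρ ((q : ℝ) * y) i) v := (ind_true ⟨a, h5, h6⟩).symm
        rw [h7]
        refine le_trans ?_ (Finset.single_le_sum (f := fun i => ∑ q ∈ Finset.range Q, ind (Hit ρ ((q : ℝ) * y) i) v)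
          (fun i _ => Finset.sum_nonneg fun q _ => ind_nonneg _ _) (Finset.mem_Ico.2 ⟨h3, h4⟩))
        exact Finset.single_le_sum (f := fun q : ℕ => ind (Hit ρ ((q : ℝ) * y) i) v)
          (fun q _ => ind_nonneg _ _) (Finset.mem_range.2 hq2)
      · exfalso
        have h4 := hgood v hv q hq1 hq2
        have h5 := dz_le_int (y * PP v j * q) a
        have h6 : y * PP v j * q = (q : ℝ) * y * PP v j := by ring
        rw [h6] at h5 h4
        linarith
    · rw [ind_false hb]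
      exact Finset.sum_nonneg fun i _ => Finset.sum_nonneg fun q _ => ind_nonneg _ _
  rw [avg_dep' hS hN _ (ind_dep (Bad_dep Q ρ y n))]
  refine h1.trans ?_
  rw [avg_sum]
  refine Finset.sum_le_sum fun i hi => ?_
  rw [Finset.mem_Ico] at hi
  rw [avg_sum]
  refine (Finset.sum_le_sum (g := fun _ => 4 * (Q : ℝ) ^ 2 / (S i).card) fun (q : ℕ) _ =>
    prob_hit hS ρ ((q : ℝ) * y) i V Q hQ (hp i hi.2) hρ n hi.2).trans (le_of_eq ?_)
  rw [Finset.sum_const, Finset.card_range, nsmul_eq_mul]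
  ring

end Run7.h683.MR
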