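import Pool.Agent.Run7.h683.MR.C

/-!
# Random products: the second moment of the exponential sum
-/

set_option autoImplicit false

namespace Run7.h683.MR

open Finset Run7.h683.AB
open Pool.Agent.Y957.VK (dz mn)
open scoped ComplexConjugate

variable {S : ℕ → Finset ℕ}

/-- the terms of the exponential sum -/
noncomputable def EE (y : ℝ) (L : ℕ) (G : ℕ → (ℕ → ℕ) → ℝ) (n : ℕ) (v : ℕ → ℕ) : ℂ :=
  ee (G n v + y * PP v (n + L))

theorem norm_EE (y : ℝ) (L : ℕ) (G : ℕ → (ℕ → ℕ) → ℝ) (n : ℕ) (v : ℕ → ℕ) : ‖EE y L G n v‖ = 1 := norm_ee _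

/-- the exponential sum -/
noncomputable def SS (y : ℝ) (L : ℕ) (G : ℕ → (ℕ → ℕ) → ℝ) (N : ℕ) (v : ℕ → ℕ) : ℂ := ∑ n ∈ range N, EE y L G n v

/-- `G n` depends on the first `n + L - 1` coordinates only -/
def Past (L : ℕ) (G : ℕ → (ℕ → ℕ) → ℝ) : Prop := ∀ n, Dep (n + L - 1) (G n)

theorem EE_dep {y : ℝ} {L : ℕ} {G : ℕ → (ℕ → ℕ) → ℝ} (hG : Past L G) (n : ℕ) : Dep (n + L) (EE y L G n) := by
  intro v w h
  unfold EE
  have h1 : G n v = G n w := hG n v w fun k hk => h k (by omega)
  have h2 : PP v (n + L) = PP w (n + L) := PP_dep (n + L) v w h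
  rw [h1, h2]

/-- the correlation of two terms -/
noncomputable def cc (y : ℝ) (L : ℕ) (G : ℕ → (ℕ → ℕ) → ℝ) (n m : ℕ) (v : ℕ → ℕ) : ℝ :=
  (EE y L G n v * conj (EE y L G m v)).re

theorem cc_dep {y : ℝ} {L : ℕ} {G : ℕ → (ℕ → ℕ) → ℝ} (hG : Past L G) {n m : ℕ} (h : m ≤ n) :
    Dep (n + L) (cc y L G n m) := by
  intro v w hvw
  unfold cc
  rw [EE_dep hG n v w hvw, EE_dep hG m v w fun k hk => hvw k (by omega)]

theorem cc_symm (y : ℝ) (L : ℕ) (G : ℕ → (ℕ → ℕ) → ℝ) (n m : ℕ) (v : ℕ → ℕ) : cc y L G n m v = cc y L G m n v := by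
  unfold cc
  rw [← Complex.conj_re, map_mul, Complex.conj_conj, mul_comm]

theorem cc_le (y : ℝ) (L : ℕ) (G : ℕ → (ℕ → ℕ) → ℝ) (n m : ℕ) (v : ℕ → ℕ) : cc y L G n m v ≤ 1 := by
  unfold cc
  refine (Complex.re_le_norm _).trans ?_
  rw [norm_mul, Complex.norm_conj, norm_EE, norm_EE, mul_one]

theorem pair_le (hS : ∀ k, (S k).Nonempty) (y : ℝ) (L : ℕ) (G : ℕ → (ℕ → ℕ) → ℝ) (hG : Past L G)
    (n k m N V Q : ℕ) (hnk : n + L = k + 2) (hk : k + 2 ≤ N) (hm : m + 2 ≤ n) (hQ : 1 ≤ Q)
    (hQV : Q ≤ 2 * V + 1) (hp : ∀ p ∈ S k, p ≤ V) (hp' : ∀ p ∈ S (k + 1), p ≤ V) (β : ℝ) (hβ0 : 0 ≤ β)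
    (hβ : 4 * (2 * (V : ℝ) + 1) ^ 2 ≤ β ^ 2 * (Q * ((S k).card * (S (k + 1)).card))) :
    avg S N (cc y L G n m) ≤ β + avg S N (ind (Bad Q ((Q : ℝ) / (2 * V + 1)) y k)) := by
  have hQ0 : (0 : ℝ) < Q := by exact_mod_cast hQ
  have ha0 : (0 : ℝ) < (S k).card := by exact_mod_cast (hS k).card_pos
  have hb0 : (0 : ℝ) < (S (k + 1)).card := by exact_mod_cast (hS (k + 1)).card_pos
  have hdep : Dep (k + 2) (cc y L G n m) := by
    have := cc_dep (y := y) hG (by omega : m ≤ n)
    rwa [hnk] at this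
  rw [avg_dep' hS hk _ hdep,
    avg_dep' hS (by omega : k ≤ N) _ (ind_dep (Bad_dep Q _ y k)), avg_succ, avg_succ]
  have h1 : avg S k (fun v => β + ind (Bad Q ((Q : ℝ) / (2 * V + 1)) y k) v) =
      β + avg S k (ind (Bad Q ((Q : ℝ) / (2 * V + 1)) y k)) := by
    rw [avg_add, avg_const hS]
  rw [← h1]
  refine avg_mono k _ _ fun v _ => ?_
  obtain ⟨z, hz⟩ : ∃ z : ℝ, z = y * PP v k := ⟨_, rfl⟩
  obtain ⟨w, hw⟩ : ∃ w : ℕ → ℂ, w = fun p => ee (G n (Function.update v k p)) := ⟨_, rfl⟩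
  have hw1 : ∀ p, ‖w p‖ ≤ 1 := by
    intro p
    rw [hw]
    exact (norm_ee _).le
  obtain ⟨W, hW⟩ : ∃ W : ℂ, W = ∑ p ∈ S k, w p * ∑ p' ∈ S (k + 1), ee ((p : ℝ) * p' * z) := ⟨_, rfl⟩
  have h2 : (∑ p ∈ S k, (∑ p' ∈ S (k + 1), cc y L G n m (Function.update (Function.update v k p) (k + 1) p')) /
      (S (k + 1)).card) / (S k).card = (W * conj (EE y L G m v)).re / ((S k).card * (S (k + 1)).card) := by
    have h3 : ∀ p p' : ℕ, cc y L G n m (Function.update (Function.update v k p) (k + 1) p') =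
        (w p * ee ((p : ℝ) * p' * z) * conj (EE y L G m v)).re := by
      intro p p'
      unfold cc
      have h4 : PP (Function.update (Function.update v k p) (k + 1) p') (n + L) = PP v k * p * p' := by
        rw [hnk, PP_succ, PP_succ, Function.update_self, PP_update _ _ _ (by omega), PP_update _ _ _ le_rfl,
          Function.update_of_ne (by omega), Function.update_self]
      have h5 : EE y L G m (Function.update (Function.update v k p) (k + 1) p') = EE y L G m v := by
        refine EE_dep hG m _ _ fun i hi => ?_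
        rw [Function.update_of_ne (by omega), Function.update_of_ne (by omega)]
      have h6 : G n (Function.update (Function.update v k p) (k + 1) p') = G n (Function.update v k p) := by
        refine hG n _ _ fun i hi => ?_
        rw [Function.update_of_ne (by omega)]
      rw [h5]
      congr 2
      unfold EE
      rw [h4, h6, hw, hz, ee_add]
      congr 2
      push_cast
      ring
    have h6 : (W * conj (EE y L G m v)).re =
        ∑ p ∈ S k, ∑ p' ∈ S (k + 1), (w p * ee ((p : ℝ) * p' * z) * conj (EE y L G m v)).re := by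
      rw [hW, Finset.sum_mul, Complex.re_sum]
      refine Finset.sum_congr rfl fun p _ => ?_
      rw [Finset.mul_sum, Finset.sum_mul, Complex.re_sum]
    simp only [h3]
    rw [h6, ← Finset.sum_div, div_div, mul_comm ((S (k + 1)).card : ℝ)]
  rw [h2]
  have h7 : (W * conj (EE y L G m v)).re ≤ ‖W‖ := by
    refine (Complex.re_le_norm _).trans ?_
    rw [norm_mul, Complex.norm_conj, norm_EE, mul_one]
  rw [div_le_iff₀ (by positivity)]
  refine h7.trans ?_
  by_cases hb : Bad Q ((Q : ℝ) / (2 * V + 1)) y k v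
  · rw [ind_true hb]
    have h8 : ‖W‖ ≤ (S k).card * (S (k + 1)).card := by
      rw [hW]
      refine (norm_sum_le _ _).trans ?_
      refine (Finset.sum_le_sum (g := fun _ => ((S (k + 1)).card : ℝ)) fun p _ => ?_).trans (le_of_eq ?_)
      · rw [norm_mul]
        refine (mul_le_of_le_one_left (norm_nonneg _) (hw1 p)).trans ?_
        refine (norm_sum_le _ _).trans ?_
        refine (Finset.sum_le_sum fun p' _ => (norm_ee _).le).trans (le_of_eq ?_)
        rw [Finset.sum_const, nsmul_eq_mul, mul_one]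
      · rw [Finset.sum_const, nsmul_eq_mul]
    refine h8.trans ?_
    have : (0 : ℝ) ≤ (S k).card * (S (k + 1)).card := by positivity
    nlinarith
  · rw [ind_false hb, add_zero]
    unfold Bad at hb
    push Not at hb
    have h8 := bilinear (S k) (S (k + 1)) V Q z w hw1 hp hp' hQ hQV (fun q hq1 hq2 => by
      rw [hz]
      exact hb q hq1 hq2)
    rw [← hW] at h8
    refine le_of_sq_le_sq ?_ (by positivity)
    refine h8.trans ?_
    rw [mul_div_assoc', div_le_iff₀ hQ0]
    have h9 := mul_le_mul_of_nonneg_left hβ (by positivity : (0 : ℝ) ≤ (S k).card * (S (k + 1)).card)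
    nlinarith

theorem second_moment (hS : ∀ k, (S k).Nonempty) (y : ℝ) (L : ℕ) (G : ℕ → (ℕ → ℕ) → ℝ) (N N' : ℕ) (e : ℕ → ℝ)
    (he0 : ∀ k, 0 ≤ e k) (h : ∀ n m, n < N → m + 2 ≤ n → avg S N' (cc y L G n m) ≤ e n) :
    avg S N' (fun v => ‖SS y L G N v‖ ^ 2) ≤ 3 * N + 2 * N * ∑ k ∈ range N, e k := by
  have h1 : ∀ v : ℕ → ℕ, ‖SS y L G N v‖ ^ 2 = ∑ n ∈ range N, ∑ m ∈ range N, cc y L G n m v := by
    intro v
    have h2 : ((‖SS y L G N v‖ ^ 2 : ℝ) : ℂ) =
        ∑ n ∈ range N, ∑ m ∈ range N, EE y L G n v * conj (EE y L G m v) := by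
      have h3 : ((‖SS y L G N v‖ ^ 2 : ℝ) : ℂ) = SS y L G N v * conj (SS y L G N v) := by
        rw [Complex.mul_conj, Complex.normSq_eq_norm_sq]
      rw [h3]
      unfold SS
      rw [map_sum, Finset.sum_mul_sum]
    have h4 := congrArg Complex.re h2
    rw [Complex.ofReal_re] at h4
    rw [h4, Complex.re_sum]
    refine Finset.sum_congr rfl fun n _ => ?_
    rw [Complex.re_sum]
    rfl
  simp only [h1]
  rw [avg_sum]
  have hg : ∀ n < N, ∀ m < N, avg S N' (cc y L G n m) ≤
      (if m = n then 1 else 0) + (if m = n + 1 then 1 else 0) + (if n = m + 1 then 1 else 0) + e n + e m := by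
    intro n hn m hm
    have h2 : avg S N' (cc y L G n m) ≤ 1 := by
      refine (avg_mono N' _ (fun _ => 1) fun v _ => cc_le y L G n m v).trans (avg_const hS _ _).le
    have h3 := he0 n
    have h4 := he0 m
    rcases eq_or_ne m n with h5 | h5
    · rw [if_pos h5]
      split_ifs <;> linarith
    rcases eq_or_ne m (n + 1) with h6 | h6
    · rw [if_neg h5, if_pos h6]
      split_ifs <;> linarith
    rcases eq_or_ne n (m + 1) with h7 | h7
    · rw [if_neg h5, if_neg h6, if_pos h7]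
      linarith
    rw [if_neg h5, if_neg h6, if_neg h7]
    rcases lt_or_ge m n with h8 | h8
    · have h9 := h n m hn (by omega)
      linarith
    · have h9 : avg S N' (cc y L G n m) ≤ e m := by
        refine le_trans (le_of_eq ?_) (h m n hm (by omega))
        congr 1
        funext v
        exact cc_symm y L G n m v
      linarith
  have h2 : ∀ n ∈ range N, avg S N' (fun v => ∑ m ∈ range N, cc y L G n m v) ≤ 3 + N * e n + ∑ m ∈ range N, e m := by
    intro n hn
    rw [Finset.mem_range] at hn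
    rw [avg_sum]
    refine (Finset.sum_le_sum fun m hm => hg n hn m (Finset.mem_range.1 hm)).trans ?_
    rw [Finset.sum_add_distrib, Finset.sum_add_distrib, Finset.sum_add_distrib, Finset.sum_add_distrib]
    have k1 : ∑ m ∈ range N, (if m = n then (1 : ℝ) else 0) ≤ 1 := by
      rw [Finset.sum_ite_eq']
      split_ifs <;> norm_num
    have k2 : ∑ m ∈ range N, (if m = n + 1 then (1 : ℝ) else 0) ≤ 1 := by
      rw [Finset.sum_ite_eq']
      split_ifs <;> norm_num
    have k3 : ∑ m ∈ range N, (if n = m + 1 then (1 : ℝ) else 0) ≤ 1 := by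
      rcases Nat.eq_zero_or_pos n with h3 | h3
      · refine le_trans (le_of_eq ?_) zero_le_one
        refine Finset.sum_eq_zero fun m _ => ?_
        rw [if_neg (by omega)]
      · have h4 : ∀ m : ℕ, (n = m + 1) = (m = n - 1) := by
          intro m
          rw [eq_iff_iff]
          omega
        simp only [h4]
        rw [Finset.sum_ite_eq']
        split_ifs <;> norm_num
    rw [Finset.sum_const, Finset.card_range, nsmul_eq_mul]
    linarith
  refine (Finset.sum_le_sum h2).trans ?_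
  rw [Finset.sum_add_distrib, Finset.sum_add_distrib, ← Finset.mul_sum]
  have hN0 : (0 : ℝ) ≤ N := by positivity
  simp only [Finset.sum_const, Finset.card_range, nsmul_eq_mul]
  nlinarith

end Run7.h683.MR
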