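import Pool.Agent.Run7.h683.AB.W5
import Pool.Agent.Run7.h683.MR.D

/-!
# Random products: the parameters
-/

set_option autoImplicit false

namespace Run7.h683.MR

open Finset Filter Run7.h683.AB
open Pool.Agent.Y957.VK (dz mn)

/-- the sets of primes -/
structure Growth (S : ℕ → Finset ℕ) (M : ℕ → ℕ) (θ Θ : ℝ) : Prop where
  one_lt : 1 < θ
  ne : ∀ k, (S k).Nonempty
  prime : ∀ k, ∀ p ∈ S k, p.Prime ∧ p ≤ M k
  mono : Monotone M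
  low : ∀ᶠ k : ℕ in atTop, (k : ℝ) ^ θ ≤ M (k + 1)
  up : ∀ᶠ k : ℕ in atTop, (M k : ℝ) ≤ (k : ℝ) ^ Θ
  den : ∀ ε : ℝ, 0 < ε → ∀ᶠ k : ℕ in atTop, (M (k + 1) : ℝ) ≤ (k : ℝ) ^ ε * (S k).card ∧
    (M (k + 1) : ℝ) ≤ (k : ℝ) ^ ε * (S (k + 1)).card

theorem evn {P : ℝ → Prop} (h : ∀ᶠ t : ℝ in atTop, P t) : ∀ᶠ n : ℕ in atTop, P n :=
  tendsto_natCast_atTop_atTop.eventually h

/-- the facts about one step -/
theorem step_facts {S : ℕ → Finset ℕ} {M : ℕ → ℕ} {θ Θ : ℝ} (G : Growth S M θ Θ) {c0 ε c1 δ : ℝ} (hc0 : 0 < c0)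
    (hε : 0 < ε) (hc1 : 0 < c1) (hδ : 0 < δ) (hδ1 : δ < 1 / 4) (hc0θ : c0 ≤ θ) (hεθ : ε < θ)
    (h1 : 1 + 3 * c0 - (1 - δ) * (θ - ε) < -c1) (h2 : 2 * ε + 2 * c1 < c0) :
    ∀ᶠ k : ℕ in atTop, ∃ (Q V j : ℕ), 1 ≤ Q ∧ Q ≤ 2 * V + 1 ∧ M (k + 1) ≤ V ∧ j ≤ k ∧
      4 * (2 * (V : ℝ) + 1) ^ 2 ≤ ((k : ℝ) ^ (-c1)) ^ 2 * (Q * ((S k).card * (S (k + 1)).card)) ∧
      ∑ i ∈ Finset.Ico j k, 4 * (Q : ℝ) ^ 3 / (S i).card ≤ (k : ℝ) ^ (-c1) ∧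
      (Q : ℝ) * (M k : ℝ) ^ j ≤ Real.exp ((k : ℝ) ^ (1 - δ / 2)) ∧ (k : ℝ) / 2 ≤ k - j := by
  have e1 : ∀ᶠ k : ℕ in atTop, (1 : ℝ) ≤ k := by
    filter_upwards [eventually_ge_atTop 1] with k hk
    exact_mod_cast hk
  have e2 : ∀ᶠ k : ℕ in atTop, 2 ≤ (k : ℝ) ^ c0 := evn (ev_const hc0 2)
  have e3 : ∀ᶠ k : ℕ in atTop, 72 * (k : ℝ) ^ (2 * ε + 2 * c1) ≤ (k : ℝ) ^ c0 := evn (ev_lt h2 72)
  have e4 : ∀ᶠ k : ℕ in atTop, (4 * 2 ^ (θ - ε)) * (k : ℝ) ^ (1 + 3 * c0 - (1 - δ) * (θ - ε)) ≤ (k : ℝ) ^ (-c1) :=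
    evn (ev_lt h1 _)
  have e5 : ∀ᶠ k : ℕ in atTop, 4 * (k : ℝ) ^ (1 - δ) ≤ (k : ℝ) ^ (1 : ℝ) := evn (ev_lt (by linarith) 4)
  -- the lower bound of the number of primes
  obtain ⟨k1, hk1⟩ := eventually_atTop.1 (G.low.and (G.den ε hε))
  have e6 : ∀ᶠ k : ℕ in atTop, 2 * ((k1 : ℝ) + 1) ≤ (k : ℝ) ^ (1 - δ) := evn (ev_const (by linarith) _)
  -- the logarithm
  have e7 : ∀ᶠ k : ℕ in atTop, (c0 + |Θ|) * (1 / (δ / 4)) * (2 * (k : ℝ) ^ (1 - δ + δ / 4)) ≤ (k : ℝ) ^ (1 - δ / 2) := by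
    have h3 : 1 - δ + δ / 4 < 1 - δ / 2 := by linarith
    filter_upwards [evn (ev_lt h3 ((c0 + |Θ|) * (1 / (δ / 4)) * 2))] with k hk
    calc (c0 + |Θ|) * (1 / (δ / 4)) * (2 * (k : ℝ) ^ (1 - δ + δ / 4)) =
        (c0 + |Θ|) * (1 / (δ / 4)) * 2 * (k : ℝ) ^ (1 - δ + δ / 4) := by ring
      _ ≤ _ := hk
  filter_upwards [e1, e2, e3, e4, e5, e6, e7, G.low, G.up, G.den ε hε] with k g1 g2 g3 g4 g5 g6 g7 g8 g9 g10
  have hk0 : (0 : ℝ) < k := lt_of_lt_of_le zero_lt_one g1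
  obtain ⟨Q, hQ⟩ : ∃ Q : ℕ, Q = ⌊(k : ℝ) ^ c0⌋₊ := ⟨_, rfl⟩
  obtain ⟨V, hV⟩ : ∃ V : ℕ, V = M (k + 1) := ⟨_, rfl⟩
  obtain ⟨j, hj⟩ : ∃ j : ℕ, j = ⌊(k : ℝ) ^ (1 - δ)⌋₊ := ⟨_, rfl⟩
  have hQle : (Q : ℝ) ≤ (k : ℝ) ^ c0 := by
    rw [hQ]
    exact Nat.floor_le (by positivity)
  have hQge : (k : ℝ) ^ c0 / 2 ≤ Q := by
    have := Nat.lt_floor_add_one ((k : ℝ) ^ c0)
    rw [← hQ] at this
    linarith
  have hQ1 : 1 ≤ Q := by
    have : (0 : ℝ) < Q := by linarith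
    have h3 : 0 < Q := by exact_mod_cast this
    omega
  have hQ0 : (0 : ℝ) < Q := by exact_mod_cast hQ1
  have hjle : (j : ℝ) ≤ (k : ℝ) ^ (1 - δ) := by
    rw [hj]
    exact Nat.floor_le (by positivity)
  have hjge : (k : ℝ) ^ (1 - δ) / 2 ≤ j := by
    have := Nat.lt_floor_add_one ((k : ℝ) ^ (1 - δ))
    rw [← hj] at this
    have h3 : (0 : ℝ) ≤ k1 := by positivity
    linarith
  have hjk1 : k1 ≤ j := by
    have : (k1 : ℝ) ≤ j := by linarith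
    exact_mod_cast this
  rw [Real.rpow_one] at g5
  have hjk : (j : ℝ) ≤ k / 4 := by linarith
  have hjk' : j ≤ k := by
    have : (j : ℝ) ≤ k := by linarith
    exact_mod_cast this
  have hV0 : (1 : ℝ) ≤ V := by
    rw [hV]
    refine le_trans ?_ g8
    exact Real.one_le_rpow g1 (by linarith [G.one_lt])
  have hkc0 : (k : ℝ) ^ c0 ≤ V := by
    rw [hV]
    exact (Real.rpow_le_rpow_of_exponent_le g1 hc0θ).trans g8
  refine ⟨Q, V, j, hQ1, ?_, by rw [hV], hjk', ?_, ?_, ?_, ?_⟩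
  · have : (Q : ℝ) ≤ 2 * V + 1 := by linarith
    exact_mod_cast this
  · -- the bilinear bound
    obtain ⟨A, hA⟩ : ∃ A : ℝ, A = (S k).card := ⟨_, rfl⟩
    obtain ⟨B, hB⟩ : ∃ B : ℝ, B = (S (k + 1)).card := ⟨_, rfl⟩
    obtain ⟨E, hE⟩ : ∃ E : ℝ, E = (k : ℝ) ^ ε := ⟨_, rfl⟩
    obtain ⟨F, hF⟩ : ∃ F : ℝ, F = (k : ℝ) ^ c1 := ⟨_, rfl⟩
    have hE0 : 0 < E := by rw [hE]; exact Real.rpow_pos_of_pos hk0 _
    have hF0 : 0 < F := by rw [hF]; exact Real.rpow_pos_of_pos hk0 _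
    rw [← hE, ← hV, ← hA, ← hB] at g10
    rw [← hA, ← hB]
    have hA0 : 0 ≤ A := by rw [hA]; positivity
    have hB0 : 0 ≤ B := by rw [hB]; positivity
    have h3 : (k : ℝ) ^ (2 * ε + 2 * c1) = E ^ 2 * F ^ 2 := by
      rw [hE, hF, ← Real.rpow_natCast, ← Real.rpow_natCast, ← Real.rpow_mul hk0.le, ← Real.rpow_mul hk0.le,
        ← Real.rpow_add hk0]
      congr 1
      push_cast
      ring
    rw [h3] at g3
    have h4 : (k : ℝ) ^ (-c1) = F⁻¹ := by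
      rw [hF, Real.rpow_neg hk0.le]
    rw [h4]
    have h5 : 36 * (E ^ 2 * F ^ 2) ≤ Q := by linarith
    have h6 : (V : ℝ) ^ 2 ≤ E ^ 2 * (A * B) := by
      calc (V : ℝ) ^ 2 = V * V := sq _
        _ ≤ (E * A) * (E * B) := mul_le_mul g10.1 g10.2 (by linarith) (by positivity)
        _ = E ^ 2 * (A * B) := by ring
    calc 4 * (2 * (V : ℝ) + 1) ^ 2 ≤ 4 * (3 * V) ^ 2 := by gcongr; linarith
      _ = 36 * (V : ℝ) ^ 2 := by ring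
      _ ≤ 36 * (E ^ 2 * (A * B)) := by linarith
      _ = F⁻¹ ^ 2 * ((36 * (E ^ 2 * F ^ 2)) * (A * B)) := by field_simp
      _ ≤ F⁻¹ ^ 2 * (Q * (A * B)) := by gcongr
  · -- the probability of the bad event
    obtain ⟨X, hX⟩ : ∃ X : ℝ, X = ((k : ℝ) ^ (1 - δ) / 2) ^ (θ - ε) := ⟨_, rfl⟩
    have hX0 : 0 < X := by rw [hX]; positivity
    have h3 : ∀ i ∈ Finset.Ico j k, 4 * (Q : ℝ) ^ 3 / (S i).card ≤ 4 * (k : ℝ) ^ (3 * c0) / X := by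
      intro i hi
      rw [Finset.mem_Ico] at hi
      obtain ⟨h4, h5, -⟩ := hk1 i (by omega)
      have hi1 : (k : ℝ) ^ (1 - δ) / 2 ≤ i := hjge.trans (by exact_mod_cast hi.1)
      have hi0 : (0 : ℝ) < i := lt_of_lt_of_le (by positivity) hi1
      have h6 : X ≤ (S i).card := by
        have h7 : (i : ℝ) ^ (θ - ε) ≤ (S i).card := by
          rw [Real.rpow_sub hi0, div_le_iff₀ (by positivity), mul_comm]
          exact h4.trans h5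
        refine le_trans ?_ h7
        rw [hX]
        exact Real.rpow_le_rpow (by positivity) hi1 (by linarith)
      have h8 : (Q : ℝ) ^ 3 ≤ (k : ℝ) ^ (3 * c0) := by
        have h9 : (k : ℝ) ^ (3 * c0) = ((k : ℝ) ^ c0) ^ 3 := by
          rw [← Real.rpow_natCast, ← Real.rpow_mul hk0.le]
          congr 1
          push_cast
          ring
        rw [h9]
        gcongr
      exact div_le_div₀ (by positivity) (by linarith) hX0 h6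
    refine (Finset.sum_le_sum h3).trans ?_
    rw [Finset.sum_const, Nat.card_Ico, nsmul_eq_mul]
    have h4 : ((k - j : ℕ) : ℝ) ≤ k := by
      have : k - j ≤ k := Nat.sub_le _ _
      exact_mod_cast this
    have h5 : X = (k : ℝ) ^ ((1 - δ) * (θ - ε)) / 2 ^ (θ - ε) := by
      rw [hX, Real.div_rpow (by positivity) (by norm_num), ← Real.rpow_mul hk0.le]
    calc ((k - j : ℕ) : ℝ) * (4 * (k : ℝ) ^ (3 * c0) / X) ≤ k * (4 * (k : ℝ) ^ (3 * c0) / X) := by gcongr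
      _ = (4 * 2 ^ (θ - ε)) * (k : ℝ) ^ (1 + 3 * c0 - (1 - δ) * (θ - ε)) := by
          rw [h5, Real.rpow_sub hk0, Real.rpow_add hk0, Real.rpow_one]
          field_simp
      _ ≤ _ := g4
  · -- the size
    have h3 : (Q : ℝ) * (M k : ℝ) ^ j ≤ (k : ℝ) ^ (c0 + |Θ| * j) := by
      rw [Real.rpow_add hk0, Real.rpow_mul hk0.le, Real.rpow_natCast]
      have h4 : (M k : ℝ) ≤ (k : ℝ) ^ |Θ| := g9.trans (Real.rpow_le_rpow_of_exponent_le g1 (le_abs_self Θ))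
      gcongr
    refine h3.trans ?_
    rw [Real.rpow_def_of_pos hk0]
    refine Real.exp_le_exp.2 (le_trans ?_ g7)
    have h4 : Real.log k ≤ (k : ℝ) ^ (δ / 4) / (δ / 4) := Real.log_le_rpow_div hk0.le (by linarith)
    have h5 : 0 ≤ Real.log k := Real.log_nonneg g1
    have h6 : c0 + |Θ| * j ≤ (c0 + |Θ|) * (2 * (k : ℝ) ^ (1 - δ)) := by
      have h7 : (1 : ℝ) ≤ (k : ℝ) ^ (1 - δ) := Real.one_le_rpow g1 (by linarith)
      have h8 : 0 ≤ |Θ| := abs_nonneg _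
      nlinarith
    calc Real.log k * (c0 + |Θ| * j) ≤ (k : ℝ) ^ (δ / 4) / (δ / 4) * ((c0 + |Θ|) * (2 * (k : ℝ) ^ (1 - δ))) := by
          have : 0 ≤ c0 + |Θ| * j := by positivity
          exact mul_le_mul h4 h6 this (by positivity)
      _ = (c0 + |Θ|) * (1 / (δ / 4)) * (2 * (k : ℝ) ^ (1 - δ + δ / 4)) := by
          rw [Real.rpow_add hk0]
          ring
  · linarith

end Run7.h683.MR
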