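import Pool.Agent.Run7.h683.MR.E

/-!
# Random products: the second moment, if the number is not too close to rational numbers at the scale `N`
-/

set_option autoImplicit false

namespace Run7.h683.MR

open Finset Filter Run7.h683.AB
open Pool.Agent.Y957.VK (dz mn)

/-- at the scale `N` the number `y` is very close to a rational number: `‖D y‖ < exp (- N ^ b)` for some
`1 ≤ D ≤ exp (N ^ a)` -/
def Near (a b y : ℝ) (N : ℕ) : Prop :=
  ∃ D : ℕ, 1 ≤ D ∧ (D : ℝ) ≤ Real.exp ((N : ℝ) ^ a) ∧ dz (y * D) < Real.exp (-(N : ℝ) ^ b)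

theorem local_moment {S : ℕ → Finset ℕ} {M : ℕ → ℕ} {θ Θ : ℝ} (G : Growth S M θ Θ) :
    ∃ a b c : ℝ, 0 < a ∧ a < b ∧ b < 1 ∧ 0 < c ∧ c < 1 ∧ ∀ L : ℕ, ∀ᶠ N : ℕ in atTop,
      ∀ (y : ℝ) (g : ℕ → (ℕ → ℕ) → ℝ), Past L g → ¬ Near a b y N →
        avg S (N + L) (fun v => ‖SS y L g N v‖ ^ 2) ≤ (N : ℝ) ^ (2 - c) := by
  have hθ := G.one_lt
  obtain ⟨η, hη⟩ : ∃ η : ℝ, η = θ - 1 := ⟨_, rfl⟩
  have hη0 : 0 < η := by linarith
  obtain ⟨δ, hδ⟩ : ∃ δ : ℝ, δ = η / (4 * θ) := ⟨_, rfl⟩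
  have hδθ : δ * θ = η / 4 := by
    rw [hδ]
    field_simp
  have hδ0 : 0 < δ := by
    rw [hδ]
    exact div_pos hη0 (by linarith)
  have hδ1 : δ < 1 / 4 := by nlinarith
  obtain ⟨k2, hk2⟩ := eventually_atTop.1 (step_facts G (c0 := η / 12) (ε := η / 96) (c1 := η / 96) (δ := δ)
    (by linarith) (by linarith) (by linarith) hδ0 hδ1 (by linarith) (by linarith)
    (by nlinarith [mul_pos hδ0 hη0]) (by linarith))
  obtain ⟨c1, hc1⟩ : ∃ c1 : ℝ, c1 = η / 96 := ⟨_, rfl⟩
  rw [← hc1] at hk2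
  have hc10 : 0 < c1 := by rw [hc1]; linarith
  obtain ⟨s, hs⟩ : ∃ s : ℝ, s = 1 - δ / 8 := ⟨_, rfl⟩
  have hs0 : 0 < s := by rw [hs]; linarith
  have hs1 : s < 1 := by rw [hs]; linarith
  obtain ⟨c, hc⟩ : ∃ c : ℝ, c = min (δ / 16) (min (s * c1 / 2) (1 / 2)) := ⟨_, rfl⟩
  have hcpos : 0 < c := by
    rw [hc]
    exact lt_min (by linarith) (lt_min (by positivity) (by norm_num))
  have hc2 : c ≤ δ / 16 := by rw [hc]; exact min_le_left _ _
  have hc3 : c ≤ s * c1 / 2 := by rw [hc]; exact (min_le_right _ _).trans (min_le_left _ _)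
  have hc4 : c ≤ 1 / 2 := by rw [hc]; exact (min_le_right _ _).trans (min_le_right _ _)
  have hsc1 : 0 < s * c1 := by positivity
  refine ⟨1 - 3 * δ / 8, 1 - δ / 4, c, by linarith, by linarith, by linarith, hcpos, by linarith, fun L => ?_⟩
  have e1 : ∀ᶠ N : ℕ in atTop, (1 : ℝ) ≤ N := by
    filter_upwards [eventually_ge_atTop 1] with k hk
    exact_mod_cast hk
  have e2 : ∀ᶠ N : ℕ in atTop, (k2 : ℝ) + 1 ≤ (N : ℝ) ^ s := evn (ev_const hs0 _)
  have e3 : ∀ᶠ N : ℕ in atTop, 4 * (N : ℝ) ^ (1 - δ / 4) ≤ (N : ℝ) ^ s := evn (ev_lt (by rw [hs]; linarith) 4)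
  have e4 : ∀ᶠ N : ℕ in atTop, 9 * (N : ℝ) ^ (1 : ℝ) ≤ (N : ℝ) ^ (2 - c) := evn (ev_lt (by linarith) 9)
  have e5 : ∀ᶠ N : ℕ in atTop, 24 * (N : ℝ) ^ (1 + s) ≤ (N : ℝ) ^ (2 - c) :=
    evn (ev_lt (by rw [hs]; linarith) 24)
  have e7 : ∀ᶠ N : ℕ in atTop, 2 * (N : ℝ) ^ (1 - δ / 2) ≤ (N : ℝ) ^ (1 - 3 * δ / 8) :=
    evn (ev_lt (by linarith) 2)
  have e6 : ∀ᶠ N : ℕ in atTop, 12 * (N : ℝ) ^ (2 - s * c1) ≤ (N : ℝ) ^ (2 - c) :=
    evn (ev_lt (by linarith) 12)
  filter_upwards [e1, e2, e3, e4, e5, e6, e7, eventually_ge_atTop L] with N g1 g2 g3 g4 g5 g6 g7 gL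
  intro y g hg hy
  have hN0 : (0 : ℝ) < N := lt_of_lt_of_le zero_lt_one g1
  obtain ⟨T, hT⟩ : ∃ T : ℝ, T = (N : ℝ) ^ s := ⟨_, rfl⟩
  rw [← hT] at g2 g3
  have hk20 : (0 : ℝ) ≤ k2 := by positivity
  have hT1 : 1 ≤ T := by linarith
  have hT0 : 0 < T := by linarith
  obtain ⟨e, he⟩ : ∃ e : ℕ → ℝ, e = fun n : ℕ => if (n : ℝ) < T + 2 then 1 else 2 * T ^ (-c1) := ⟨_, rfl⟩
  have he0 : ∀ k, 0 ≤ e k := by
    intro k
    rw [he]
    dsimp only
    split_ifs
    · norm_num
    · positivity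
  have hmain := second_moment G.ne y L g N (N + L) e he0 (fun n m hn hmn => by
    rw [he]
    dsimp only
    split_ifs with h0
    · exact (avg_mono (N + L) _ (fun _ => 1) fun v _ => cc_le y L g n m v).trans (avg_const G.ne _ _).le
    · push Not at h0
      obtain ⟨k, hnk⟩ : ∃ k, n + L = k + 2 := ⟨n + L - 2, by omega⟩
      have h1 : T ≤ k := by
        have h2 : n ≤ k + 2 := by omega
        have h3 : (n : ℝ) ≤ k + 2 := by exact_mod_cast h2
        linarith
      have hkk2 : k2 ≤ k := by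
        have : (k2 : ℝ) ≤ k := by linarith
        exact_mod_cast this
      obtain ⟨Q, V, j, hQ1, hQV, hMV, hjk, f1, f2, f3, f4⟩ := hk2 k hkk2
      have hk0 : (0 : ℝ) < k := by linarith
      have hpow : (k : ℝ) ^ (-c1) ≤ T ^ (-c1) := Real.rpow_le_rpow_of_nonpos hT0 h1 (by linarith)
      have hkN : (k : ℝ) ≤ 2 * N := by
        have : k ≤ 2 * N := by omega
        exact_mod_cast this
      have hMmono : ∀ i ≤ k + 1, M i ≤ V := fun i hi => (G.mono hi).trans hMV
      have h2 := pair_le G.ne y L g hg n k m (N + L) V Q hnk (by omega) hmn hQ1 hQV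
        (fun p hp => (G.prime k p hp).2.trans (hMmono k (by omega)))
        (fun p hp => (G.prime (k + 1) p hp).2.trans (hMmono (k + 1) le_rfl)) ((k : ℝ) ^ (-c1))
        (by positivity) f1
      have hQ0 : (0 : ℝ) < Q := by exact_mod_cast hQ1
      have hρ1 : (Q : ℝ) / (2 * V + 1) ≤ 1 := by
        rw [div_le_one (by positivity)]
        exact_mod_cast hQV
      have h3 := prob_bad G.ne y ((Q : ℝ) / (2 * V + 1)) j k V Q hQ1 hjk
        (fun i hi p hp => ⟨(G.prime i p hp).1, (G.prime i p hp).2.trans (hMmono i (by omega))⟩) rfl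
        (fun v hv q hq1 hq2 => by
          -- the number is not close to a rational number
          obtain ⟨D, hD⟩ : ∃ D : ℕ, D = PP v j * q := ⟨_, rfl⟩
          have hPP1 : 1 ≤ PP v j := PP_pos fun i hi => (G.prime i _ (hv i (by omega))).1.one_le
          have hPPM : PP v j ≤ M k ^ j := by
            have h4 : PP v j ≤ PP (fun _ => M k) j :=
              PP_le fun i hi => (G.prime i _ (hv i (by omega))).2.trans (G.mono (by omega))
            unfold PP at h4 ⊢
            rwa [Finset.prod_const, Finset.card_range] at h4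
          have hD1 : 1 ≤ D := by
            rw [hD]
            exact Nat.one_le_iff_ne_zero.2 (by positivity)
          have hD2 : (D : ℝ) ≤ Real.exp ((N : ℝ) ^ (1 - 3 * δ / 8)) := by
            have h4 : (D : ℝ) ≤ Q * (M k : ℝ) ^ j := by
              rw [hD]
              push_cast
              have h5 : (PP v j : ℝ) ≤ (M k : ℝ) ^ j := by exact_mod_cast hPPM
              have h6 : (q : ℝ) ≤ Q := by exact_mod_cast hq2.le
              calc (PP v j : ℝ) * q ≤ (M k : ℝ) ^ j * Q := by gcongr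
                _ = _ := mul_comm _ _
            refine (h4.trans f3).trans (Real.exp_le_exp.2 ?_)
            refine le_trans ?_ g7
            calc (k : ℝ) ^ (1 - δ / 2) ≤ (2 * (N : ℝ)) ^ (1 - δ / 2) := Real.rpow_le_rpow hk0.le hkN (by linarith)
              _ = 2 ^ (1 - δ / 2) * (N : ℝ) ^ (1 - δ / 2) := Real.mul_rpow (by norm_num) hN0.le
              _ ≤ 2 ^ (1 : ℝ) * (N : ℝ) ^ (1 - δ / 2) := by
                  gcongr
                  · norm_num
                  · linarith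
              _ = 2 * (N : ℝ) ^ (1 - δ / 2) := by rw [Real.rpow_one]
          have h4 : Real.exp (-(N : ℝ) ^ (1 - δ / 4)) ≤ dz (y * D) := by
            by_contra hcon
            push Not at hcon
            exact hy ⟨D, hD1, hD2, hcon⟩
          have h5 : y * (PP v j : ℝ) * q = y * D := by
            rw [hD]
            push_cast
            ring
          rw [h5]
          refine le_trans ?_ h4
          have h6 : ((1 : ℝ) / 2) ^ (k - j) = Real.exp (-(Real.log 2 * (k - j : ℕ))) := by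
            rw [one_div, inv_pow, Real.exp_neg, mul_comm, Real.exp_nat_mul, Real.exp_log (by norm_num)]
          have h7 : ((k - j : ℕ) : ℝ) = (k : ℝ) - j := by
            rw [Nat.cast_sub hjk]
          have h8 : (1 : ℝ) / 2 ≤ Real.log 2 := by
            have := Real.log_two_gt_d9
            linarith
          have h9 : (N : ℝ) ^ (1 - δ / 4) ≤ Real.log 2 * (k - j : ℕ) := by
            rw [h7]
            nlinarith
          calc (Q : ℝ) / (2 * V + 1) * (1 / 2) ^ (k - j) ≤ 1 * (1 / 2) ^ (k - j) := by gcongr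
            _ = (1 / 2) ^ (k - j) := one_mul _
            _ ≤ _ := by
                rw [h6]
                exact Real.exp_le_exp.2 (by linarith)) (N + L) (by omega)
      linarith)
  refine hmain.trans ?_
  have h1 : ∑ k ∈ range N, e k ≤ 4 * T + N * (2 * T ^ (-c1)) := by
    have h2 : ∀ k ∈ range N, e k ≤ (if (k : ℝ) < T + 2 then 1 else 0) + 2 * T ^ (-c1) := by
      intro k _
      rw [he]
      dsimp only
      have : 0 ≤ T ^ (-c1) := by positivity
      split_ifs <;> linarith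
    refine (Finset.sum_le_sum h2).trans ?_
    rw [Finset.sum_add_distrib, Finset.sum_const, Finset.card_range, nsmul_eq_mul]
    refine add_le_add ?_ le_rfl
    rw [Finset.sum_ite, Finset.sum_const_zero, add_zero, Finset.sum_const, nsmul_eq_mul, mul_one]
    have h3 : ((range N).filter fun k : ℕ => (k : ℝ) < T + 2) ⊆ range (⌈T + 2⌉₊) := by
      intro k hk
      rw [Finset.mem_filter] at hk
      rw [Finset.mem_range]
      exact Nat.lt_ceil.2 hk.2
    have h4 := Finset.card_le_card h3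
    rw [Finset.card_range] at h4
    have h5 : ((⌈T + 2⌉₊ : ℕ) : ℝ) < T + 2 + 1 := Nat.ceil_lt_add_one (by linarith)
    have h6 : ((((range N).filter fun k : ℕ => (k : ℝ) < T + 2).card : ℕ) : ℝ) ≤ (⌈T + 2⌉₊ : ℕ) := by exact_mod_cast h4
    linarith
  have h2 : (N : ℝ) * T = (N : ℝ) ^ (1 + s) := by
    rw [Real.rpow_add hN0, Real.rpow_one, hT]
  have h3 : (N : ℝ) * (N * T ^ (-c1)) = (N : ℝ) ^ (2 - s * c1) := by
    rw [hT, ← Real.rpow_mul hN0.le, sub_eq_add_neg, Real.rpow_add hN0, Real.rpow_two]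
    have : s * -c1 = -(s * c1) := by ring
    rw [this]
    ring
  rw [Real.rpow_one] at g4
  have h4 : 2 * (N : ℝ) * ∑ k ∈ range N, e k ≤ 2 * N * (4 * T + N * (2 * T ^ (-c1))) := by gcongr
  have h5 : 2 * (N : ℝ) * (4 * T + N * (2 * T ^ (-c1))) = 8 * (N * T) + 4 * (N * (N * T ^ (-c1))) := by ring
  rw [h5, h2, h3] at h4
  linarith

end Run7.h683.MR
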