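import Pool.Agent.Run7.h683.MR.F

/-!
# Random products: the almost sure bound of the exponential sum
-/

set_option autoImplicit false

namespace Run7.h683.MR

open Finset Filter Run7.h683.AB MeasureTheory
open Pool.Agent.Y957.VK (dz mn)

/-- the random elements `p k` of the sets `S k` are independent and uniformly distributed -/
structure Uniform {Ω : Type*} [MeasurableSpace Ω] (μ : Measure Ω) (S : ℕ → Finset ℕ) (p : ℕ → Ω → ℕ) : Prop where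
  mem : ∀ k ω, p k ω ∈ S k
  cyl : ∀ (N : ℕ) (v : ℕ → ℕ), μ.real {ω | ∀ k < N, p k ω = v k} ≤ ∏ k ∈ range N, (1 / ((S k).card : ℝ))

theorem SS_dep {y : ℝ} {L : ℕ} {g : ℕ → (ℕ → ℕ) → ℝ} (hg : Past L g) (N : ℕ) : Dep (N + L) (SS y L g N) := by
  intro v w h
  unfold SS
  refine Finset.sum_congr rfl fun n hn => ?_
  exact EE_dep hg n v w fun k hk => h k (by have := Finset.mem_range.1 hn; omega)

/-- Chebyshev's inequality -/
theorem cheb {Ω : Type*} [MeasurableSpace Ω] {μ : Measure Ω} [IsProbabilityMeasure μ] {S : ℕ → Finset ℕ}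
    {p : ℕ → Ω → ℕ} (hp : Uniform μ S p) (y : ℝ) (L : ℕ) (g : ℕ → (ℕ → ℕ) → ℝ) (hg : Past L g) (N : ℕ) (t : ℝ)
    (ht : 0 < t) :
    μ.real {ω | t < ‖SS y L g N fun k => p k ω‖} ≤ avg S (N + L) (fun v => ‖SS y L g N v‖ ^ 2) / t ^ 2 := by
  have h1 := prob_le hp.mem hp.cyl (N + L) (fun v => t < ‖SS y L g N v‖) (by
    intro v w h
    dsimp only
    rw [SS_dep hg N v w h])
  refine h1.trans ?_
  rw [div_eq_inv_mul, ← avg_mul]
  refine avg_mono (N + L) _ _ fun v _ => ?_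
  by_cases h2 : t < ‖SS y L g N v‖
  · rw [ind_true h2, inv_mul_eq_div, le_div_iff₀ (by positivity), one_mul]
    gcongr
  · rw [ind_false h2]
    positivity

theorem SS_diff (y : ℝ) (L : ℕ) (g : ℕ → (ℕ → ℕ) → ℝ) (v : ℕ → ℕ) (m N : ℕ) (h : m ≤ N) :
    ‖SS y L g N v‖ ≤ ‖SS y L g m v‖ + (N - m : ℝ) := by
  obtain ⟨d, rfl⟩ := Nat.exists_eq_add_of_le h
  have h1 : SS y L g (m + d) v = SS y L g m v + ∑ n ∈ range d, EE y L g (m + n) v := by
    unfold SS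
    rw [Finset.sum_range_add]
  rw [h1]
  refine (norm_add_le _ _).trans (add_le_add le_rfl ?_)
  refine (norm_sum_le _ _).trans ?_
  refine (Finset.sum_le_sum fun n _ => (norm_EE _ _ _ _ _).le).trans (le_of_eq ?_)
  rw [Finset.sum_const, Finset.card_range, nsmul_eq_mul, mul_one]
  push_cast
  ring

theorem ae_local.{u} {S : ℕ → Finset ℕ} {M : ℕ → ℕ} {θ Θ : ℝ} (G : Growth S M θ Θ) :
    ∃ a b c : ℝ, 0 < a ∧ a < b ∧ b < 1 ∧ 0 < c ∧ c < 1 ∧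
      ∀ (Ω : Type u) [MeasurableSpace Ω] (μ : Measure Ω) [IsProbabilityMeasure μ] (p : ℕ → Ω → ℕ),
        Uniform μ S p → ∀ (y : ℝ) (L : ℕ) (g : ℕ → (ℕ → ℕ) → ℝ), Past L g →
          ∀ᵐ ω ∂μ, ∀ᶠ N : ℕ in atTop, ¬ Near a b y N →
            ‖SS y L g N fun k => p k ω‖ ≤ (N : ℝ) ^ (1 - c) := by
  obtain ⟨a, b1, c1, ha, hab, hb1, hc1, hc1', h⟩ := local_moment G
  obtain ⟨b, hb⟩ : ∃ b : ℝ, b = (a + b1) / 2 := ⟨_, rfl⟩
  obtain ⟨A, hA⟩ : ∃ A : ℕ, A = ⌈4 / c1⌉₊ := ⟨_, rfl⟩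
  have hA4 : 4 / c1 ≤ A := by
    rw [hA]
    exact Nat.le_ceil _
  have hAc : 4 ≤ A * c1 := by
    rwa [div_le_iff₀ hc1] at hA4
  have hA0 : (0 : ℝ) < A := lt_of_lt_of_le (by positivity) hA4
  have hAne : A ≠ 0 := by
    rintro rfl
    norm_num at hA0
  obtain ⟨c, hc⟩ : ∃ c : ℝ, c = min (c1 / 8) (1 / (2 * A)) := ⟨_, rfl⟩
  have hcpos : 0 < c := by
    rw [hc]
    exact lt_min (by linarith) (by positivity)
  have hc2 : c ≤ c1 / 8 := by rw [hc]; exact min_le_left _ _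
  have hc3 : c ≤ 1 / (2 * A) := by rw [hc]; exact min_le_right _ _
  have hA2 : 1 / (2 * (A : ℝ)) = 1 / A / 2 := by field_simp
  have hAinv : 0 < 1 / (A : ℝ) := by positivity
  refine ⟨a, b, c, ha, by rw [hb]; linarith, by rw [hb]; linarith, hcpos, by linarith, ?_⟩
  intro Ω _ μ _ p hp y L g hg
  -- the exceptional events
  obtain ⟨N0, hN0⟩ := eventually_atTop.1 (h L)
  obtain ⟨s, hs⟩ : ∃ s : ℕ → Set Ω, s = fun i => {ω | N0 + 1 ≤ i ^ A ∧ ¬ Near a b1 y (i ^ A) ∧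
    ((i ^ A : ℕ) : ℝ) ^ (1 - c1 / 4) < ‖SS y L g (i ^ A) fun k => p k ω‖} := ⟨_, rfl⟩
  have hsμ : ∀ i, μ.real (s i) ≤ 1 / (i : ℝ) ^ 2 := by
    intro i
    by_cases h1 : N0 + 1 ≤ i ^ A ∧ ¬ Near a b1 y (i ^ A)
    · have h2 : s i = {ω | ((i ^ A : ℕ) : ℝ) ^ (1 - c1 / 4) < ‖SS y L g (i ^ A) fun k => p k ω‖} := by
        rw [hs]
        ext ω
        simp only [Set.mem_setOf_eq]
        exact ⟨fun h3 => h3.2.2, fun h3 => ⟨h1.1, h1.2, h3⟩⟩
      have hi1 : 1 ≤ i := by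
        rcases Nat.eq_zero_or_pos i with h3 | h3
        · rw [h3, zero_pow hAne] at h1
          omega
        · exact h3
      have hi0 : (0 : ℝ) < i := by exact_mod_cast hi1
      have hi1' : (1 : ℝ) ≤ i := by exact_mod_cast hi1
      have hiA : (0 : ℝ) < ((i ^ A : ℕ) : ℝ) := by
        push_cast
        positivity
      rw [h2]
      refine (cheb hp y L g hg (i ^ A) _ (Real.rpow_pos_of_pos hiA _)).trans ?_
      have h4 := hN0 (i ^ A) (by omega) y g hg h1.2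
      have h5 : (((i ^ A : ℕ) : ℝ) ^ (1 - c1 / 4)) ^ 2 = ((i ^ A : ℕ) : ℝ) ^ (2 - c1 / 2) := by
        rw [← Real.rpow_natCast, ← Real.rpow_mul hiA.le]
        congr 1
        push_cast
        ring
      rw [h5]
      refine (div_le_div_of_nonneg_right h4 (by positivity)).trans ?_
      rw [← Real.rpow_sub hiA]
      have h6 : (2 - c1 - (2 - c1 / 2) : ℝ) = -(c1 / 2) := by ring
      rw [h6]
      have h7 : ((i ^ A : ℕ) : ℝ) = (i : ℝ) ^ (A : ℝ) := by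
        push_cast
        rw [Real.rpow_natCast]
      rw [h7, ← Real.rpow_mul hi0.le, one_div, ← Real.rpow_natCast, ← Real.rpow_neg hi0.le]
      refine Real.rpow_le_rpow_of_exponent_le hi1' ?_
      push_cast
      linarith
    · have h2 : s i = ∅ := by
        rw [hs]
        rw [Set.eq_empty_iff_forall_notMem]
        rintro ω ⟨h3, h4, -⟩
        exact h1 ⟨h3, h4⟩
      rw [h2, measureReal_empty]
      positivity
  have hsum : ∑' i, μ (s i) ≠ ⊤ := by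
    have h1 : Summable fun i : ℕ => 1 / (i : ℝ) ^ 2 := Real.summable_one_div_nat_pow.2 (by norm_num)
    refine ne_top_of_le_ne_top h1.tsum_ofReal_ne_top (ENNReal.tsum_le_tsum fun i => ?_)
    rw [← ofReal_measureReal (measure_ne_top μ (s i))]
    exact ENNReal.ofReal_le_ofReal (hsμ i)
  filter_upwards [ae_eventually_notMem hsum] with ω hω
  -- the roots
  obtain ⟨r, hr⟩ : ∃ r : ℕ → ℕ, r = fun N : ℕ => ⌊(N : ℝ) ^ (1 / (A : ℝ))⌋₊ := ⟨_, rfl⟩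
  have hrt : Tendsto r atTop atTop := by
    rw [hr]
    exact tendsto_nat_floor_atTop.comp ((tendsto_rpow_atTop hAinv).comp tendsto_natCast_atTop_atTop)
  have e0 := hrt.eventually hω
  have e1 : ∀ᶠ N : ℕ in atTop, N0 + 1 ≤ r N := hrt.eventually (eventually_ge_atTop _)
  have e2 : ∀ᶠ N : ℕ in atTop, (2 ^ A : ℝ) ^ b * (((r N ^ A : ℕ) : ℝ)) ^ b ≤ (((r N ^ A : ℕ) : ℝ)) ^ b1 := by
    have h1 : Tendsto (fun N => ((r N ^ A : ℕ) : ℝ)) atTop atTop :=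
      tendsto_natCast_atTop_atTop.comp ((tendsto_pow_atTop hAne).comp hrt)
    exact h1.eventually (ev_lt (by rw [hb]; linarith) _)
  have e3 : ∀ᶠ N : ℕ in atTop, 2 * (N : ℝ) ^ (1 - c1 / 4) ≤ (N : ℝ) ^ (1 - c) := evn (ev_lt (by linarith) 2)
  have e4 : ∀ᶠ N : ℕ in atTop, (2 * (2 ^ A * A)) * (N : ℝ) ^ (1 - 1 / (A : ℝ)) ≤ (N : ℝ) ^ (1 - c) :=
    evn (ev_lt (by linarith) _)
  filter_upwards [e0, e1, e2, e3, e4, eventually_ge_atTop 1] with N g0 g1 g2 g3 g4 g5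
  intro hN
  obtain ⟨i, hi⟩ : ∃ i, i = r N := ⟨_, rfl⟩
  rw [← hi] at g0 g1 g2
  have hN0' : (0 : ℝ) < N := by exact_mod_cast g5
  have hi1 : 1 ≤ i := by omega
  have hi0 : (0 : ℝ) < i := by exact_mod_cast hi1
  have hle : (i : ℝ) ≤ (N : ℝ) ^ (1 / (A : ℝ)) := by
    rw [hi, hr]
    exact Nat.floor_le (by positivity)
  have hlt : (N : ℝ) ^ (1 / (A : ℝ)) < i + 1 := by
    rw [hi, hr]
    exact Nat.lt_floor_add_one _
  have hroot : ((N : ℝ) ^ (1 / (A : ℝ))) ^ A = N := by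
    rw [← Real.rpow_natCast, ← Real.rpow_mul hN0'.le, one_div_mul_cancel hA0.ne', Real.rpow_one]
  have hNi : ((i ^ A : ℕ) : ℝ) ≤ N := by
    push_cast
    calc (i : ℝ) ^ A ≤ ((N : ℝ) ^ (1 / (A : ℝ))) ^ A := by gcongr
      _ = N := hroot
  have hNi' : i ^ A ≤ N := by exact_mod_cast hNi
  have hNlt : (N : ℝ) ≤ (i + 1 : ℝ) ^ A := by
    calc (N : ℝ) = ((N : ℝ) ^ (1 / (A : ℝ))) ^ A := hroot.symm
      _ ≤ (i + 1 : ℝ) ^ A := by gcongr
  have hN2 : (N : ℝ) ≤ 2 ^ A * ((i ^ A : ℕ) : ℝ) := by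
    refine hNlt.trans ?_
    push_cast
    rw [← mul_pow]
    have : (1 : ℝ) ≤ i := by exact_mod_cast hi1
    gcongr
    linarith
  have hN0i : N0 + 1 ≤ i ^ A := g1.trans (Nat.le_self_pow hAne i)
  have hnear : ¬ Near a b1 y (i ^ A) := by
    rintro ⟨D, h1, h2, h3⟩
    refine hN ⟨D, h1, h2.trans (Real.exp_le_exp.2 (Real.rpow_le_rpow (by positivity) hNi ha.le)), h3.trans_le ?_⟩
    refine Real.exp_le_exp.2 (neg_le_neg ?_)
    have hb0 : 0 ≤ b := by rw [hb]; linarith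
    calc (N : ℝ) ^ b ≤ (2 ^ A * ((i ^ A : ℕ) : ℝ)) ^ b := Real.rpow_le_rpow hN0'.le hN2 hb0
      _ = (2 ^ A : ℝ) ^ b * (((i ^ A : ℕ) : ℝ)) ^ b := Real.mul_rpow (by positivity) (by positivity)
      _ ≤ _ := g2
  have hsmall : ‖SS y L g (i ^ A) fun k => p k ω‖ ≤ ((i ^ A : ℕ) : ℝ) ^ (1 - c1 / 4) := by
    by_contra hcon
    push Not at hcon
    apply g0
    rw [hs]
    exact ⟨hN0i, hnear, hcon⟩
  refine (SS_diff y L g _ (i ^ A) N hNi').trans ?_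
  have h1 : ((i ^ A : ℕ) : ℝ) ^ (1 - c1 / 4) ≤ (N : ℝ) ^ (1 - c1 / 4) :=
    Real.rpow_le_rpow (by positivity) hNi (by linarith)
  have h2 : (N : ℝ) - ((i ^ A : ℕ) : ℝ) ≤ (2 ^ A * A) * (N : ℝ) ^ (1 - 1 / (A : ℝ)) := by
    have hB := one_add_mul_le_pow (a := -(1 / ((i : ℝ) + 1))) (by
      have : 1 / ((i : ℝ) + 1) ≤ 1 := by
        rw [div_le_one (by linarith)]
        linarith
      linarith) A
    have h3 : (1 + -(1 / ((i : ℝ) + 1))) = i / (i + 1) := by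
      field_simp
      ring
    rw [h3, div_pow] at hB
    have h4 : (0 : ℝ) < (i + 1 : ℝ) ^ A := by positivity
    rw [le_div_iff₀ h4] at hB
    have h5 : (i + 1 : ℝ) ^ A ≤ 2 ^ A * N := by
      have : (1 : ℝ) ≤ i := by exact_mod_cast hi1
      calc (i + 1 : ℝ) ^ A ≤ (2 * i) ^ A := by gcongr; linarith
        _ = 2 ^ A * (i : ℝ) ^ A := by rw [mul_pow]
        _ ≤ 2 ^ A * N := by
            push_cast at hNi
            gcongr
    have h6 : (N : ℝ) ^ (1 - 1 / (A : ℝ)) = N / (N : ℝ) ^ (1 / (A : ℝ)) := by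
      rw [Real.rpow_sub hN0', Real.rpow_one]
    have h7 : 1 / ((i : ℝ) + 1) ≤ 1 / (N : ℝ) ^ (1 / (A : ℝ)) :=
      one_div_le_one_div_of_le (by positivity) hlt.le
    push_cast
    calc (N : ℝ) - (i : ℝ) ^ A ≤ (i + 1 : ℝ) ^ A - (i : ℝ) ^ A := by linarith
      _ ≤ A * (1 / ((i : ℝ) + 1)) * (i + 1 : ℝ) ^ A := by linarith
      _ ≤ A * (1 / (N : ℝ) ^ (1 / (A : ℝ))) * (2 ^ A * N) := by gcongr
      _ = (2 ^ A * A) * (N / (N : ℝ) ^ (1 / (A : ℝ))) := by ring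
      _ = _ := by rw [h6]
  linarith

end Run7.h683.MR
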