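import Pool.Agent.Run7.h683.MR.G

/-!
# Random products: the primes up to `(k + 2) ^ θ`; independent random variables
-/

set_option autoImplicit false

namespace Run7.h683.MR

open Finset Filter Run7.h683.AB MeasureTheory ProbabilityTheory

/-- many primes -/
theorem ev_primes (ε : ℝ) (hε : 0 < ε) (hε1 : ε < 1) :
    ∀ᶠ x : ℝ in atTop, x ^ (1 - ε) ≤ (Nat.primeCounting ⌊x⌋₊ : ℝ) := by
  have e1 : ∀ᶠ x : ℝ in atTop, (1 / (ε / 8)) * x ^ (1 - ε) ≤ x ^ (1 - ε / 2) := ev_lt (by linarith) _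
  have e2 : ∀ᶠ x : ℝ in atTop, 1 ≤ x ^ (1 / 2 : ℝ) := ev_const (by norm_num) 1
  filter_upwards [e1, e2, eventually_ge_atTop 100] with x g1 g2 g3
  have hx0 : 0 < x := by linarith
  refine le_trans ?_ (Chebyshev.pi_ge' (by linarith : 1 < x))
  have hlog : 0 < Real.log x := Real.log_pos (by linarith)
  rw [le_div_iff₀ hlog]
  have h1 : Real.log x ≤ x ^ (ε / 2) / (ε / 2) := Real.log_le_rpow_div hx0.le (by linarith)
  have h2 : Real.log (x + 2) ≤ 1 / 10 * x + 2 := by
    have h3 : Real.log ((x + 2) / 10) ≤ (x + 2) / 10 - 1 := Real.log_le_sub_one_of_pos (by positivity)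
    rw [Real.log_div (by positivity) (by norm_num)] at h3
    have h4 : Real.log 10 ≤ 2.5 := by
      have h5 : Real.log 10 ≤ Real.log 16 / 2 + Real.log 16 / 2 := by
        have : Real.log 10 ≤ Real.log 16 := Real.log_le_log (by norm_num) (by norm_num)
        linarith
      have h6 : Real.log 10 ≤ Real.log (2 ^ (7 / 2 : ℝ)) := by
        refine Real.log_le_log (by norm_num) ?_
        have h7 : ((2 : ℝ) ^ (7 / 2 : ℝ)) = 2 ^ (3 : ℝ) * 2 ^ (1 / 2 : ℝ) := by
          rw [← Real.rpow_add (by norm_num)]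
          norm_num
        rw [h7, ← Real.sqrt_eq_rpow]
        have h8 : (1.4 : ℝ) ≤ Real.sqrt 2 := Real.le_sqrt_of_sq_le (by norm_num)
        norm_num at h8 ⊢
        linarith
      rw [Real.log_rpow (by norm_num)] at h6
      have := Real.log_two_lt_d9
      linarith
    linarith
  have h3 : (1 : ℝ) / 2 ≤ Real.log 2 := by
    have := Real.log_two_gt_d9
    linarith
  have h4 : x / 4 ≤ (x - 1) * Real.log 2 - Real.log (x + 2) := by nlinarith
  refine le_trans ?_ h4
  have h5 : x ^ (1 - ε) * Real.log x ≤ x ^ (1 - ε) * (x ^ (ε / 2) / (ε / 2)) := by gcongr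
  refine h5.trans ?_
  have h6 : x ^ (1 - ε) ≤ (ε / 8) * x ^ (1 - ε / 2) := by
    have h7 := mul_le_mul_of_nonneg_left g1 (by positivity : 0 ≤ ε / 8)
    have h8 : ε / 8 * (1 / (ε / 8) * x ^ (1 - ε)) = x ^ (1 - ε) := by field_simp
    rwa [h8] at h7
  have h7 : x ^ (1 - ε / 2) * x ^ (ε / 2) = x := by
    rw [← Real.rpow_add hx0]
    have : 1 - ε / 2 + ε / 2 = 1 := by ring
    rw [this, Real.rpow_one]
  calc x ^ (1 - ε) * (x ^ (ε / 2) / (ε / 2)) ≤ ((ε / 8) * x ^ (1 - ε / 2)) * (x ^ (ε / 2) / (ε / 2)) := by gcongr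
    _ = (x ^ (1 - ε / 2) * x ^ (ε / 2)) / 4 := by field_simp; ring
    _ = x / 4 := by rw [h7]

/-- the bound for the primes at the place `k` -/
noncomputable def Mk (θ : ℝ) (k : ℕ) : ℕ := ⌊((k : ℝ) + 2) ^ θ⌋₊

/-- the primes at the place `k` -/
noncomputable def Sk (θ : ℝ) (k : ℕ) : Finset ℕ := Nat.primesLE (Mk θ k)

theorem Sk_mono {θ : ℝ} (hθ : 0 ≤ θ) (k : ℕ) : Mk θ k ≤ Mk θ (k + 1) := by
  unfold Mk
  refine Nat.floor_le_floor ?_
  refine Real.rpow_le_rpow (by positivity) ?_ hθ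
  push_cast
  linarith

theorem growth (θ : ℝ) (hθ : 1 < θ) : Growth (Sk θ) (Mk θ) θ (θ + 1) where
  one_lt := hθ
  ne := by
    intro k
    refine ⟨2, ?_⟩
    unfold Sk
    rw [Nat.mem_primesLE]
    refine ⟨?_, Nat.prime_two⟩
    unfold Mk
    refine Nat.le_floor ?_
    push_cast
    calc (2 : ℝ) = 2 ^ (1 : ℝ) := (Real.rpow_one _).symm
      _ ≤ 2 ^ θ := Real.rpow_le_rpow_of_exponent_le (by norm_num) hθ.le
      _ ≤ ((k : ℝ) + 2) ^ θ := by
          refine Real.rpow_le_rpow (by norm_num) ?_ (by linarith)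
          have : (0 : ℝ) ≤ k := by positivity
          linarith
  prime := by
    intro k p hp
    unfold Sk at hp
    rw [Nat.mem_primesLE] at hp
    exact ⟨hp.2, hp.1⟩
  mono := monotone_nat_of_le_succ fun k => Sk_mono (by linarith) k
  low := by
    refine Eventually.of_forall fun k => ?_
    have h1 : (((k + 1 : ℕ) : ℝ) + 2) ^ θ < Mk θ (k + 1) + 1 := by
      unfold Mk
      exact Nat.lt_floor_add_one _
    have h2 : (k : ℝ) ^ θ + 3 ^ θ ≤ ((k : ℝ) + 3) ^ θ :=
      Real.add_rpow_le_rpow_add (by positivity) (by norm_num) hθ.le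
    have h3 : (1 : ℝ) ≤ 3 ^ θ := Real.one_le_rpow (by norm_num) (by linarith)
    have h4 : ((k + 1 : ℕ) : ℝ) + 2 = (k : ℝ) + 3 := by
      push_cast
      ring
    rw [h4] at h1
    linarith
  up := by
    filter_upwards [evn (ev_lt (show θ < θ + 1 by linarith) (3 ^ θ)), eventually_ge_atTop 1] with k g1 g2
    have hk : (1 : ℝ) ≤ k := by exact_mod_cast g2
    have h1 : (Mk θ k : ℝ) ≤ ((k : ℝ) + 2) ^ θ := by
      unfold Mk
      exact Nat.floor_le (by positivity)
    refine h1.trans (le_trans ?_ g1)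
    rw [← Real.mul_rpow (by norm_num) (by positivity)]
    exact Real.rpow_le_rpow (by positivity) (by linarith) (by linarith)
  den := by
    intro ε hε
    obtain ⟨e, he⟩ : ∃ e : ℝ, e = min (ε / (2 * θ)) (1 / 2) := ⟨_, rfl⟩
    have he0 : 0 < e := by
      rw [he]
      exact lt_min (by positivity) (by norm_num)
    have he1 : e < 1 := by
      rw [he]
      exact (min_le_right _ _).trans_lt (by norm_num)
    have he2 : e * θ ≤ ε / 2 := by
      have : e ≤ ε / (2 * θ) := by rw [he]; exact min_le_left _ _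
      rw [le_div_iff₀ (by positivity)] at this
      linarith
    have h1 : Tendsto (fun k : ℕ => ((k : ℝ) + 2) ^ θ) atTop atTop :=
      (tendsto_rpow_atTop (by linarith)).comp
        (tendsto_atTop_add_const_right _ _ tendsto_natCast_atTop_atTop)
    have e1 := h1.eventually (ev_primes e he0 he1)
    have h2 : θ < ε + θ * (1 - e) := by nlinarith
    filter_upwards [e1, evn (ev_lt h2 (4 ^ θ)), eventually_ge_atTop 1] with k g1 g2 g3
    have hk : (1 : ℝ) ≤ k := by exact_mod_cast g3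
    have hk0 : (0 : ℝ) < k := by linarith
    have h3 : (k : ℝ) ^ (θ * (1 - e)) ≤ (Sk θ k).card := by
      have h4 : ((Sk θ k).card : ℝ) = (Nat.primeCounting ⌊((k : ℝ) + 2) ^ θ⌋₊ : ℝ) := by
        unfold Sk Mk
        rw [Nat.primesLE_card_eq_primeCounting]
      rw [h4]
      refine le_trans ?_ g1
      rw [← Real.rpow_mul (by positivity)]
      refine Real.rpow_le_rpow hk0.le (by linarith) ?_
      have : 0 < 1 - e := by linarith
      positivity
    have h5 : (Mk θ (k + 1) : ℝ) ≤ 4 ^ θ * (k : ℝ) ^ θ := by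
      have h6 : (Mk θ (k + 1) : ℝ) ≤ (((k + 1 : ℕ) : ℝ) + 2) ^ θ := by
        unfold Mk
        exact Nat.floor_le (by positivity)
      refine h6.trans ?_
      rw [← Real.mul_rpow (by norm_num) (by positivity)]
      refine Real.rpow_le_rpow (by positivity) ?_ (by linarith)
      push_cast
      linarith
    have h6 : (Mk θ (k + 1) : ℝ) ≤ (k : ℝ) ^ ε * (Sk θ k).card := by
      calc (Mk θ (k + 1) : ℝ) ≤ 4 ^ θ * (k : ℝ) ^ θ := h5
        _ ≤ (k : ℝ) ^ (ε + θ * (1 - e)) := g2
        _ = (k : ℝ) ^ ε * (k : ℝ) ^ (θ * (1 - e)) := Real.rpow_add hk0 _ _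
        _ ≤ _ := by gcongr
    refine ⟨h6, h6.trans ?_⟩
    have h7 : (Sk θ k).card ≤ (Sk θ (k + 1)).card := by
      unfold Sk
      exact Finset.card_le_card (Nat.primesLE_mono (Sk_mono (by linarith) k))
    gcongr

/-- independent random variables which are uniformly distributed -/
theorem uniform_of_indep {Ω : Type*} [MeasurableSpace Ω] {μ : Measure Ω} [IsProbabilityMeasure μ]
    {S : ℕ → Finset ℕ} {p : ℕ → Ω → ℕ} (hmem : ∀ k ω, p k ω ∈ S k) (hind : iIndepFun p μ)
    (hu : ∀ k, ∀ q ∈ S k, μ.real {ω | p k ω = q} = 1 / ((S k).card : ℝ)) : Uniform μ S p where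
  mem := hmem
  cyl := by
    intro N v
    have h1 := hind.measure_inter_preimage_eq_mul (Finset.range N) (sets := fun k => {v k})
      (fun k _ => MeasurableSet.singleton _)
    have h2 : {ω | ∀ k < N, p k ω = v k} = ⋂ k ∈ Finset.range N, p k ⁻¹' {v k} := by
      ext ω
      simp
    rw [h2, measureReal_def, h1, ENNReal.toReal_prod]
    refine Finset.prod_le_prod (fun _ _ => ENNReal.toReal_nonneg) fun k _ => ?_
    by_cases h3 : v k ∈ S k
    · exact (hu k (v k) h3).le
    · have h4 : p k ⁻¹' {v k} = ∅ := by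
        rw [Set.eq_empty_iff_forall_notMem]
        intro ω hω
        apply h3
        rw [← (hω : p k ω = v k)]
        exact hmem k ω
      rw [h4, measure_empty]
      simp

end Run7.h683.MR
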