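import Pool.Agent.Run7.h609.MK.Weyl
import Pool.Agent.Run7.h683.MR.H

/-!
# Random products: equidistribution of words
-/

set_option autoImplicit false

namespace Run7.h683.MR

open Finset Filter Run7.h683.AB MeasureTheory ProbabilityTheory
open Pool.Agent.Y957.VK (dz mn)

/-- the points `(P_(n + l) x_i)_(l < L, i < r)`, `n < N`, are equidistributed modulo one in boxes up to the error
`ε N` -/
def Words (v : ℕ → ℕ) {r : ℕ} (x : Fin r → ℝ) (L N : ℕ) (ε : ℝ) : Prop :=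
  ∀ u w : Fin L → Fin r → ℝ, (∀ l i, 0 ≤ u l i ∧ u l i ≤ w l i ∧ w l i ≤ 1) →
    |(((range N).filter fun n => ∀ l i, u l i ≤ Int.fract ((PP v (n + (l : ℕ)) : ℝ) * x i) ∧
      Int.fract ((PP v (n + (l : ℕ)) : ℝ) * x i) < w l i).card : ℝ) - (∏ l, ∏ i, (w l i - u l i)) * N| ≤ ε * N

theorem fract_iff {t u w : ℝ} (h0 : 0 ≤ u) (h1 : u ≤ w) (h2 : w ≤ 1) :
    Int.fract (t - u) < w - u ↔ u ≤ Int.fract t ∧ Int.fract t < w := by
  have h3 := Int.fract_nonneg t
  have h4 := Int.fract_lt_one t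
  have h5 : Int.fract (t - u) = Int.fract (Int.fract t - u) := by
    have h6 : t - u = (Int.fract t - u) + (⌊t⌋ : ℤ) := by
      have := Int.fract_add_floor t
      linarith
    rw [h6, Int.fract_add_intCast]
  rw [h5]
  rcases le_or_gt u (Int.fract t) with h6 | h6
  · have h7 : Int.fract (Int.fract t - u) = Int.fract t - u := by
      rw [Int.fract_eq_self]
      constructor <;> linarith
    rw [h7]
    constructor
    · intro h8
      exact ⟨h6, by linarith⟩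
    · intro h8
      linarith [h8.2]
  · have h7 : Int.fract (Int.fract t - u) = Int.fract t - u + 1 := by
      rw [Int.fract_eq_iff]
      refine ⟨by linarith, by linarith, -1, by push_cast; ring⟩
    rw [h7]
    constructor
    · intro h8
      linarith
    · intro h8
      linarith [h8.1]

theorem e_eq (t : ℝ) : Pool.Agent.V11226.ETN.e t = ee t := by
  unfold Pool.Agent.V11226.ETN.e ee
  congr 1
  ring

/-- the exponential sum for words -/
noncomputable def WS (v : ℕ → ℕ) {r L : ℕ} (x : Fin r → ℝ) (h : Fin L → Fin r → ℤ) (N : ℕ) : ℂ :=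
  ∑ n ∈ range N, ee (∑ l, ∑ i, (h l i : ℝ) * (PP v (n + (l : ℕ)) * x i))

theorem words_of_sums (r L : ℕ) (ε : ℝ) (hε : 0 < ε) : ∃ (H : ℕ) (δ : ℝ), 0 < δ ∧ ∀ (v : ℕ → ℕ) (x : Fin r → ℝ) (N : ℕ),
    (∀ h : Fin L → Fin r → ℤ, h ≠ 0 → (∀ l i, |h l i| ≤ H) → ‖WS v x h N‖ ≤ δ * N) → Words v x L N ε := by
  classical
  obtain ⟨H, δ, hδ, hw⟩ := Pool.Agent.Run7.h609.MK.weyl (L * r) ε hε
  refine ⟨H, δ, hδ, fun v x N hsum u w huw => ?_⟩
  obtain ⟨E, hE⟩ : ∃ E : Fin L × Fin r ≃ Fin (L * r), E = finProdFinEquiv := ⟨_, rfl⟩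
  have h1 := hw (ι := ℕ) (range N) (fun _ => 1) (fun n j => (PP v (n + ((E.symm j).1 : ℕ)) : ℝ) * x (E.symm j).2) N
    (fun _ _ => zero_le_one) (by positivity) (by
      rw [Finset.sum_const, Finset.card_range, nsmul_eq_mul, mul_one, sub_self, abs_zero]
      positivity) (by
      intro h hh0 hhH
      have h2 := hsum (fun l i => h (E (l, i))) (by
        intro h3
        apply hh0
        funext j
        have h4 := congrFun (congrFun h3 (E.symm j).1) (E.symm j).2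
        simpa using h4) (fun l i => hhH _)
      refine le_trans (le_of_eq ?_) h2
      unfold WS
      congr 1
      refine Finset.sum_congr rfl fun n _ => ?_
      rw [Complex.ofReal_one, one_mul, e_eq]
      congr 1
      rw [← Fintype.sum_prod_type', ← E.sum_comp]
      refine Finset.sum_congr rfl fun p _ => ?_
      rw [Equiv.symm_apply_apply]) (fun j => u (E.symm j).1 (E.symm j).2) (fun j => w (E.symm j).1 (E.symm j).2)
      (fun j => (huw _ _).2.1) (fun j => by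
        have := huw (E.symm j).1 (E.symm j).2
        linarith [this.1, this.2.2])
  rw [Finset.sum_const, nsmul_eq_mul, mul_one] at h1
  have h2 : ∏ j, (w (E.symm j).1 (E.symm j).2 - u (E.symm j).1 (E.symm j).2) = ∏ l, ∏ i, (w l i - u l i) := by
    rw [← Fintype.prod_prod_type', ← E.prod_comp]
    refine Finset.prod_congr rfl fun p _ => ?_
    rw [Equiv.symm_apply_apply]
  rw [h2] at h1
  refine le_trans (le_of_eq ?_) h1
  congr 4
  ext n
  simp only [Finset.mem_filter, Finset.mem_range, and_congr_right_iff]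
  intro _
  constructor
  · intro h3 j
    exact (fract_iff (huw _ _).1 (huw _ _).2.1 (huw _ _).2.2).2 (h3 _ _)
  · intro h3 l i
    have h4 := h3 (E (l, i))
    rw [Equiv.symm_apply_apply] at h4
    exact (fract_iff (huw _ _).1 (huw _ _).2.1 (huw _ _).2.2).1 h4

/-- the sums for words are sums of the kind considered before -/
theorem WS_eq {r L : ℕ} (x : Fin r → ℝ) (h : Fin L → Fin r → ℤ) (h0 : h ≠ 0) :
    ∃ (m : ℕ) (g : Fin r → ℤ) (G : ℕ → (ℕ → ℕ) → ℝ), g ≠ 0 ∧ (∃ l, g = h l) ∧ Past m G ∧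
      ∀ v N, WS v x h N = SS (∑ i, (g i : ℝ) * x i) m G N v := by
  classical
  have hne : (Finset.univ.filter fun l : Fin L => h l ≠ 0).Nonempty := by
    by_contra hcon
    rw [Finset.not_nonempty_iff_eq_empty] at hcon
    apply h0
    funext l
    by_contra hl
    have : l ∈ (Finset.univ.filter fun l : Fin L => h l ≠ 0) := Finset.mem_filter.2 ⟨Finset.mem_univ _, hl⟩
    rw [hcon] at this
    exact absurd this (Finset.notMem_empty _)
  obtain ⟨m, hm, hmax⟩ := Finset.exists_max_image _ (fun l : Fin L => (l : ℕ)) hne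
  rw [Finset.mem_filter] at hm
  have hz : ∀ l : Fin L, (m : ℕ) < l → h l = 0 := by
    intro l hl
    by_contra h1
    have h2 := hmax l (Finset.mem_filter.2 ⟨Finset.mem_univ _, h1⟩)
    omega
  refine ⟨m, h m, fun n v => ∑ l ∈ Finset.univ.filter (fun l : Fin L => (l : ℕ) < m), ∑ i,
    (h l i : ℝ) * (PP v (n + (l : ℕ)) * x i), hm.2, ⟨m, rfl⟩, ?_, ?_⟩
  · intro n v w hvw
    refine Finset.sum_congr rfl fun l hl => Finset.sum_congr rfl fun i _ => ?_
    rw [Finset.mem_filter] at hl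
    have h1 : PP v (n + (l : ℕ)) = PP w (n + (l : ℕ)) := PP_dep (n + (l : ℕ)) v w fun k hk => hvw k (by omega)
    rw [h1]
  · intro v N
    unfold WS SS EE
    refine Finset.sum_congr rfl fun n _ => ?_
    congr 1
    have h1 : ∑ l, ∑ i, (h l i : ℝ) * (PP v (n + (l : ℕ)) * x i) =
        ∑ l ∈ Finset.univ.filter (fun l : Fin L => (l : ℕ) < m), ∑ i, (h l i : ℝ) * (PP v (n + (l : ℕ)) * x i) +
        ∑ l ∈ Finset.univ.filter (fun l : Fin L => ¬ (l : ℕ) < m), ∑ i, (h l i : ℝ) * (PP v (n + (l : ℕ)) * x i) :=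
      (Finset.sum_filter_add_sum_filter_not _ _ _).symm
    rw [h1]
    congr 1
    rw [Finset.sum_eq_single m]
    · rw [Finset.sum_mul]
      refine Finset.sum_congr rfl fun i _ => ?_
      ring
    · intro l hl hlm
      rw [Finset.mem_filter] at hl
      have h2 : (m : ℕ) < l := by
        have h3 : (l : ℕ) ≠ m := fun h4 => hlm (Fin.ext h4)
        omega
      rw [hz l h2]
      simp
    · intro h2
      exfalso
      apply h2
      rw [Finset.mem_filter]
      exact ⟨Finset.mem_univ _, lt_irrefl _⟩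

/-- the almost sure statement -/
theorem ae_words.{u} {S : ℕ → Finset ℕ} {M : ℕ → ℕ} {θ Θ : ℝ} (G : Growth S M θ Θ) :
    ∃ a b c : ℝ, 0 < a ∧ a < b ∧ b < 1 ∧ 0 < c ∧ c < 1 ∧
      ∀ (Ω : Type u) [MeasurableSpace Ω] (μ : Measure Ω) [IsProbabilityMeasure μ] (p : ℕ → Ω → ℕ),
        Uniform μ S p → ∀ (r : ℕ) (x : Fin r → ℝ), ∀ᵐ ω ∂μ,
          (∀ (L : ℕ) (h : Fin L → Fin r → ℤ), h ≠ 0 → ∃ g : Fin r → ℤ, g ≠ 0 ∧ (∃ l, g = h l) ∧ ∀ᶠ N : ℕ in atTop,
            ¬ Near a b (∑ i, (g i : ℝ) * x i) N → ‖WS (fun k => p k ω) x h N‖ ≤ (N : ℝ) ^ (1 - c)) ∧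
          ∀ (L : ℕ) (ε : ℝ), 0 < ε → ∃ H : ℕ, ∀ᶠ N : ℕ in atTop,
            (∀ g : Fin r → ℤ, g ≠ 0 → (∀ i, |g i| ≤ H) → ¬ Near a b (∑ i, (g i : ℝ) * x i) N) →
              Words (fun k => p k ω) x L N ε := by
  classical
  obtain ⟨a, b, c, ha, hab, hb, hc, hc1, h⟩ := ae_local.{u} G
  refine ⟨a, b, c, ha, hab, hb, hc, hc1, ?_⟩
  intro Ω _ μ _ p hp r x
  have h1 : ∀ᵐ ω ∂μ, ∀ (L : ℕ) (h : Fin L → Fin r → ℤ), h ≠ 0 → ∃ g : Fin r → ℤ, g ≠ 0 ∧ (∃ l, g = h l) ∧
      ∀ᶠ N : ℕ in atTop, ¬ Near a b (∑ i, (g i : ℝ) * x i) N → ‖WS (fun k => p k ω) x h N‖ ≤ (N : ℝ) ^ (1 - c) := by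
    rw [ae_all_iff]
    intro L
    rw [ae_all_iff]
    intro f
    by_cases hf : f = 0
    · exact Eventually.of_forall fun ω h2 => absurd hf h2
    obtain ⟨m, g, F, hg, hgl, hF, hWS⟩ := WS_eq x f hf
    filter_upwards [h Ω μ p hp (∑ i, (g i : ℝ) * x i) m F hF] with ω hω
    intro _
    refine ⟨g, hg, hgl, ?_⟩
    filter_upwards [hω] with N hN hnear
    rw [hWS]
    exact hN hnear
  filter_upwards [h1] with ω hω
  refine ⟨hω, fun L ε hε => ?_⟩
  obtain ⟨H, δ, hδ, hw⟩ := words_of_sums r L ε hε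
  refine ⟨H, ?_⟩
  obtain ⟨B, hB⟩ : ∃ B : Finset (Fin L → Fin r → ℤ), B = Fintype.piFinset fun _ => Fintype.piFinset fun _ =>
    Finset.Icc (-(H : ℤ)) H := ⟨_, rfl⟩
  have hBmem : ∀ f : Fin L → Fin r → ℤ, (∀ l i, |f l i| ≤ H) → f ∈ B := by
    intro f hf
    rw [hB, Fintype.mem_piFinset]
    intro l
    rw [Fintype.mem_piFinset]
    intro i
    rw [Finset.mem_Icc]
    exact abs_le.1 (hf l i)
  have h2 : ∀ᶠ N : ℕ in atTop, ∀ f ∈ B, f ≠ 0 → (∀ l i, |f l i| ≤ H) →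
      (∀ g : Fin r → ℤ, g ≠ 0 → (∀ i, |g i| ≤ H) → ¬ Near a b (∑ i, (g i : ℝ) * x i) N) →
        ‖WS (fun k => p k ω) x f N‖ ≤ (N : ℝ) ^ (1 - c) := by
    rw [Filter.eventually_all_finset]
    intro f _
    by_cases hf0 : f = 0
    · exact Eventually.of_forall fun N h3 => absurd hf0 h3
    obtain ⟨g, hg0, ⟨l, hgl⟩, hg⟩ := hω L f hf0
    filter_upwards [hg] with N hN
    intro _ hfH hnear
    exact hN (hnear g hg0 fun i => by rw [hgl]; exact hfH l i)
  have h3 : ∀ᶠ N : ℕ in atTop, (1 / δ) * (N : ℝ) ^ (1 - c) ≤ (N : ℝ) ^ (1 : ℝ) := evn (ev_lt (by linarith) _)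
  filter_upwards [h2, h3] with N g1 g2
  intro hnear
  refine hw _ x N fun f hf0 hfH => (g1 f (hBmem f hfH) hf0 hfH hnear).trans ?_
  rw [Real.rpow_one, one_div_mul_eq_div, div_le_iff₀ hδ] at g2
  linarith

end Run7.h683.MR
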