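import Pool.Agent.Run7.h683.MR.I
import Pool.Agent.Run7.h683.AB.M8

/-!
# Random products: numbers which are not too close to rational numbers; the primes tend to infinity; digits
-/

set_option autoImplicit false

namespace Run7.h683.MR

open Finset Filter Run7.h683.AB MeasureTheory ProbabilityTheory
open Pool.Agent.Y957.VK (dz mn)

/-- `‖D y‖ ≥ exp (- C (1 + log D) ^ κ)` -/
def Tame (κ y : ℝ) : Prop := ∃ C : ℝ, ∀ D : ℕ, 1 ≤ D → Real.exp (-(C * (1 + Real.log D) ^ κ)) ≤ dz (y * D)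

theorem Tame.not_near {κ y : ℝ} (h : Tame κ y) {a b : ℝ} (ha : 0 < a) (hκ : 0 ≤ κ) (hab : a * κ < b) :
    ∀ᶠ N : ℕ in atTop, ¬ Near a b y N := by
  obtain ⟨C, hC⟩ := h
  have e1 : ∀ᶠ N : ℕ in atTop, (|C| * 2 ^ κ) * (N : ℝ) ^ (a * κ) ≤ (N : ℝ) ^ b := evn (ev_lt hab _)
  filter_upwards [e1, eventually_ge_atTop 1] with N g1 g2
  rintro ⟨D, hD1, hD2, hD3⟩
  have hN0 : (0 : ℝ) < N := by exact_mod_cast g2
  have hN1 : (1 : ℝ) ≤ N := by exact_mod_cast g2
  have hD0 : (0 : ℝ) < D := by exact_mod_cast hD1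
  have h1 := (hC D hD1).trans_lt hD3
  rw [Real.exp_lt_exp, neg_lt_neg_iff] at h1
  have h2 : Real.log D ≤ (N : ℝ) ^ a := by
    rw [Real.log_le_iff_le_exp hD0]
    exact hD2
  have h3 : 0 ≤ Real.log D := Real.log_nonneg (by exact_mod_cast hD1)
  have h4 : (1 : ℝ) ≤ (N : ℝ) ^ a := Real.one_le_rpow hN1 ha.le
  have h5 : (1 + Real.log D) ^ κ ≤ 2 ^ κ * (N : ℝ) ^ (a * κ) := by
    calc (1 + Real.log D) ^ κ ≤ (2 * (N : ℝ) ^ a) ^ κ := Real.rpow_le_rpow (by linarith) (by linarith) hκ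
      _ = 2 ^ κ * (N : ℝ) ^ (a * κ) := by
          rw [Real.mul_rpow (by norm_num) (by positivity), ← Real.rpow_mul hN0.le]
  have h6 : C * (1 + Real.log D) ^ κ ≤ |C| * (2 ^ κ * (N : ℝ) ^ (a * κ)) := by
    have h7 : 0 ≤ (1 + Real.log D) ^ κ := by positivity
    calc C * (1 + Real.log D) ^ κ ≤ |C| * (1 + Real.log D) ^ κ := by
          gcongr
          exact le_abs_self C
      _ ≤ _ := by gcongr
  linarith

theorem tame_of_pow {y c : ℝ} {A : ℕ} (hc : 0 < c) (h : ∀ D : ℕ, 1 ≤ D → c / (D : ℝ) ^ A ≤ dz (y * D)) {κ : ℝ}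
    (hκ : 1 ≤ κ) : Tame κ y := by
  refine ⟨|Real.log c| + A, fun D hD => le_trans ?_ (h D hD)⟩
  have hD0 : (0 : ℝ) < D := by exact_mod_cast hD
  have h3 : 0 ≤ Real.log D := Real.log_nonneg (by exact_mod_cast hD)
  rw [← Real.log_le_log_iff (Real.exp_pos _) (by positivity), Real.log_exp, Real.log_div hc.ne' (by positivity),
    Real.log_pow]
  have h4 : 1 + Real.log D ≤ (1 + Real.log D) ^ κ := by
    calc 1 + Real.log D = (1 + Real.log D) ^ (1 : ℝ) := (Real.rpow_one _).symm
      _ ≤ _ := Real.rpow_le_rpow_of_exponent_le (by linarith) hκ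
  have h5 : -|Real.log c| ≤ Real.log c := neg_abs_le _
  have h6 : 0 ≤ |Real.log c| := abs_nonneg _
  have h7 : (|Real.log c| + A) * (1 + Real.log D) ≤ (|Real.log c| + A) * (1 + Real.log D) ^ κ := by gcongr
  nlinarith

/-- irrational numbers which are not Liouville numbers -/
theorem tame_of_not_liouville {y : ℝ} (hy : Irrational y) (hL : ¬ Liouville y) {κ : ℝ} (hκ : 1 ≤ κ) :
    Tame κ y := by
  unfold Liouville at hL
  push Not at hL
  obtain ⟨n, hn⟩ := hL
  have h0 : 0 < dz y := by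
    unfold dz
    rw [abs_pos, sub_ne_zero]
    intro h
    refine hy ⟨((round y : ℤ) : ℚ), ?_⟩
    rw [Rat.cast_intCast]
    exact h.symm
  refine tame_of_pow (c := min (dz y) 1) (A := n) (lt_min h0 one_pos) (fun D hD => ?_) hκ
  rcases Nat.lt_or_ge 1 D with h1 | h1
  · have hD0 : (0 : ℝ) < D := by exact_mod_cast (by omega : 0 < D)
    have hD1 : (1 : ℝ) ≤ D := by exact_mod_cast hD
    have h2 := hn (round (y * D)) D (by exact_mod_cast h1) (by
      intro h3
      apply hy
      refine ⟨(round (y * D) : ℚ) / D, ?_⟩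
      push_cast at h3 ⊢
      exact h3.symm)
    have h4 : |y - (round (y * D) : ℤ) / ((D : ℤ) : ℝ)| = dz (y * D) / D := by
      unfold dz
      push_cast
      rw [← abs_of_pos hD0, ← abs_div, abs_of_pos hD0]
      congr 1
      field_simp
    rw [h4, le_div_iff₀ hD0] at h2
    push_cast at h2
    calc min (dz y) 1 / (D : ℝ) ^ n ≤ 1 / (D : ℝ) ^ n := by
          gcongr
          exact min_le_right _ _
      _ ≤ 1 / (D : ℝ) ^ n * D := le_mul_of_one_le_right (by positivity) hD1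
      _ ≤ dz (y * D) := h2
  · have h2 : D = 1 := by omega
    rw [h2]
    push_cast
    rw [one_pow, div_one, mul_one]
    exact min_le_left _ _

/-- a family with a measure of linear independence -/
theorem tame_of_meas {r : ℕ} {x : Fin r → ℝ} (hx : Meas x) {κ : ℝ} (hκ : 1 ≤ κ) (g : Fin r → ℤ) (hg : g ≠ 0) :
    Tame κ (∑ i, (g i : ℝ) * x i) := by
  obtain ⟨A, c, hc, h⟩ := hx
  obtain ⟨T, hT⟩ : ∃ T : ℕ, T = ∑ i, (g i).natAbs := ⟨_, rfl⟩
  have hT1 : 1 ≤ T := by
    obtain ⟨i, hi⟩ := Function.ne_iff.1 hg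
    have h1 : (g i).natAbs ≤ T := by
      rw [hT]
      exact Finset.single_le_sum (f := fun i => (g i).natAbs) (fun _ _ => Nat.zero_le _) (Finset.mem_univ i)
    have h2 : g i ≠ 0 := hi
    omega
  refine tame_of_pow (c := c / (T : ℝ) ^ A) (A := A) (by positivity) (fun D hD => ?_) hκ
  have h1 := h (fun i => g i * D) (by
    intro h2
    apply hg
    funext i
    have h3 := congrFun h2 i
    simp only [Pi.zero_apply, mul_eq_zero] at h3
    rcases h3 with h3 | h3
    · exact h3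
    · exfalso
      have : D = 0 := by exact_mod_cast h3
      omega) (T * D) (fun i => by
    have h2 : (g i).natAbs ≤ T := by
      rw [hT]
      exact Finset.single_le_sum (f := fun i => (g i).natAbs) (fun _ _ => Nat.zero_le _) (Finset.mem_univ i)
    rw [abs_mul, Nat.abs_cast]
    push_cast
    have h3 : |g i| ≤ (T : ℤ) := by
      rw [Int.abs_eq_natAbs]
      exact_mod_cast h2
    gcongr)
  have h2 : ∑ i, ((g i * D : ℤ) : ℝ) * x i = (∑ i, (g i : ℝ) * x i) * D := by
    rw [Finset.sum_mul]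
    refine Finset.sum_congr rfl fun i _ => ?_
    push_cast
    ring
  rw [h2] at h1
  refine le_trans (le_of_eq ?_) h1
  push_cast
  rw [mul_pow, div_div]

/-! ### The random primes tend to infinity -/

theorem ae_tendsto {S : ℕ → Finset ℕ} {M : ℕ → ℕ} {θ Θ : ℝ} (G : Growth S M θ Θ) {Ω : Type*} [MeasurableSpace Ω]
    (μ : Measure Ω) [IsProbabilityMeasure μ] (p : ℕ → Ω → ℕ) (hp : Uniform μ S p) :
    ∀ᵐ ω ∂μ, Tendsto (fun k => p k ω) atTop atTop := by
  have hθ := G.one_lt
  have h0 : ∀ K : ℕ, ∀ᵐ ω ∂μ, ∀ᶠ k : ℕ in atTop, K < p k ω := by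
    intro K
    obtain ⟨ε, hε⟩ : ∃ ε : ℝ, ε = (θ - 1) / 2 := ⟨_, rfl⟩
    obtain ⟨k0, hk0⟩ := eventually_atTop.1 ((G.low.and (G.den ε (by rw [hε]; linarith))).and (eventually_ge_atTop 1))
    obtain ⟨s, hs⟩ : ∃ s : ℕ → Set Ω, s = fun k => {ω | k0 ≤ k ∧ p k ω ≤ K} := ⟨_, rfl⟩
    have hsμ : ∀ k, μ.real (s k) ≤ (K + 1) * (1 / (k : ℝ) ^ (1 + ε)) := by
      intro k
      by_cases hk : k0 ≤ k
      · obtain ⟨⟨h1, h2, -⟩, h3⟩ := hk0 k hk
        have hk1 : (0 : ℝ) < k := by exact_mod_cast h3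
        have h4 : (k : ℝ) ^ (1 + ε) ≤ (S k).card := by
          have h5 : (1 + ε) = θ - ε := by rw [hε]; ring
          rw [h5, Real.rpow_sub hk1, div_le_iff₀ (by positivity), mul_comm]
          exact h1.trans h2
        have h5 := prob_le hp.mem hp.cyl (k + 1) (fun v => v k ≤ K) (by
          intro v w hvw
          dsimp only
          rw [hvw k (by omega)])
        have h6 : s k = {ω | p k ω ≤ K} := by
          rw [hs]
          ext ω
          simp [hk]
        rw [h6]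
        refine h5.trans ?_
        rw [avg_succ]
        refine (avg_mono k _ (fun _ => (K + 1) * (1 / (k : ℝ) ^ (1 + ε))) fun v _ => ?_).trans (avg_const G.ne _ _).le
        have h7 : ∑ q ∈ S k, ind (fun v => v k ≤ K) (Function.update v k q) ≤ K + 1 := by
          have h8 : ∑ q ∈ S k, ind (fun v => v k ≤ K) (Function.update v k q) =
              (((S k).filter fun q => q ≤ K).card : ℝ) := by
            rw [Finset.card_filter]
            push_cast
            refine Finset.sum_congr rfl fun q _ => ?_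
            unfold ind
            simp only [Function.update_self]
          rw [h8]
          have h9 : ((S k).filter fun q => q ≤ K) ⊆ range (K + 1) := by
            intro q hq
            rw [Finset.mem_filter] at hq
            rw [Finset.mem_range]
            omega
          have h10 := Finset.card_le_card h9
          rw [Finset.card_range] at h10
          exact_mod_cast h10
        have h8 : (0 : ℝ) < (k : ℝ) ^ (1 + ε) := by positivity
        calc (∑ q ∈ S k, ind (fun v => v k ≤ K) (Function.update v k q)) / (S k).card ≤ (K + 1) / (S k).card := by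
              gcongr
          _ ≤ (K + 1) / (k : ℝ) ^ (1 + ε) := by gcongr
          _ = _ := by ring
      · have h6 : s k = ∅ := by
          rw [hs]
          ext ω
          simp [hk]
        rw [h6, measureReal_empty]
        positivity
    have hsum : ∑' i, μ (s i) ≠ ⊤ := by
      have h1 : Summable fun k : ℕ => ((K : ℝ) + 1) * (1 / (k : ℝ) ^ (1 + ε)) :=
        (Real.summable_one_div_nat_rpow.2 (by rw [hε]; linarith)).mul_left _
      refine ne_top_of_le_ne_top h1.tsum_ofReal_ne_top (ENNReal.tsum_le_tsum fun i => ?_)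
      rw [← ofReal_measureReal (measure_ne_top μ (s i))]
      exact ENNReal.ofReal_le_ofReal (hsμ i)
    filter_upwards [ae_eventually_notMem hsum] with ω hω
    filter_upwards [hω, eventually_ge_atTop k0] with k g1 g2
    by_contra hcon
    push Not at hcon
    apply g1
    rw [hs]
    exact ⟨g2, hcon⟩
  rw [← ae_all_iff] at h0
  filter_upwards [h0] with ω hω
  rw [tendsto_atTop]
  intro K
  filter_upwards [hω K] with k hk
  exact hk.le

/-! ### Digits -/

/-- the digit of `y` at the place `n` in the mixed radix `v`: `y = ⌊y⌋ + ∑ d_n / (v_0 ⋯ v_n)` -/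
noncomputable def dig (v : ℕ → ℕ) (y : ℝ) (n : ℕ) : ℕ := (⌊(PP v (n + 1) : ℝ) * y⌋ % (v n : ℤ)).toNat

theorem dig_eq (v : ℕ → ℕ) (y : ℝ) (n : ℕ) (hv : 1 ≤ v n) :
    (dig v y n : ℝ) = ⌊(v n : ℝ) * Int.fract ((PP v n : ℝ) * y)⌋ := by
  have hv0 : (0 : ℝ) < v n := by exact_mod_cast hv
  obtain ⟨t, ht⟩ : ∃ t : ℝ, t = Int.fract ((PP v n : ℝ) * y) := ⟨_, rfl⟩
  rw [← ht]
  have ht0 : 0 ≤ t := by rw [ht]; exact Int.fract_nonneg _
  have ht1 : t < 1 := by rw [ht]; exact Int.fract_lt_one _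
  have h1 : (PP v (n + 1) : ℝ) * y = (v n : ℝ) * t + ((v n * ⌊(PP v n : ℝ) * y⌋ : ℤ) : ℝ) := by
    rw [PP_succ, ht]
    have := Int.fract_add_floor ((PP v n : ℝ) * y)
    push_cast
    calc (PP v n : ℝ) * (v n : ℝ) * y = (v n : ℝ) * ((PP v n : ℝ) * y) := by ring
      _ = (v n : ℝ) * (Int.fract ((PP v n : ℝ) * y) + ⌊(PP v n : ℝ) * y⌋) := by rw [this]
      _ = _ := by ring
  unfold dig
  rw [h1, Int.floor_add_intCast, Int.add_mul_emod_self_left]
  have h2 : 0 ≤ ⌊(v n : ℝ) * t⌋ := Int.floor_nonneg.2 (by positivity)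
  have h3 : ⌊(v n : ℝ) * t⌋ < (v n : ℤ) := by
    rw [Int.floor_lt]
    push_cast
    nlinarith
  rw [Int.emod_eq_of_lt h2 h3]
  have h4 : ((⌊(v n : ℝ) * t⌋.toNat : ℕ) : ℤ) = ⌊(v n : ℝ) * t⌋ := Int.toNat_of_nonneg h2
  exact_mod_cast h4

end Run7.h683.MR
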