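import Pool.Agent.Run7.h683.MR.J

/-!
# Random products: words of digits; existence of the random primes
-/

set_option autoImplicit false

namespace Run7.h683.MR

open Finset Filter Run7.h683.AB MeasureTheory ProbabilityTheory Topology

/-- the number of the places `n < N` at which the digits of the numbers `x i` satisfy
`u l i ≤ d_(n + l) / v_(n + l) < w l i` for all `l < L` -/
noncomputable def DW (v : ℕ → ℕ) {r L : ℕ} (x : Fin r → ℝ) (u w : Fin L → Fin r → ℝ) (N : ℕ) : ℕ :=
  ((range N).filter fun n => ∀ l i, u l i * v (n + (l : ℕ)) ≤ dig v (x i) (n + (l : ℕ)) ∧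
    (dig v (x i) (n + (l : ℕ)) : ℝ) < w l i * v (n + (l : ℕ))).card

/-- the number of the points in a box -/
noncomputable def BW (v : ℕ → ℕ) {r L : ℕ} (x : Fin r → ℝ) (u w : Fin L → Fin r → ℝ) (N : ℕ) : ℕ :=
  ((range N).filter fun n => ∀ l i, u l i ≤ Int.fract ((PP v (n + (l : ℕ)) : ℝ) * x i) ∧
      Int.fract ((PP v (n + (l : ℕ)) : ℝ) * x i) < w l i).card

theorem digits_of_words {v : ℕ → ℕ} (hv1 : ∀ k, 1 ≤ v k) (hv : Tendsto v atTop atTop) {r L : ℕ} (x : Fin r → ℝ)
    (h : ∀ ε : ℝ, 0 < ε → ∀ᶠ N : ℕ in atTop, Words v x L N ε) (u w : Fin L → Fin r → ℝ)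
    (huw : ∀ l i, 0 ≤ u l i ∧ u l i ≤ w l i ∧ w l i ≤ 1) :
    Tendsto (fun N : ℕ => (DW v x u w N : ℝ) / N) atTop (𝓝 (∏ l, ∏ i, (w l i - u l i))) := by
  classical
  obtain ⟨p, hp⟩ : ∃ p : ℝ, p = ∏ l, ∏ i, (w l i - u l i) := ⟨_, rfl⟩
  rw [← hp, Metric.tendsto_atTop']
  intro ε hε
  -- the small parameter
  obtain ⟨F1, hF1⟩ : ∃ F : ℝ → ℝ, F = fun η => ∏ l, ∏ i, (min (w l i + η) 1 - u l i) := ⟨_, rfl⟩
  obtain ⟨F2, hF2⟩ : ∃ F : ℝ → ℝ, F = fun η => ∏ l, ∏ i, (w l i - min (u l i + η) (w l i)) := ⟨_, rfl⟩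
  have hc1 : Continuous F1 := by
    rw [hF1]
    fun_prop
  have hc2 : Continuous F2 := by
    rw [hF2]
    fun_prop
  have h01 : F1 0 = p := by
    rw [hF1, hp]
    refine Finset.prod_congr rfl fun l _ => Finset.prod_congr rfl fun i _ => ?_
    rw [add_zero, min_eq_left (huw l i).2.2]
  have h02 : F2 0 = p := by
    rw [hF2, hp]
    refine Finset.prod_congr rfl fun l _ => Finset.prod_congr rfl fun i _ => ?_
    rw [add_zero, min_eq_left (huw l i).2.1]
  have hε4 : 0 < ε / 4 := by linarith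
  have hev : ∀ᶠ η : ℝ in 𝓝[>] 0, |F1 η - p| < ε / 4 ∧ |F2 η - p| < ε / 4 ∧ 0 < η := by
    have h1 : ∀ᶠ η : ℝ in 𝓝 0, |F1 η - p| < ε / 4 := by
      have := (Metric.tendsto_nhds.1 (hc1.tendsto 0)) (ε / 4) hε4
      rw [h01] at this
      exact this
    have h2 : ∀ᶠ η : ℝ in 𝓝 0, |F2 η - p| < ε / 4 := by
      have := (Metric.tendsto_nhds.1 (hc2.tendsto 0)) (ε / 4) hε4
      rw [h02] at this
      exact this
    filter_upwards [nhdsWithin_le_nhds h1, nhdsWithin_le_nhds h2, self_mem_nhdsWithin] with η g1 g2 g3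
    exact ⟨g1, g2, g3⟩
  obtain ⟨η, hη1, hη2, hη0⟩ := hev.exists
  obtain ⟨n0, hn0⟩ := eventually_atTop.1 (hv.eventually (eventually_gt_atTop ⌈1 / η⌉₊))
  have hbig : ∀ k, n0 ≤ k → 1 < η * v k := by
    intro k hk
    have h1 : (⌈1 / η⌉₊ : ℝ) < v k := by exact_mod_cast hn0 k hk
    have h2 : 1 / η < v k := (Nat.le_ceil _).trans_lt h1
    rw [div_lt_iff₀ hη0] at h2
    linarith
  have e3 : ∀ᶠ N : ℕ in atTop, (n0 : ℝ) ≤ (ε / 4) * N := by
    have h1 : Tendsto (fun N : ℕ => (ε / 4) * (N : ℝ)) atTop atTop :=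
      tendsto_natCast_atTop_atTop.const_mul_atTop hε4
    exact h1.eventually (eventually_ge_atTop _)
  have key : ∀ᶠ N : ℕ in atTop, dist ((DW v x u w N : ℝ) / N) p < ε := by
    filter_upwards [h (ε / 8) (by linarith), e3, eventually_ge_atTop 1] with N g1 g3 g4
    have hN0 : (0 : ℝ) < N := by exact_mod_cast g4
    have hdig : ∀ k (y : ℝ), (dig v y k : ℝ) ≤ v k * Int.fract ((PP v k : ℝ) * y) ∧
        v k * Int.fract ((PP v k : ℝ) * y) < dig v y k + 1 := by
      intro k y
      rw [dig_eq v y k (hv1 k)]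
      exact ⟨Int.floor_le _, Int.lt_floor_add_one _⟩
    -- the upper bound
    have hup : (DW v x u w N : ℝ) ≤ BW v x u (fun l i => min (w l i + η) 1) N + n0 := by
      have h1 : ((range N).filter fun n => ∀ l i, u l i * v (n + (l : ℕ)) ≤ dig v (x i) (n + (l : ℕ)) ∧
          (dig v (x i) (n + (l : ℕ)) : ℝ) < w l i * v (n + (l : ℕ))) ⊆
          ((range N).filter fun n => ∀ l i, u l i ≤ Int.fract ((PP v (n + (l : ℕ)) : ℝ) * x i) ∧
            Int.fract ((PP v (n + (l : ℕ)) : ℝ) * x i) < min (w l i + η) 1) ∪ range n0 := by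
        intro n hn
        rw [Finset.mem_filter] at hn
        rw [Finset.mem_union, Finset.mem_filter]
        rcases lt_or_ge n n0 with h2 | h2
        · exact Or.inr (Finset.mem_range.2 h2)
        left
        refine ⟨hn.1, fun l i => ?_⟩
        obtain ⟨h3, h4⟩ := hn.2 l i
        obtain ⟨h5, h6⟩ := hdig (n + (l : ℕ)) (x i)
        have hv0 : (0 : ℝ) < v (n + (l : ℕ)) := by exact_mod_cast hv1 _
        have h7 := hbig (n + (l : ℕ)) (by omega)
        refine ⟨?_, lt_min ?_ (Int.fract_lt_one _)⟩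
        · refine le_of_mul_le_mul_left ?_ hv0
          linarith
        · refine lt_of_mul_lt_mul_left ?_ hv0.le
          calc (v (n + (l : ℕ)) : ℝ) * Int.fract ((PP v (n + (l : ℕ)) : ℝ) * x i) <
              w l i * v (n + (l : ℕ)) + η * v (n + (l : ℕ)) := by linarith
            _ = _ := by ring
      have h2 := (Finset.card_le_card h1).trans (Finset.card_union_le _ _)
      rw [Finset.card_range] at h2
      unfold DW BW
      exact_mod_cast h2
    have hlo : (BW v x (fun l i => min (u l i + η) (w l i)) w N : ℝ) ≤ DW v x u w N + n0 := by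
      have h1 : ((range N).filter fun n => ∀ l i, min (u l i + η) (w l i) ≤
            Int.fract ((PP v (n + (l : ℕ)) : ℝ) * x i) ∧
            Int.fract ((PP v (n + (l : ℕ)) : ℝ) * x i) < w l i) ⊆
          ((range N).filter fun n => ∀ l i, u l i * v (n + (l : ℕ)) ≤ dig v (x i) (n + (l : ℕ)) ∧
          (dig v (x i) (n + (l : ℕ)) : ℝ) < w l i * v (n + (l : ℕ))) ∪ range n0 := by
        intro n hn
        rw [Finset.mem_filter] at hn
        rw [Finset.mem_union, Finset.mem_filter]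
        rcases lt_or_ge n n0 with h2 | h2
        · exact Or.inr (Finset.mem_range.2 h2)
        left
        refine ⟨hn.1, fun l i => ?_⟩
        obtain ⟨h3, h4⟩ := hn.2 l i
        obtain ⟨h5, h6⟩ := hdig (n + (l : ℕ)) (x i)
        have hv0 : (0 : ℝ) < v (n + (l : ℕ)) := by exact_mod_cast hv1 _
        have h7 := hbig (n + (l : ℕ)) (by omega)
        have h8 : u l i + η ≤ Int.fract ((PP v (n + (l : ℕ)) : ℝ) * x i) := by
          rcases min_le_iff.1 h3 with h9 | h9
          · exact h9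
          · linarith
        have h9 := mul_le_mul_of_nonneg_left h8 hv0.le
        have h10 := mul_lt_mul_of_pos_left h4 hv0
        constructor
        · nlinarith
        · linarith
      have h2 := (Finset.card_le_card h1).trans (Finset.card_union_le _ _)
      rw [Finset.card_range] at h2
      unfold DW BW
      exact_mod_cast h2
    have k1 := g1 u (fun l i => min (w l i + η) 1) (fun l i => ⟨(huw l i).1, le_min (by
      linarith [(huw l i).2.1]) ((huw l i).2.1.trans (huw l i).2.2), min_le_right _ _⟩)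
    have k2 := g1 (fun l i => min (u l i + η) (w l i)) w (fun l i => ⟨le_min (by
      linarith [(huw l i).1]) ((huw l i).1.trans (huw l i).2.1), min_le_right _ _, (huw l i).2.2⟩)
    have k3 : (BW v x u (fun l i => min (w l i + η) 1) N : ℝ) - F1 η * N ≤ ε / 8 * N := by
      rw [hF1]
      exact (le_abs_self _).trans k1
    have k4 : F2 η * N - (BW v x (fun l i => min (u l i + η) (w l i)) w N : ℝ) ≤ ε / 8 * N := by
      rw [hF2]
      have h1 := (abs_le.1 k2).1
      unfold BW
      dsimp only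
      linarith
    have k5 := (abs_lt.1 hη1).2
    have k6 := (abs_lt.1 hη2).1
    rw [Real.dist_eq, abs_lt]
    constructor
    · have h1 : p - ε < (DW v x u w N : ℝ) / N := by
        rw [lt_div_iff₀ hN0]
        nlinarith
      linarith
    · have h1 : (DW v x u w N : ℝ) / N < p + ε := by
        rw [div_lt_iff₀ hN0]
        nlinarith
      linarith
  obtain ⟨n1, hn1⟩ := eventually_atTop.1 key
  exact ⟨n1, fun n hn => hn1 n hn.le⟩

/-! ### Existence -/

theorem exists_uniform (S : ℕ → Finset ℕ) (hS : ∀ k, (S k).Nonempty) :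
    ∃ (Ω : Type) (_ : MeasurableSpace Ω) (μ : Measure Ω) (_ : IsProbabilityMeasure μ) (p : ℕ → Ω → ℕ),
      (∀ k ω, p k ω ∈ S k) ∧ iIndepFun p μ ∧
        ∀ k, ∀ q ∈ S k, μ.real {ω | p k ω = q} = 1 / ((S k).card : ℝ) := by
  classical
  haveI : ∀ k, Nonempty (S k) := fun k => (hS k).to_subtype
  letI : ∀ k, MeasurableSpace (S k) := fun k => ⊤
  haveI : ∀ k, MeasurableSingletonClass (S k) := fun k => ⟨fun _ => trivial⟩
  obtain ⟨ν, hν⟩ : ∃ ν : ∀ k, Measure (S k), ν = fun k => uniformOn Set.univ := ⟨_, rfl⟩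
  haveI : ∀ k, IsProbabilityMeasure (ν k) := by
    intro k
    rw [hν]
    infer_instance
  refine ⟨∀ k, S k, inferInstance, Measure.infinitePi ν, inferInstance, fun k ω => (ω k : ℕ), fun k ω => (ω k).2,
    iIndepFun_infinitePi (X := fun k (q : S k) => (q : ℕ)) fun k => measurable_from_top, fun k q hq => ?_⟩
  have h1 : {ω : ∀ k, S k | (ω k : ℕ) = q} = (fun ω => ω k) ⁻¹' {(⟨q, hq⟩ : S k)} := by
    ext ω
    simp only [Set.mem_setOf_eq, Set.mem_preimage, Set.mem_singleton_iff]
    exact ⟨fun h => Subtype.ext h, fun h => congrArg Subtype.val h⟩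
  have h2 : Measure.infinitePi ν ((fun ω => ω k) ⁻¹' {(⟨q, hq⟩ : S k)}) = ν k {(⟨q, hq⟩ : S k)} := by
    rw [← Measure.map_apply (measurable_pi_apply k) (MeasurableSet.singleton _), Measure.infinitePi_map_eval]
  rw [h1, measureReal_def, h2, hν]
  simp only [uniformOn_univ, Measure.count_singleton, Fintype.card_coe]
  rw [ENNReal.toReal_div]
  simp

end Run7.h683.MR
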