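import Pool.Agent.Run7.h683.AB.M5

/-!
# A lower bound for the nonzero integral combinations of numbers algebraic over `ℚ(z)`
-/

set_option autoImplicit false

namespace Run7.h683.MR

open Polynomial Matrix Run7.h683.AB

/-- a lower bound for the nonzero integral combinations of numbers algebraic over `ℚ(z)` (no independence) -/
theorem lin_measure' {z : ℝ} (hz : MT z) {r : ℕ} (x : Fin r → ℝ)
    (hx : ∀ i, IsAlgebraic (Algebra.adjoin ℤ ({z} : Set ℝ)) (x i)) :
    ∃ (κ : ℕ) (c : ℝ), 0 < c ∧ ∀ g : Option (Fin r) → ℤ, (g none : ℝ) + ∑ i, (g (some i) : ℝ) * x i ≠ 0 →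
      ∀ H : ℕ, 1 ≤ H → (∀ i, |g i| ≤ H) → c / (H : ℝ) ^ κ ≤ |(g none : ℝ) + ∑ i, (g (some i) : ℝ) * x i| := by
  classical
  obtain ⟨P, m, ω, N, hP, hω, hN⟩ := exists_matrices x hx
  obtain ⟨M, hM⟩ : ∃ M : Matrix (Fin m) (Fin m) (MvPolynomial (Option (Fin r)) ℤ[X]),
      M = Matrix.of fun j k => MvPolynomial.X none * MvPolynomial.C P * (if j = k then 1 else 0) +
        ∑ i, MvPolynomial.X (some i) * MvPolynomial.C (N i j k) := ⟨_, rfl⟩
  obtain ⟨F, hF⟩ : ∃ F : ℕ → MvPolynomial (Option (Fin r)) ℤ[X], F = fun k => M.charpoly.coeff k :=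
    ⟨_, rfl⟩
  obtain ⟨D, E, n, hb⟩ := mv_bound_fin m F
  obtain ⟨κ, c0, hc0, hmt⟩ := hz D
  obtain ⟨p, hp⟩ : ∃ p, p = |aeval z P| := ⟨_, rfl⟩
  have hp0 : 0 < p := by
    rw [hp]
    exact abs_pos.2 hP
  obtain ⟨U, hU⟩ : ∃ U : ℝ, U = (D + 1) * (E + 1) * (1 + |z|) ^ D := ⟨_, rfl⟩
  obtain ⟨V, hV⟩ : ∃ V : ℝ, V = p * (1 + ∑ i, |x i|) := ⟨_, rfl⟩
  have hU0 : 0 ≤ U := by rw [hU]; positivity
  have hV0 : 0 ≤ V := by rw [hV]; positivity
  refine ⟨n * κ + (n + 1) * (m + 1),
    c0 / (p * ((E + 1) ^ κ * ((m + 1) * (1 + U + V) ^ (m + 1)))), by positivity, ?_⟩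
  intro g hg H hH hgH
  have hH1 : (1 : ℝ) ≤ H := by exact_mod_cast hH
  obtain ⟨ev, hev⟩ : ∃ ev : MvPolynomial (Option (Fin r)) ℤ[X] →+* ℝ,
      ev = ((aeval z : ℤ[X] →ₐ[ℤ] ℝ) : ℤ[X] →+* ℝ).comp
        (MvPolynomial.eval (fun i => Polynomial.C (g i))) := ⟨_, rfl⟩
  have hevapp : ∀ q, ev q = aeval z (MvPolynomial.eval (fun i => Polynomial.C (g i)) q) := by
    intro q
    rw [hev]
    rfl
  obtain ⟨L, hL⟩ : ∃ L : ℝ, L = (g none : ℝ) + ∑ i, (g (some i) : ℝ) * x i := ⟨_, rfl⟩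
  have hL0 : L ≠ 0 := by rw [hL]; exact hg
  rw [← hL]
  -- the eigenvector
  have hAent : ∀ j k, (M.map ev) j k = (g none : ℝ) * aeval z P * (if j = k then 1 else 0) +
      ∑ i, (g (some i) : ℝ) * aeval z (N i j k) := by
    intro j k
    rw [Matrix.map_apply, hM, Matrix.of_apply, hevapp]
    simp only [map_add, map_mul, map_sum, MvPolynomial.eval_X, MvPolynomial.eval_C, aeval_C]
    congr 1
    · split_ifs <;> simp
  have heig : (M.map ev) *ᵥ ω = (aeval z P * L) • ω := by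
    funext j
    rw [Matrix.mulVec, dotProduct, Pi.smul_apply, smul_eq_mul]
    simp only [hAent]
    have h1 : ∀ k, ((g none : ℝ) * aeval z P * (if j = k then 1 else 0) +
        ∑ i, (g (some i) : ℝ) * aeval z (N i j k)) * ω k =
        (if j = k then (g none : ℝ) * aeval z P * ω k else 0) +
          ∑ i, (g (some i) : ℝ) * (aeval z (N i j k) * ω k) := by
      intro k
      rw [add_mul, Finset.sum_mul]
      congr 1
      · split_ifs <;> simp
      · exact Finset.sum_congr rfl fun i _ => by ring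
    simp only [h1]
    rw [Finset.sum_add_distrib, Finset.sum_ite_eq, if_pos (Finset.mem_univ _), Finset.sum_comm]
    have h2 : ∀ i, ∑ k, (g (some i) : ℝ) * (aeval z (N i j k) * ω k) =
        (g (some i) : ℝ) * ((aeval z P * x i) * ω j) := by
      intro i
      rw [← Finset.mul_sum, hN]
    simp only [h2]
    rw [hL, mul_add, add_mul, Finset.mul_sum, Finset.sum_mul]
    congr 1
    · ring
    · exact Finset.sum_congr rfl fun i _ => by ring
  have hroot : (M.map ev).charpoly.eval (aeval z P * L) = 0 := by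
    rw [Matrix.eval_charpoly, ← Matrix.exists_mulVec_eq_zero_iff]
    refine ⟨ω, hω, ?_⟩
    rw [Matrix.sub_mulVec, heig, Matrix.scalar_apply, sub_eq_zero]
    funext j
    simp [Matrix.mulVec_diagonal]
  obtain ⟨c, hc⟩ : ∃ c : ℕ → ℝ, c = fun k => (M.map ev).charpoly.coeff k := ⟨_, rfl⟩
  have hcF : ∀ k, c k = aeval z (MvPolynomial.eval (fun i => Polynomial.C (g i)) (F k)) := by
    intro k
    rw [hc, hF]
    simp only
    rw [Matrix.charpoly_map, coeff_map, hevapp]
  have hcm : c m = 1 := by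
    rw [hc]
    have h1 := Matrix.charpoly_monic (M.map ev)
    have h2 := Matrix.charpoly_natDegree_eq_dim (M.map ev)
    rw [Fintype.card_fin] at h2
    have h3 := h1.coeff_natDegree
    rw [h2] at h3
    exact h3
  have hsum : ∑ j ∈ Finset.range (m + 1), c j * (aeval z P * L) ^ j = 0 := by
    rw [eval_eq_sum_range, Matrix.charpoly_natDegree_eq_dim, Fintype.card_fin] at hroot
    rw [hc]
    exact hroot
  have hE0 : (0 : ℝ) ≤ E := Nat.cast_nonneg E
  have hHn : (1 : ℝ) ≤ (H : ℝ) ^ n := one_le_pow₀ hH1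
  have hcoef : ∀ k ≤ m, ∀ j,
      |(((MvPolynomial.eval (fun i => Polynomial.C (g i)) (F k)).coeff j : ℤ) : ℝ)| ≤
        (E + 1) * (H : ℝ) ^ n := by
    intro k hk j
    have h1 := (hb k hk g H hH hgH).2 j
    have h2 : |(((MvPolynomial.eval (fun i => Polynomial.C (g i)) (F k)).coeff j : ℤ) : ℝ)| ≤
        E * (H : ℝ) ^ n := by exact_mod_cast h1
    linarith
  have hbig : 1 ≤ ((E : ℝ) + 1) * (H : ℝ) ^ n := by nlinarith
  have hrb := root_bound m c (aeval z P * L) (c0 / ((E + 1) * (H : ℝ) ^ n) ^ κ)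
    ((1 + U + V) * (H : ℝ) ^ (n + 1)) (mul_ne_zero hP hL0) hcm (by
      intro j hj
      by_cases h0 : MvPolynomial.eval (fun i => Polynomial.C (g i)) (F j) = 0
      · left
        rw [hcF, h0, map_zero]
      · right
        rw [hcF, div_le_iff₀ (by positivity), mul_comm]
        exact hmt _ h0 (hb j hj g H hH hgH).1 _ hbig (hcoef j hj)) (by
      have h1 : (1 : ℝ) ≤ (H : ℝ) ^ (n + 1) := one_le_pow₀ hH1
      nlinarith) (by
      intro j hj
      rw [hcF]
      have h1 := aeval_le z _ D _ (hb j hj g H hH hgH).1 (hcoef j hj)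
      refine h1.trans ?_
      have h2 : (H : ℝ) ^ n ≤ (H : ℝ) ^ (n + 1) := pow_le_pow_right₀ hH1 (by omega)
      calc ((D : ℝ) + 1) * ((E + 1) * (H : ℝ) ^ n) * (1 + |z|) ^ D = U * (H : ℝ) ^ n := by
            rw [hU]; ring
        _ ≤ (1 + U + V) * (H : ℝ) ^ (n + 1) := by
            apply mul_le_mul _ h2 (by positivity) (by positivity)
            linarith) (by
      rw [abs_mul, ← hp]
      have h1 : |L| ≤ (1 + ∑ i, |x i|) * H := by
        rw [hL]
        refine (abs_add_le _ _).trans ?_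
        have h2 : |(g none : ℝ)| ≤ H := by exact_mod_cast hgH none
        have h3 : |∑ i, (g (some i) : ℝ) * x i| ≤ (∑ i, |x i|) * H := by
          refine (Finset.abs_sum_le_sum_abs _ _).trans ?_
          rw [Finset.sum_mul]
          refine Finset.sum_le_sum fun i _ => ?_
          rw [abs_mul, mul_comm]
          have h4 : |(g (some i) : ℝ)| ≤ H := by exact_mod_cast hgH (some i)
          gcongr
        linarith
      have h2 : (H : ℝ) ^ 1 ≤ (H : ℝ) ^ (n + 1) := pow_le_pow_right₀ hH1 (by omega)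
      rw [pow_one] at h2
      calc p * |L| ≤ p * ((1 + ∑ i, |x i|) * H) := by gcongr
        _ = V * H := by rw [hV]; ring
        _ ≤ (1 + U + V) * (H : ℝ) ^ (n + 1) := by
            apply mul_le_mul _ h2 (by positivity) (by positivity)
            linarith) hsum
  rw [abs_mul, ← hp, div_le_iff₀ (by positivity)] at hrb
  rw [div_div, div_le_iff₀ (by positivity)]
  refine hrb.trans (le_of_eq ?_)
  rw [mul_pow, mul_pow, ← pow_mul, ← pow_mul, pow_add]
  ring

end Run7.h683.MR
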