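import Pool.Agent.Run7.h683.MR.M
import Pool.Agent.Run7.h683.MR.Main

/-!
# Random products: at every place all but one of the members of a family of numbers are normal
-/

set_option autoImplicit false

namespace Run7.h683.MR

open Finset Filter Run7.h683.AB MeasureTheory ProbabilityTheory Topology
open Pool.Agent.Y957.VK (dz mn)

/-- the two numbers cannot be close to rational numbers at the same time -/
def Apart (y y' : ℝ) : Prop := ∃ (A : ℕ) (c : ℝ), 0 < c ∧ ∀ D D' : ℕ, 1 ≤ D → 1 ≤ D' →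
  c / ((D : ℝ) * D') ^ A ≤ dz (y * D) + dz (y' * D')

theorem Apart.ev {y y' : ℝ} (h : Apart y y') {a b : ℝ} (hab : a < b) (ha : 0 < a) (g g' : ℤ) (hg : g ≠ 0)
    (hg' : g' ≠ 0) : ∀ᶠ N : ℕ in atTop, ¬ (Near a b ((g : ℝ) * y) N ∧ Near a b ((g' : ℝ) * y') N) := by
  obtain ⟨A, c, hc, h⟩ := h
  obtain ⟨T, hT⟩ : ∃ T : ℝ, T = |(g : ℝ)| * |(g' : ℝ)| := ⟨_, rfl⟩
  have hT0 : 0 < T := by
    rw [hT]
    have h1 : (g : ℝ) ≠ 0 := by exact_mod_cast hg
    have h2 : (g' : ℝ) ≠ 0 := by exact_mod_cast hg'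
    positivity
  have e1 : ∀ᶠ N : ℕ in atTop, (2 * A + |Real.log (c / T ^ A / 2)|) * (N : ℝ) ^ a ≤ (N : ℝ) ^ b := evn (ev_lt hab _)
  filter_upwards [e1, eventually_ge_atTop 1] with N g1 g2
  rintro ⟨⟨D, hD1, hD2, hD3⟩, ⟨D', hD1', hD2', hD3'⟩⟩
  have hN1 : (1 : ℝ) ≤ N := by exact_mod_cast g2
  have hD0 : (0 : ℝ) < D := by exact_mod_cast hD1
  have hD0' : (0 : ℝ) < D' := by exact_mod_cast hD1'
  have hkey : ∀ (g : ℤ) (y : ℝ) (D : ℕ), dz (y * ((g.natAbs * D : ℕ) : ℝ)) = dz ((g : ℝ) * y * D) := by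
    intro g y D
    push_cast
    rw [Nat.cast_natAbs, Int.cast_abs]
    rcases abs_choice (g : ℝ) with h1 | h1
    · rw [h1]
      congr 1
      ring
    · rw [h1, ← dz_neg]
      congr 1
      ring
  have h1 := h (g.natAbs * D) (g'.natAbs * D') (Nat.mul_pos (Int.natAbs_pos.2 hg) hD1)
    (Nat.mul_pos (Int.natAbs_pos.2 hg') hD1')
  rw [hkey, hkey] at h1
  have h2 : ((g.natAbs * D : ℕ) : ℝ) * ((g'.natAbs * D' : ℕ) : ℝ) = T * (D * D') := by
    rw [hT]
    push_cast
    rw [Nat.cast_natAbs, Nat.cast_natAbs, Int.cast_abs, Int.cast_abs]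
    ring
  rw [h2] at h1
  have h3 : (D : ℝ) * D' ≤ Real.exp (2 * (N : ℝ) ^ a) := by
    calc (D : ℝ) * D' ≤ Real.exp ((N : ℝ) ^ a) * Real.exp ((N : ℝ) ^ a) := mul_le_mul hD2 hD2' hD0'.le (by positivity)
      _ = _ := by
          rw [← Real.exp_add]
          congr 1
          ring
  have h4 : c / (T * (D * D')) ^ A < 2 * Real.exp (-(N : ℝ) ^ b) := by linarith
  have h5 : c / T ^ A * Real.exp (-(A * (2 * (N : ℝ) ^ a))) ≤ c / (T * (D * D')) ^ A := by
    rw [mul_pow, ← div_div, Real.exp_neg, ← div_eq_mul_inv]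
    refine div_le_div_of_nonneg_left (by positivity) (by positivity) ?_
    rw [Real.exp_nat_mul]
    exact pow_le_pow_left₀ (by positivity) h3 A
  have h6 : c / T ^ A / 2 * Real.exp (-(A * (2 * (N : ℝ) ^ a))) < Real.exp (-(N : ℝ) ^ b) := by linarith
  have h7 : 0 < c / T ^ A / 2 := by positivity
  have h8 : c / T ^ A / 2 = Real.exp (Real.log (c / T ^ A / 2)) := (Real.exp_log h7).symm
  rw [h8, ← Real.exp_add, Real.exp_lt_exp] at h6
  have h9 : -|Real.log (c / T ^ A / 2)| ≤ Real.log (c / T ^ A / 2) := neg_abs_le _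
  have h10 : (1 : ℝ) ≤ (N : ℝ) ^ a := Real.one_le_rpow hN1 ha.le
  have h11 : 0 ≤ |Real.log (c / T ^ A / 2)| := abs_nonneg _
  nlinarith

/-- at every place all but one of the numbers have equidistributed words -/
theorem all_but_one.{u} {S : ℕ → Finset ℕ} {M : ℕ → ℕ} {θ Θ : ℝ} (G : Growth S M θ Θ) (Ω : Type u)
    [MeasurableSpace Ω] (μ : Measure Ω) [IsProbabilityMeasure μ] (p : ℕ → Ω → ℕ) (hp : Uniform μ S p)
    (m : ℕ) (y : Fin m → ℝ) (hy : ∀ i j, i ≠ j → Apart (y i) (y j)) :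
    ∀ᵐ ω ∂μ, ∀ (L : ℕ) (ε : ℝ), 0 < ε → ∀ᶠ N : ℕ in atTop, ∀ i j, i ≠ j →
      Words (fun k => p k ω) (fun _ : Fin 1 => y i) L N ε ∨ Words (fun k => p k ω) (fun _ : Fin 1 => y j) L N ε := by
  classical
  obtain ⟨a, b, c, ha, hab, hb, hc, hc1, h⟩ := ae_words.{u} G
  have h1 : ∀ᵐ ω ∂μ, ∀ i, ∀ (L : ℕ) (ε : ℝ), 0 < ε → ∃ H : ℕ, ∀ᶠ N : ℕ in atTop,
            (∀ g : Fin 1 → ℤ, g ≠ 0 → (∀ i, |g i| ≤ H) → ¬ Near a b (∑ k, (g k : ℝ) * y i) N) →
              Words (fun k => p k ω) (fun _ : Fin 1 => y i) L N ε := by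
    rw [ae_all_iff]
    intro i
    filter_upwards [h Ω μ p hp 1 (fun _ => y i)] with ω hω
    exact hω.2
  filter_upwards [h1] with ω hω
  intro L ε hε
  rw [Filter.eventually_all]
  intro i
  rw [Filter.eventually_all]
  intro j
  by_cases hij : i = j
  · exact Eventually.of_forall fun N h2 => absurd hij h2
  obtain ⟨H, hH⟩ := hω i L ε hε
  obtain ⟨H', hH'⟩ := hω j L ε hε
  have h2 : ∀ᶠ N : ℕ in atTop, ∀ g ∈ Finset.Icc (-(H : ℤ)) H, ∀ g' ∈ Finset.Icc (-(H' : ℤ)) H', g ≠ 0 → g' ≠ 0 →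
      ¬ (Near a b ((g : ℝ) * y i) N ∧ Near a b ((g' : ℝ) * y j) N) := by
    rw [Filter.eventually_all_finset]
    intro g _
    rw [Filter.eventually_all_finset]
    intro g' _
    by_cases hg : g = 0
    · exact Eventually.of_forall fun N h2 => absurd hg h2
    by_cases hg' : g' = 0
    · exact Eventually.of_forall fun N _ h2 => absurd hg' h2
    filter_upwards [(hy i j hij).ev hab ha g g' hg hg'] with N hN
    exact fun _ _ => hN
  filter_upwards [hH, hH', h2] with N k1 k2 k3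
  intro _
  by_cases h4 : ∀ g : Fin 1 → ℤ, g ≠ 0 → (∀ i, |g i| ≤ H) → ¬ Near a b (∑ k, (g k : ℝ) * y i) N
  · exact Or.inl (k1 h4)
  · right
    push Not at h4
    obtain ⟨g, hg, hgH, hnear⟩ := h4
    refine k2 fun g' hg' hgH' hnear' => ?_
    rw [Fin.sum_univ_one] at hnear hnear'
    have e1 : g 0 ≠ 0 := by
      intro h5
      apply hg
      funext k
      rw [Subsingleton.elim k 0, h5]
      rfl
    have e2 : g' 0 ≠ 0 := by
      intro h5
      apply hg'
      funext k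
      rw [Subsingleton.elim k 0, h5]
      rfl
    exact k3 (g 0) (Finset.mem_Icc.2 (abs_le.1 (hgH 0))) (g' 0) (Finset.mem_Icc.2 (abs_le.1 (hgH' 0))) e1 e2
      ⟨hnear, hnear'⟩

/-- `A + B t` and `A' + B' t` -/
theorem apart_affine {z : ℝ} (hz : MT z) (t A B A' B' : ℝ)
    (hA : IsAlgebraic (Algebra.adjoin ℤ ({z} : Set ℝ)) (A * B' - A' * B))
    (hB : IsAlgebraic (Algebra.adjoin ℤ ({z} : Set ℝ)) B) (hB' : IsAlgebraic (Algebra.adjoin ℤ ({z} : Set ℝ)) B')
    (h : ∀ u v w : ℤ, w ≠ 0 → (u : ℝ) * B' + v * B + w * (A * B' - A' * B) ≠ 0) : Apart (A + B * t) (A' + B' * t) := by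
  obtain ⟨κ, c, hc, hm⟩ := lin_measure' hz ![B', B, A * B' - A' * B] (by
    intro i
    fin_cases i
    · exact hB'
    · exact hB
    · exact hA)
  obtain ⟨y, hy⟩ : ∃ y, y = A + B * t := ⟨_, rfl⟩
  obtain ⟨y', hy'⟩ : ∃ y', y' = A' + B' * t := ⟨_, rfl⟩
  rw [← hy, ← hy']
  obtain ⟨W, hW⟩ : ∃ W : ℕ, W = ⌈2 + |y| + |y'|⌉₊ := ⟨_, rfl⟩
  have hW1 : 2 + |y| + |y'| ≤ W := by
    rw [hW]
    exact Nat.le_ceil _
  have hy0 : 0 ≤ |y| := abs_nonneg y
  have hy0' : 0 ≤ |y'| := abs_nonneg y'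
  have hW0 : (2 : ℝ) ≤ W := by linarith
  have hW0' : 1 ≤ W := by
    have : (1 : ℝ) ≤ W := by linarith
    exact_mod_cast this
  obtain ⟨R, hR⟩ : ∃ R : ℝ, R = 1 + |B| + |B'| := ⟨_, rfl⟩
  have hR0 : 0 < R := by
    rw [hR]
    positivity
  refine ⟨κ + 1, c / (W : ℝ) ^ κ / R, by positivity, fun D D' hD hD' => ?_⟩
  have hD0 : (1 : ℝ) ≤ D := by exact_mod_cast hD
  have hD0' : (1 : ℝ) ≤ D' := by exact_mod_cast hD'
  obtain ⟨m, hmdef⟩ : ∃ m : ℤ, m = round (y * D) := ⟨_, rfl⟩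
  obtain ⟨m', hmdef'⟩ : ∃ m' : ℤ, m' = round (y' * D') := ⟨_, rfl⟩
  have hδ : dz (y * D) = |y * D - m| := by rw [hmdef]; rfl
  have hδ' : dz (y' * D') = |y' * D' - m'| := by rw [hmdef']; rfl
  have hbm : ∀ (s : ℝ) (E : ℕ), 1 ≤ E → |((round (s * E) : ℤ) : ℝ)| ≤ (|s| + 1) * E := by
    intro s E hE
    have hE1 : (1 : ℝ) ≤ E := by exact_mod_cast hE
    have h1 := abs_sub_round (s * E)
    have h2 : ((round (s * E) : ℤ) : ℝ) = s * E - (s * E - round (s * E)) := by ring
    rw [h2]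
    refine (abs_sub _ _).trans ?_
    rw [abs_mul, Nat.abs_cast]
    nlinarith
  have h1 := hm (fun o => match o with
    | none => 0
    | some 0 => (D' : ℤ) * m
    | some 1 => -((D : ℤ) * m')
    | some 2 => -((D : ℤ) * D')) (by
      simp only [Fin.sum_univ_three]
      have h2 := h ((D' : ℤ) * m) (-((D : ℤ) * m')) (-((D : ℤ) * D')) (by
        have : (0 : ℤ) < (D : ℤ) * D' := by positivity
        omega)
      intro h3
      apply h2
      simpa using h3) (W * (D * D')) (Nat.mul_pos hW0' (Nat.mul_pos hD hD')) (by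
      intro o
      have hDD : (1 : ℝ) ≤ (D : ℝ) * D' := by nlinarith
      rcases o with _ | i
      · simp only [abs_zero]
        positivity
      · fin_cases i
        · have h2 := hbm y D hD
          rw [← hmdef] at h2
          have h3 : |(((D' : ℤ) * m : ℤ) : ℝ)| ≤ ((W * (D * D') : ℕ) : ℝ) := by
            push_cast
            rw [abs_mul, Nat.abs_cast]
            calc (D' : ℝ) * |(m : ℝ)| ≤ D' * ((|y| + 1) * D) := by gcongr
              _ = (|y| + 1) * (D * D') := by ring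
              _ ≤ W * (D * D') := by
                  gcongr
                  linarith
          exact_mod_cast h3
        · have h2 := hbm y' D' hD'
          rw [← hmdef'] at h2
          have h3 : |((-((D : ℤ) * m') : ℤ) : ℝ)| ≤ ((W * (D * D') : ℕ) : ℝ) := by
            push_cast
            rw [abs_neg, abs_mul, Nat.abs_cast]
            calc (D : ℝ) * |(m' : ℝ)| ≤ D * ((|y'| + 1) * D') := by gcongr
              _ = (|y'| + 1) * (D * D') := by ring
              _ ≤ W * (D * D') := by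
                  gcongr
                  linarith
          exact_mod_cast h3
        · have h3 : |((-((D : ℤ) * D') : ℤ) : ℝ)| ≤ ((W * (D * D') : ℕ) : ℝ) := by
            push_cast
            rw [abs_neg, abs_mul, Nat.abs_cast, Nat.abs_cast]
            nlinarith
          exact_mod_cast h3)
  simp only [Fin.sum_univ_three] at h1
  have h2 : ((0 : ℤ) : ℝ) + ((((D' : ℤ) * m : ℤ) : ℝ) * B' + ((-((D : ℤ) * m') : ℤ) : ℝ) * B +
      ((-((D : ℤ) * D') : ℤ) : ℝ) * (A * B' - A' * B)) = B * D * (y' * D' - m') - B' * D' * (y * D - m) := by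
    rw [hy, hy']
    push_cast
    ring
  have h3 : c / ((W * (D * D') : ℕ) : ℝ) ^ κ ≤ |B * D * (y' * D' - m') - B' * D' * (y * D - m)| := by
    rw [← h2]
    simpa using h1
  have h4 : |B * D * (y' * D' - m') - B' * D' * (y * D - m)| ≤ R * (D * D') * (dz (y * D) + dz (y' * D')) := by
    rw [hδ, hδ']
    refine (abs_sub _ _).trans ?_
    rw [abs_mul, abs_mul, abs_mul, abs_mul, Nat.abs_cast, Nat.abs_cast]
    have k1 : 0 ≤ |y' * D' - m'| := abs_nonneg _
    have k2 : 0 ≤ |y * D - m| := abs_nonneg _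
    have k3 : 0 ≤ |B| := abs_nonneg _
    have k4 : 0 ≤ |B'| := abs_nonneg _
    have k5 : |B| * D ≤ R * (D * D') := by
      rw [hR]
      calc |B| * D ≤ |B| * (D * D') := by
            gcongr
            exact le_mul_of_one_le_right (by positivity) hD0'
        _ ≤ (1 + |B| + |B'|) * (D * D') := by
            gcongr
            linarith
    have k6 : |B'| * D' ≤ R * (D * D') := by
      rw [hR]
      calc |B'| * D' ≤ |B'| * (D * D') := by
            gcongr
            exact le_mul_of_one_le_left (by positivity) hD0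
        _ ≤ (1 + |B| + |B'|) * (D * D') := by
            gcongr
            linarith
    calc |B| * D * |y' * D' - m'| + |B'| * D' * |y * D - m| ≤
        R * (D * D') * |y' * D' - m'| + R * (D * D') * |y * D - m| := by gcongr
      _ = _ := by ring
  have h5 := h3.trans h4
  have h6 : (0 : ℝ) < D * D' := by positivity
  push_cast at h5
  rw [mul_pow, ← div_div, div_le_iff₀ (by positivity)] at h5
  rw [div_div, div_le_iff₀ (by positivity), pow_succ]
  calc c / (W : ℝ) ^ κ ≤ _ := h5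
    _ = _ := by ring

/-- `B t` and `B' t`, `t ≠ 0` -/
theorem apart_mul {z : ℝ} (hz : MT z) (t B B' : ℝ) (ht : t ≠ 0)
    (hB : IsAlgebraic (Algebra.adjoin ℤ ({z} : Set ℝ)) B) (hB' : IsAlgebraic (Algebra.adjoin ℤ ({z} : Set ℝ)) B')
    (h : ∀ u v : ℤ, u ≠ 0 → (u : ℝ) * B' + v * B ≠ 0) (hB0 : B ≠ 0) : Apart (B * t) (B' * t) := by
  obtain ⟨κ, c, hc, hm⟩ := lin_measure' hz ![B', B] (by
    intro i
    fin_cases i
    · exact hB'
    · exact hB)
  obtain ⟨y, hy⟩ : ∃ y, y = B * t := ⟨_, rfl⟩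
  obtain ⟨y', hy'⟩ : ∃ y', y' = B' * t := ⟨_, rfl⟩
  rw [← hy, ← hy']
  have hyne : 0 < |y| := by
    rw [hy]
    exact abs_pos.2 (mul_ne_zero hB0 ht)
  obtain ⟨W, hW⟩ : ∃ W : ℕ, W = ⌈2 + |y| + |y'|⌉₊ := ⟨_, rfl⟩
  have hW1 : 2 + |y| + |y'| ≤ W := by
    rw [hW]
    exact Nat.le_ceil _
  have hy0 : 0 ≤ |y| := abs_nonneg y
  have hy0' : 0 ≤ |y'| := abs_nonneg y'
  have hW0 : (2 : ℝ) ≤ W := by linarith
  have hW0' : 1 ≤ W := by
    have : (1 : ℝ) ≤ W := by linarith
    exact_mod_cast this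
  obtain ⟨R, hR⟩ : ∃ R : ℝ, R = 1 + |B| + |B'| := ⟨_, rfl⟩
  have hR0 : 0 < R := by
    rw [hR]
    positivity
  obtain ⟨c', hc'⟩ : ∃ c' : ℝ, c' = min |y| (c / (W : ℝ) ^ κ / R) := ⟨_, rfl⟩
  refine ⟨κ + 1, c', by rw [hc']; exact lt_min hyne (by positivity), fun D D' hD hD' => ?_⟩
  have hD0 : (1 : ℝ) ≤ D := by exact_mod_cast hD
  have hD0' : (1 : ℝ) ≤ D' := by exact_mod_cast hD'
  have hDD : (1 : ℝ) ≤ (D : ℝ) * D' := by nlinarith
  obtain ⟨m, hmdef⟩ : ∃ m : ℤ, m = round (y * D) := ⟨_, rfl⟩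
  obtain ⟨m', hmdef'⟩ : ∃ m' : ℤ, m' = round (y' * D') := ⟨_, rfl⟩
  have hδ : dz (y * D) = |y * D - m| := by rw [hmdef]; rfl
  have hδ' : dz (y' * D') = |y' * D' - m'| := by rw [hmdef']; rfl
  by_cases hm0 : m = 0
  · have h1 : |y| ≤ dz (y * D) := by
      rw [hδ, hm0, Int.cast_zero, sub_zero, abs_mul, Nat.abs_cast]
      exact le_mul_of_one_le_right hy0 hD0
    have h2 : c' / ((D : ℝ) * D') ^ (κ + 1) ≤ c' := by
      refine div_le_self ?_ (one_le_pow₀ hDD)
      rw [hc']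
      exact le_min hy0 (by positivity)
    have h3 : c' ≤ |y| := by rw [hc']; exact min_le_left _ _
    have h4 := dz_nonneg (y' * D')
    linarith
  have hbm : ∀ (s : ℝ) (E : ℕ), 1 ≤ E → |((round (s * E) : ℤ) : ℝ)| ≤ (|s| + 1) * E := by
    intro s E hE
    have hE1 : (1 : ℝ) ≤ E := by exact_mod_cast hE
    have h1 := abs_sub_round (s * E)
    have h2 : ((round (s * E) : ℤ) : ℝ) = s * E - (s * E - round (s * E)) := by ring
    rw [h2]
    refine (abs_sub _ _).trans ?_
    rw [abs_mul, Nat.abs_cast]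
    nlinarith
  have h1 := hm (fun o => match o with
    | none => 0
    | some 0 => (D' : ℤ) * m
    | some 1 => -((D : ℤ) * m')) (by
      simp only [Fin.sum_univ_two]
      have h2 := h ((D' : ℤ) * m) (-((D : ℤ) * m')) (by
        have h3 : (D' : ℤ) ≠ 0 := by omega
        exact mul_ne_zero h3 hm0)
      intro h3
      apply h2
      simpa using h3) (W * (D * D')) (Nat.mul_pos hW0' (Nat.mul_pos hD hD')) (by
      intro o
      rcases o with _ | i
      · simp only [abs_zero]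
        positivity
      · fin_cases i
        · have h2 := hbm y D hD
          rw [← hmdef] at h2
          have h3 : |(((D' : ℤ) * m : ℤ) : ℝ)| ≤ ((W * (D * D') : ℕ) : ℝ) := by
            push_cast
            rw [abs_mul, Nat.abs_cast]
            calc (D' : ℝ) * |(m : ℝ)| ≤ D' * ((|y| + 1) * D) := by gcongr
              _ = (|y| + 1) * (D * D') := by ring
              _ ≤ W * (D * D') := by
                  gcongr
                  linarith
          exact_mod_cast h3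
        · have h2 := hbm y' D' hD'
          rw [← hmdef'] at h2
          have h3 : |((-((D : ℤ) * m') : ℤ) : ℝ)| ≤ ((W * (D * D') : ℕ) : ℝ) := by
            push_cast
            rw [abs_neg, abs_mul, Nat.abs_cast]
            calc (D : ℝ) * |(m' : ℝ)| ≤ D * ((|y'| + 1) * D') := by gcongr
              _ = (|y'| + 1) * (D * D') := by ring
              _ ≤ W * (D * D') := by
                  gcongr
                  linarith
          exact_mod_cast h3)
  simp only [Fin.sum_univ_two] at h1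
  have h2 : ((0 : ℤ) : ℝ) + ((((D' : ℤ) * m : ℤ) : ℝ) * B' + ((-((D : ℤ) * m') : ℤ) : ℝ) * B) =
      B * D * (y' * D' - m') - B' * D' * (y * D - m) := by
    rw [hy, hy']
    push_cast
    ring
  have h3 : c / ((W * (D * D') : ℕ) : ℝ) ^ κ ≤ |B * D * (y' * D' - m') - B' * D' * (y * D - m)| := by
    rw [← h2]
    simpa using h1
  have h4 : |B * D * (y' * D' - m') - B' * D' * (y * D - m)| ≤ R * (D * D') * (dz (y * D) + dz (y' * D')) := by
    rw [hδ, hδ']
    refine (abs_sub _ _).trans ?_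
    rw [abs_mul, abs_mul, abs_mul, abs_mul, Nat.abs_cast, Nat.abs_cast]
    have k1 : 0 ≤ |y' * D' - m'| := abs_nonneg _
    have k2 : 0 ≤ |y * D - m| := abs_nonneg _
    have k3 : 0 ≤ |B| := abs_nonneg _
    have k4 : 0 ≤ |B'| := abs_nonneg _
    have k5 : |B| * D ≤ R * (D * D') := by
      rw [hR]
      calc |B| * D ≤ |B| * (D * D') := by
            gcongr
            exact le_mul_of_one_le_right (by positivity) hD0'
        _ ≤ (1 + |B| + |B'|) * (D * D') := by
            gcongr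
            linarith
    have k6 : |B'| * D' ≤ R * (D * D') := by
      rw [hR]
      calc |B'| * D' ≤ |B'| * (D * D') := by
            gcongr
            exact le_mul_of_one_le_left (by positivity) hD0
        _ ≤ (1 + |B| + |B'|) * (D * D') := by
            gcongr
            linarith
    calc |B| * D * |y' * D' - m'| + |B'| * D' * |y * D - m| ≤
        R * (D * D') * |y' * D' - m'| + R * (D * D') * |y * D - m| := by gcongr
      _ = _ := by ring
  have h5 := h3.trans h4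
  have h6 : (0 : ℝ) < D * D' := by positivity
  push_cast at h5
  rw [mul_pow, ← div_div, div_le_iff₀ (by positivity)] at h5
  have h7 : c' ≤ c / (W : ℝ) ^ κ / R := by rw [hc']; exact min_le_right _ _
  refine (div_le_div_of_nonneg_right h7 (by positivity)).trans ?_
  rw [div_div, div_le_iff₀ (by positivity), pow_succ]
  calc c / (W : ℝ) ^ κ ≤ _ := h5
    _ = _ := by ring

end Run7.h683.MR
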