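import Pool.Agent.Run7.h683.MR.P

/-!
# Random products: at every place the exceptional combinations are on one line
-/

set_option autoImplicit false

namespace Run7.h683.MR

open Finset Filter Run7.h683.AB MeasureTheory ProbabilityTheory Topology
open Pool.Agent.Y957.VK (dz mn)

/-- the integral vectors `g` and `g'` are not proportional -/
def Indep2 {s : ℕ} (g g' : Fin s → ℤ) : Prop := ∀ a b : ℤ, (∀ i, a * g i = b * g' i) → a = 0 ∧ b = 0

/-- the integral vectors `f j` are linearly independent modulo the line through `g` -/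
def IndepMod {s m : ℕ} (g : Fin s → ℤ) (f : Fin m → Fin s → ℤ) : Prop :=
  ∀ (c : Fin m → ℤ) (a : ℤ), (∀ i, ∑ j, c j * f j i = a * g i) → c = 0

theorem Apart.ev' {y y' : ℝ} (h : Apart y y') {a b : ℝ} (hab : a < b) (ha : 0 < a) :
    ∀ᶠ N : ℕ in atTop, ¬ (Near a b y N ∧ Near a b y' N) := by
  have := h.ev hab ha 1 1 one_ne_zero one_ne_zero
  simpa using this

/-- at all places `N` all tuples of linearly independent integral combinations of the numbers `y i` are jointly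
equidistributed up to `N`, or all those which are linearly independent modulo one line; this line is spanned by an
integral combination with coefficients `≤ exp (N ^ a)`, which is closer to an integer than `exp (- N ^ b)` -/
def OneLine (a b : ℝ) (v : ℕ → ℕ) {s : ℕ} (y : Fin s → ℝ) : Prop :=
  ∀ (m L H : ℕ) (ε : ℝ), 0 < ε → ∀ᶠ N : ℕ in atTop,
    (∀ f : Fin m → Fin s → ℤ, (∀ j i, |f j i| ≤ H) → IndepMod 0 f →
      Words v (fun j => ∑ i, (f j i : ℝ) * y i) L N ε) ∨
    ∃ g : Fin s → ℤ, g ≠ 0 ∧ (∀ i, |(g i : ℝ)| ≤ Real.exp ((N : ℝ) ^ a)) ∧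
      dz (∑ i, (g i : ℝ) * y i) < Real.exp (-(N : ℝ) ^ b) ∧
      ∀ f : Fin m → Fin s → ℤ, (∀ j i, |f j i| ≤ H) → IndepMod g f →
        Words v (fun j => ∑ i, (f j i : ℝ) * y i) L N ε

theorem one_line.{u} {S : ℕ → Finset ℕ} {M : ℕ → ℕ} {θ Θ : ℝ} (G : Growth S M θ Θ) :
    ∃ a b : ℝ, 0 < a ∧ a < b ∧ b < 1 ∧ ∀ (Ω : Type u) [MeasurableSpace Ω] (μ : Measure Ω) [IsProbabilityMeasure μ]
      (p : ℕ → Ω → ℕ), Uniform μ S p → ∀ (s : ℕ) (y : Fin s → ℝ),
      (∀ g g' : Fin s → ℤ, Indep2 g g' → Apart (∑ i, (g i : ℝ) * y i) (∑ i, (g' i : ℝ) * y i)) →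
        ∀ᵐ ω ∂μ, OneLine a b (fun k => p k ω) y := by
  classical
  obtain ⟨a, b, c, ha, hab, hb, hc, hc1, h⟩ := ae_words.{u} G
  obtain ⟨a', ha'⟩ : ∃ a' : ℝ, a' = (a + b) / 2 := ⟨_, rfl⟩
  refine ⟨a', b, by rw [ha']; linarith, by rw [ha']; linarith, hb, ?_⟩
  intro Ω _ μ _ p hp s y hy
  have h1 : ∀ᵐ ω ∂μ, ∀ (m : ℕ) (f : Fin m → Fin s → ℤ), ∀ (L : ℕ) (ε : ℝ), 0 < ε → ∃ H : ℕ,
      ∀ᶠ N : ℕ in atTop, (∀ c : Fin m → ℤ, c ≠ 0 → (∀ j, |c j| ≤ H) →
        ¬ Near a b (∑ j, (c j : ℝ) * ∑ i, (f j i : ℝ) * y i) N) →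
          Words (fun k => p k ω) (fun j => ∑ i, (f j i : ℝ) * y i) L N ε := by
    rw [ae_all_iff]
    intro m
    rw [ae_all_iff]
    intro f
    filter_upwards [h Ω μ p hp m (fun j => ∑ i, (f j i : ℝ) * y i)] with ω hω
    exact hω.2
  filter_upwards [h1] with ω hω
  intro m L H ε hε
  obtain ⟨F, hF⟩ : ∃ F : Finset (Fin m → Fin s → ℤ), F = Fintype.piFinset fun _ =>
    Fintype.piFinset fun _ => Finset.Icc (-(H : ℤ)) H := ⟨_, rfl⟩
  have hFmem : ∀ f : Fin m → Fin s → ℤ, f ∈ F ↔ ∀ j i, |f j i| ≤ H := by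
    intro f
    rw [hF, Fintype.mem_piFinset]
    refine forall_congr' fun j => ?_
    rw [Fintype.mem_piFinset]
    refine forall_congr' fun i => ?_
    rw [Finset.mem_Icc]
    exact abs_le.symm
  have h2 : ∀ f : Fin m → Fin s → ℤ, ∃ H' : ℕ, ∀ᶠ N : ℕ in atTop,
      (∀ c : Fin m → ℤ, c ≠ 0 → (∀ j, |c j| ≤ H') → ¬ Near a b (∑ j, (c j : ℝ) * ∑ i, (f j i : ℝ) * y i) N) →
          Words (fun k => p k ω) (fun j => ∑ i, (f j i : ℝ) * y i) L N ε := fun f => hω m f L ε hε
  choose H' hH' using h2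
  obtain ⟨W, hW⟩ : ∃ W : ℕ, W = F.sup H' := ⟨_, rfl⟩
  have hWle : ∀ f ∈ F, H' f ≤ W := by
    intro f hf
    rw [hW]
    exact Finset.le_sup hf
  obtain ⟨R, hR⟩ : ∃ R : ℕ, R = m * (W * H) := ⟨_, rfl⟩
  obtain ⟨B, hB⟩ : ∃ B : Finset (Fin s → ℤ), B = Fintype.piFinset fun _ => Finset.Icc (-(R : ℤ)) R :=
    ⟨_, rfl⟩
  have e1 : ∀ᶠ N : ℕ in atTop, ∀ g ∈ B, ∀ g' ∈ B, Indep2 g g' →
      ¬ (Near a b (∑ i, (g i : ℝ) * y i) N ∧ Near a b (∑ i, (g' i : ℝ) * y i) N) := by
    rw [Filter.eventually_all_finset]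
    intro g _
    rw [Filter.eventually_all_finset]
    intro g' _
    by_cases hg : Indep2 g g'
    · filter_upwards [(hy g g' hg).ev' hab ha] with N hN
      exact fun _ => hN
    · exact Eventually.of_forall fun N h3 => absurd h3 hg
  have e2 : ∀ᶠ N : ℕ in atTop, ∀ f ∈ F, (∀ c : Fin m → ℤ, c ≠ 0 → (∀ j, |c j| ≤ H' f) →
      ¬ Near a b (∑ j, (c j : ℝ) * ∑ i, (f j i : ℝ) * y i) N) →
          Words (fun k => p k ω) (fun j => ∑ i, (f j i : ℝ) * y i) L N ε := by
    rw [Filter.eventually_all_finset]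
    intro f _
    exact hH' f
  have hcomb : ∀ (f : Fin m → Fin s → ℤ) (c : Fin m → ℤ),
      ∑ j, (c j : ℝ) * ∑ i, (f j i : ℝ) * y i = ∑ i, ((∑ j, c j * f j i : ℤ) : ℝ) * y i := by
    intro f c
    simp only [Finset.mul_sum]
    rw [Finset.sum_comm]
    refine Finset.sum_congr rfl fun i _ => ?_
    push_cast
    rw [Finset.sum_mul]
    refine Finset.sum_congr rfl fun j _ => ?_
    ring
  have hin : ∀ f ∈ F, ∀ c : Fin m → ℤ, (∀ j, |c j| ≤ H' f) → (fun i => ∑ j, c j * f j i) ∈ B := by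
    intro f hf c hcH
    rw [hB, Fintype.mem_piFinset]
    intro i
    rw [Finset.mem_Icc, ← abs_le]
    refine (Finset.abs_sum_le_sum_abs _ _).trans ?_
    refine (Finset.sum_le_sum (g := fun _ => ((W : ℤ) * H)) fun j _ => ?_).trans (le_of_eq ?_)
    · rw [abs_mul]
      have h3 : |c j| ≤ (W : ℤ) := (hcH j).trans (by exact_mod_cast hWle f hf)
      exact mul_le_mul h3 ((hFmem f).1 hf j i) (abs_nonneg _) (by positivity)
    · rw [Finset.sum_const, Finset.card_univ, Fintype.card_fin, hR, nsmul_eq_mul]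
      push_cast
      ring
  have e3 : ∀ᶠ N : ℕ in atTop, (1 + |Real.log (R + 1)|) * (N : ℝ) ^ a ≤ (N : ℝ) ^ a' :=
    evn (ev_lt (by rw [ha']; linarith) _)
  filter_upwards [e1, e2, e3, eventually_ge_atTop 1] with N g1 g2 g3 g4
  by_cases hcase : ∃ g ∈ B, g ≠ 0 ∧ Near a b (∑ i, (g i : ℝ) * y i) N
  · right
    obtain ⟨g, hgB, hg0, hgN⟩ := hcase
    have hgN' := hgN
    obtain ⟨D, hD1, hD2, hD3⟩ := hgN'
    have hD0 : (D : ℤ) ≠ 0 := by omega
    refine ⟨fun i => g i * D, fun h3 => hg0 ?_, fun i => ?_, ?_, fun f hfH hf => ?_⟩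
    · funext i
      have h4 := congrFun h3 i
      simp only [Pi.zero_apply, mul_eq_zero] at h4
      exact h4.resolve_right hD0
    · have hN1 : (1 : ℝ) ≤ N := by exact_mod_cast g4
      have h3 : |(g i : ℝ)| ≤ R := by
        rw [hB, Fintype.mem_piFinset] at hgB
        have h4 := abs_le.2 (Finset.mem_Icc.1 (hgB i))
        exact_mod_cast h4
      have hR0 : (0 : ℝ) ≤ R := by positivity
      have h5 : (R : ℝ) ≤ Real.exp (|Real.log (R + 1)|) := by
        have h6 : (R : ℝ) + 1 = Real.exp (Real.log (R + 1)) := (Real.exp_log (by positivity)).symm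
        have h7 : Real.exp (Real.log (R + 1)) ≤ Real.exp (|Real.log (R + 1)|) := Real.exp_le_exp.2 (le_abs_self _)
        linarith
      have h8 : (1 : ℝ) ≤ (N : ℝ) ^ a := Real.one_le_rpow hN1 ha.le
      push_cast
      rw [abs_mul, Nat.abs_cast]
      calc |(g i : ℝ)| * D ≤ Real.exp (|Real.log (R + 1)|) * Real.exp ((N : ℝ) ^ a) :=
            mul_le_mul (h3.trans h5) hD2 (by positivity) (by positivity)
        _ = Real.exp (|Real.log (R + 1)| + (N : ℝ) ^ a) := (Real.exp_add _ _).symm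
        _ ≤ Real.exp ((N : ℝ) ^ a') := by
            refine Real.exp_le_exp.2 (le_trans ?_ g3)
            have : 0 ≤ |Real.log (R + 1)| := abs_nonneg _
            nlinarith
    · have h3 : ∑ i, ((g i * D : ℤ) : ℝ) * y i = (∑ i, (g i : ℝ) * y i) * D := by
        rw [Finset.sum_mul]
        refine Finset.sum_congr rfl fun i _ => ?_
        push_cast
        ring
      rw [h3]
      exact hD3
    · have hfF := (hFmem f).2 hfH
      refine g2 f hfF fun c hc0 hcH hnear => ?_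
      rw [hcomb] at hnear
      refine g1 _ (hin f hfF c hcH) g hgB (fun a' b' hab' => ?_) ⟨hnear, hgN⟩
      have h3 : (fun j => (a' * D) * c j) = 0 := hf (fun j => (a' * D) * c j) b' fun i => by
        have h4 := hab' i
        have h5 : ∑ j, (a' * D) * c j * f j i = D * (a' * ∑ j, c j * f j i) := by
          rw [Finset.mul_sum, Finset.mul_sum]
          exact Finset.sum_congr rfl fun j _ => by ring
        rw [h5, h4]
        ring
      have h4 : a' = 0 := by
        by_contra h5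
        apply hc0
        funext j
        have h6 := congrFun h3 j
        simp only [Pi.zero_apply, mul_eq_zero] at h6
        rcases h6 with (h6 | h6) | h6
        · exact absurd h6 h5
        · exact absurd h6 hD0
        · exact h6
      refine ⟨h4, ?_⟩
      obtain ⟨i, hi⟩ := Function.ne_iff.1 hg0
      have h5 := hab' i
      rw [h4, zero_mul] at h5
      exact (mul_eq_zero.1 h5.symm).resolve_right hi
  · left
    intro f hfH hf
    have hfF := (hFmem f).2 hfH
    refine g2 f hfF fun c hc0 hcH hnear => ?_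
    rw [hcomb] at hnear
    refine hcase ⟨_, hin f hfF c hcH, fun h3 => ?_, hnear⟩
    apply hc0
    exact hf c 0 fun i => by
      rw [zero_mul]
      exact congrFun h3 i

theorem Indep2.left_ne {s : ℕ} {g g' : Fin s → ℤ} (h : Indep2 g g') : g ≠ 0 := by
  rintro rfl
  have := (h 1 0 fun i => by simp).1
  exact one_ne_zero this

/-- an integral combination -/
theorem alg_comb {z : ℝ} {s : ℕ} {β : Fin s → ℝ}
    (hβ : ∀ i, IsAlgebraic (Algebra.adjoin ℤ ({z} : Set ℝ)) (β i)) (g : Fin s → ℤ) :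
    IsAlgebraic (Algebra.adjoin ℤ ({z} : Set ℝ)) (∑ i, (g i : ℝ) * β i) := by
  classical
  have h : ∀ T : Finset (Fin s), IsAlgebraic (Algebra.adjoin ℤ ({z} : Set ℝ)) (∑ i ∈ T, (g i : ℝ) * β i) := by
    intro T
    induction T using Finset.induction_on with
    | empty =>
      rw [Finset.sum_empty]
      exact isAlgebraic_zero
    | insert a T ha ih =>
      rw [Finset.sum_insert ha]
      exact ((isAlgebraic_int (g a)).mul (hβ a)).add ih
  exact h _

/-- `ℚ`-linear independence of real numbers, with integral coefficients -/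
def IndepZ {s : ℕ} (β : Fin s → ℝ) : Prop := ∀ g : Fin s → ℤ, ∑ i, (g i : ℝ) * β i = 0 → g = 0

/-- the numbers `β_i t` -/
theorem apart_of_mul {z : ℝ} (hz : MT z) {t : ℝ} (ht : t ≠ 0) {s : ℕ} {β : Fin s → ℝ}
    (hβ : ∀ i, IsAlgebraic (Algebra.adjoin ℤ ({z} : Set ℝ)) (β i)) (hi : IndepZ β) (g g' : Fin s → ℤ)
    (hg : Indep2 g g') : Apart (∑ i, (g i : ℝ) * (β i * t)) (∑ i, (g' i : ℝ) * (β i * t)) := by
  have h1 : ∀ g : Fin s → ℤ, ∑ i, (g i : ℝ) * (β i * t) = (∑ i, (g i : ℝ) * β i) * t := by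
    intro g
    rw [Finset.sum_mul]
    exact Finset.sum_congr rfl fun i _ => by ring
  rw [h1, h1]
  refine apart_mul hz t _ _ ht (alg_comb hβ g) (alg_comb hβ g') (fun u v hu h2 => ?_) (fun h2 => ?_)
  · have h3 := hi (fun i => u * g' i + v * g i) (by
      rw [← h2, Finset.mul_sum, Finset.mul_sum, ← Finset.sum_add_distrib]
      refine Finset.sum_congr rfl fun i _ => ?_
      push_cast
      ring)
    have h4 := hg v (-u) fun i => by
      have := congrFun h3 i
      simp only [Pi.zero_apply] at this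
      linarith
    exact hu (by simpa using h4.2)
  · exact hg.left_ne (hi g h2)

/-- all families `β_i t` with `β_i` algebraic over `ℚ(z)` at once -/
theorem one_line_mul {a b : ℝ} {Ω : Type*} [MeasurableSpace Ω] (μ : Measure Ω) (p : ℕ → Ω → ℕ)
    (h : ∀ (s : ℕ) (y : Fin s → ℝ),
      (∀ g g' : Fin s → ℤ, Indep2 g g' → Apart (∑ i, (g i : ℝ) * y i) (∑ i, (g' i : ℝ) * y i)) →
        ∀ᵐ ω ∂μ, OneLine a b (fun k => p k ω) y) {z : ℝ} (hz : MT z) {t : ℝ} (ht : t ≠ 0) :
    ∀ᵐ ω ∂μ, ∀ (s : ℕ) (β : Fin s → ℝ), (∀ i, IsAlgebraic (Algebra.adjoin ℤ ({z} : Set ℝ)) (β i)) →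
      IndepZ β → OneLine a b (fun k => p k ω) (fun i => β i * t) := by
  have hcz : Countable (Algebra.adjoin ℤ ({z} : Set ℝ)) := by
    have h0 : Countable (Polynomial ℤ) :=
      Cardinal.mk_le_aleph0_iff.1 (Polynomial.cardinalMk_le_max.trans (by simp))
    rw [Algebra.adjoin_singleton_eq_range_aeval]
    exact Set.countable_range _
  have hc : Countable {x : ℝ // IsAlgebraic (Algebra.adjoin ℤ ({z} : Set ℝ)) x} :=
    (Algebraic.countable (Algebra.adjoin ℤ ({z} : Set ℝ)) ℝ).to_subtype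
  have h1 : ∀ᵐ ω ∂μ, ∀ (s : ℕ) (β : Fin s → {x : ℝ // IsAlgebraic (Algebra.adjoin ℤ ({z} : Set ℝ)) x}),
      IndepZ (fun i => (β i : ℝ)) → OneLine a b (fun k => p k ω) (fun i => (β i : ℝ) * t) := by
    rw [ae_all_iff]
    intro s
    rw [ae_all_iff]
    intro β
    by_cases hβ : IndepZ (fun i => (β i : ℝ))
    · filter_upwards [h s (fun i => (β i : ℝ) * t)
        (fun g g' hg => apart_of_mul hz ht (fun i => (β i).2) hβ g g' hg)] with ω hω
      exact fun _ => hω
    · exact Eventually.of_forall fun ω h2 => absurd h2 hβ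
  filter_upwards [h1] with ω hω
  intro s β hβ hi
  exact hω s (fun i => ⟨β i, hβ i⟩) hi

/-- a number with a measure of irrationality is apart from every number -/
theorem apart_of_pow {y y' c : ℝ} {A : ℕ} (hc : 0 < c) (h : ∀ D : ℕ, 1 ≤ D → c / (D : ℝ) ^ A ≤ dz (y * D)) :
    Apart y y' := by
  refine ⟨A, c, hc, fun D D' hD hD' => ?_⟩
  have h1 := h D hD
  have h2 := dz_nonneg (y' * D')
  have hD0 : (1 : ℝ) ≤ D := by exact_mod_cast hD
  have hD0' : (1 : ℝ) ≤ D' := by exact_mod_cast hD'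
  have h3 : c / ((D : ℝ) * D') ^ A ≤ c / (D : ℝ) ^ A := by
    refine div_le_div_of_nonneg_left hc.le (by positivity) ?_
    refine pow_le_pow_left₀ (by positivity) ?_ A
    nlinarith
  linarith

theorem apart_symm {y y' : ℝ} (h : Apart y y') : Apart y' y := by
  obtain ⟨A, c, hc, h⟩ := h
  refine ⟨A, c, hc, fun D D' hD hD' => ?_⟩
  have := h D' D hD' hD
  rw [mul_comm (D : ℝ) D', add_comm]
  exact this

end Run7.h683.MR
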