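import Pool.Agent.Run7.h683.MR.Q

/-!
# Random products: all numbers but one are jointly equidistributed; linear forms in one unknown number
-/

set_option autoImplicit false

namespace Run7.h683.MR

open Finset Filter Run7.h683.AB MeasureTheory ProbabilityTheory Topology
open Pool.Agent.Y957.VK (dz mn)

/-- at all places all numbers but one are jointly equidistributed -/
theorem OneLine.joint {a b : ℝ} {v : ℕ → ℕ} {s : ℕ} {y : Fin (s + 1) → ℝ} (h : OneLine a b v y) (L : ℕ) (ε : ℝ)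
    (hε : 0 < ε) : ∀ᶠ N : ℕ in atTop, ∃ i₀ : Fin (s + 1), Words v (fun j : Fin s => y (i₀.succAbove j)) L N ε := by
  classical
  filter_upwards [h s L 1 ε hε] with N hN
  obtain ⟨g, i₀, hgi, hN⟩ : ∃ (g : Fin (s + 1) → ℤ) (i₀ : Fin (s + 1)), (g i₀ = 0 → g = 0) ∧
      ∀ f : Fin s → Fin (s + 1) → ℤ, (∀ j i, |f j i| ≤ ((1 : ℕ) : ℤ)) → IndepMod g f →
        Words v (fun j => ∑ i, (f j i : ℝ) * y i) L N ε := by
    rcases hN with hN | ⟨g, hg, -, -, hN⟩
    · exact ⟨0, 0, fun _ => rfl, hN⟩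
    · obtain ⟨i₀, hi₀⟩ := Function.ne_iff.1 hg
      exact ⟨g, i₀, fun h1 => absurd h1 hi₀, hN⟩
  refine ⟨i₀, ?_⟩
  have h1 := hN (fun j i => if i = i₀.succAbove j then 1 else 0) (fun j i => by
    split_ifs <;> simp) (fun c a hc => by
      have h2 := hc i₀
      have h3 : ∑ j, c j * (if i₀ = i₀.succAbove j then (1 : ℤ) else 0) = 0 := by
        refine Finset.sum_eq_zero fun j _ => ?_
        rw [if_neg (Fin.succAbove_ne i₀ j).symm, mul_zero]
      rw [h3] at h2
      funext j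
      have h5 := hc (i₀.succAbove j)
      have h6 : ∑ j', c j' * (if i₀.succAbove j = i₀.succAbove j' then (1 : ℤ) else 0) = c j := by
        rw [Finset.sum_eq_single j]
        · simp
        · intro j' _ hj'
          rw [if_neg (fun h7 => hj' (Fin.succAbove_right_injective h7).symm), mul_zero]
        · intro h7
          exact absurd (Finset.mem_univ j) h7
      rw [h6] at h5
      rw [h5]
      rcases mul_eq_zero.1 h2.symm with h4 | h4
      · rw [h4, zero_mul]
        rfl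
      · rw [hgi h4]
        simp)
  have h2 : (fun j : Fin s => ∑ i, (((if i = i₀.succAbove j then (1 : ℤ) else 0 : ℤ)) : ℝ) * y i) =
      fun j : Fin s => y (i₀.succAbove j) := by
    funext j
    rw [Finset.sum_eq_single (i₀.succAbove j)]
    · simp
    · intro i _ hi
      rw [if_neg hi]
      simp
    · intro h7
      exact absurd (Finset.mem_univ _) h7
  rw [h2] at h1
  exact h1

/-- a multiple of a distance to the nearest integer -/
theorem dz_int_mul (a : ℤ) (t : ℝ) : dz ((a : ℝ) * t) ≤ |(a : ℝ)| * dz t := by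
  have h := dz_le_int ((a : ℝ) * t) (a * round t)
  refine h.trans (le_of_eq ?_)
  unfold dz
  rw [← abs_mul]
  congr 1
  push_cast
  ring

theorem dz_sub_le (s t : ℝ) : dz (s - t) ≤ dz s + dz t := by
  have h := dz_le_int (s - t) (round s - round t)
  refine h.trans ?_
  unfold dz
  have h1 : s - t - ((round s - round t : ℤ) : ℝ) = (s - round s) - (t - round t) := by
    push_cast
    ring
  rw [h1]
  exact abs_sub _ _

/-- combinations of one arbitrary number and of numbers with a measure of linear independence -/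
theorem apart_forms {r : ℕ} {x : Fin r → ℝ} (hx : Meas x) (ξ : ℝ) (g g' : Fin (r + 1) → ℤ) (hg : Indep2 g g') :
    Apart (∑ i, (g i : ℝ) * (Fin.cons ξ x : Fin (r + 1) → ℝ) i)
      (∑ i, (g' i : ℝ) * (Fin.cons ξ x : Fin (r + 1) → ℝ) i) := by
  obtain ⟨κ, c, hc, h⟩ := hx
  obtain ⟨T, hT⟩ : ∃ T : ℕ, T = 1 + ∑ i, (g i).natAbs + ∑ i, (g' i).natAbs := ⟨_, rfl⟩
  have hT1 : 1 ≤ T := by omega
  have hTg : ∀ i, |g i| ≤ (T : ℤ) := by
    intro i
    have h1 : (g i).natAbs ≤ ∑ i, (g i).natAbs :=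
      Finset.single_le_sum (f := fun i => (g i).natAbs) (fun _ _ => Nat.zero_le _) (Finset.mem_univ i)
    rw [Int.abs_eq_natAbs]
    have h2 : (g i).natAbs ≤ T := by omega
    exact_mod_cast h2
  have hTg' : ∀ i, |g' i| ≤ (T : ℤ) := by
    intro i
    have h1 : (g' i).natAbs ≤ ∑ i, (g' i).natAbs :=
      Finset.single_le_sum (f := fun i => (g' i).natAbs) (fun _ _ => Nat.zero_le _) (Finset.mem_univ i)
    rw [Int.abs_eq_natAbs]
    have h2 : (g' i).natAbs ≤ T := by omega
    exact_mod_cast h2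
  have hT0 : (1 : ℝ) ≤ T := by exact_mod_cast hT1
  obtain ⟨y, hy⟩ : ∃ y, y = ∑ i, (g i : ℝ) * (Fin.cons ξ x : Fin (r + 1) → ℝ) i := ⟨_, rfl⟩
  obtain ⟨y', hy'⟩ : ∃ y', y' = ∑ i, (g' i : ℝ) * (Fin.cons ξ x : Fin (r + 1) → ℝ) i := ⟨_, rfl⟩
  have hy1 : y = g 0 * ξ + ∑ i : Fin r, (g i.succ : ℝ) * x i := by
    rw [hy, Fin.sum_univ_succ]
    simp
  have hy1' : y' = g' 0 * ξ + ∑ i : Fin r, (g' i.succ : ℝ) * x i := by
    rw [hy', Fin.sum_univ_succ]
    simp
  rw [← hy, ← hy']
  have hone : ∀ (g : Fin (r + 1) → ℤ) (y : ℝ), g ≠ 0 → (∀ i, |g i| ≤ (T : ℤ)) → g 0 = 0 →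
      y = g 0 * ξ + ∑ i : Fin r, (g i.succ : ℝ) * x i → ∀ D : ℕ, 1 ≤ D → c / (T : ℝ) ^ κ / (D : ℝ) ^ κ ≤ dz (y * D) := by
    intro g y hgne hgT hg0 hy D hD
    have h1 := h (fun i => g i.succ * D) (fun h2 => hgne (by
      funext i
      refine Fin.cases hg0 (fun i => ?_) i
      have h3 := congrFun h2 i
      simp only [Pi.zero_apply, mul_eq_zero] at h3
      refine h3.resolve_right ?_
      intro h4
      have : D = 0 := by exact_mod_cast h4
      omega)) (T * D) (fun i => by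
        rw [abs_mul, Nat.abs_cast]
        push_cast
        have := hgT i.succ
        gcongr)
    have h2 : ∑ i : Fin r, ((g i.succ * D : ℤ) : ℝ) * x i = y * D := by
      rw [hy, hg0, Int.cast_zero, zero_mul, zero_add, Finset.sum_mul]
      refine Finset.sum_congr rfl fun i _ => ?_
      push_cast
      ring
    rw [h2] at h1
    refine le_trans (le_of_eq ?_) h1
    push_cast
    rw [mul_pow, div_div]
  have hgne : g ≠ 0 := hg.left_ne
  have hgne' : g' ≠ 0 := by
    rintro rfl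
    have := (hg 0 1 fun i => by simp).2
    exact one_ne_zero this
  by_cases h0 : g 0 = 0
  · exact apart_of_pow (by positivity) (hone g y hgne hTg h0 hy1)
  by_cases h0' : g' 0 = 0
  · exact apart_symm (apart_of_pow (by positivity) (hone g' y' hgne' hTg' h0' hy1'))
  -- the vector without the unknown number
  obtain ⟨q, hq⟩ : ∃ q : Fin r → ℤ, q = fun i => g' 0 * g i.succ - g 0 * g' i.succ := ⟨_, rfl⟩
  have hq0 : q ≠ 0 := by
    intro hq0
    have h1 : ∀ i, g' 0 * g i = g 0 * g' i := by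
      intro i
      refine Fin.cases (mul_comm _ _) (fun i => ?_) i
      have := congrFun hq0 i
      rw [hq] at this
      simp only [Pi.zero_apply] at this
      linarith
    exact h0' (hg _ _ h1).1
  have hqT : ∀ i, |q i| ≤ 2 * (T : ℤ) ^ 2 := by
    intro i
    rw [hq]
    refine (abs_sub _ _).trans ?_
    rw [abs_mul, abs_mul]
    have k1 := mul_le_mul (hTg' 0) (hTg i.succ) (abs_nonneg _) (by positivity)
    have k2 := mul_le_mul (hTg 0) (hTg' i.succ) (abs_nonneg _) (by positivity)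
    calc |g' 0| * |g i.succ| + |g 0| * |g' i.succ| ≤ (T : ℤ) * T + T * T := add_le_add k1 k2
      _ = _ := by ring
  refine ⟨κ + 1, c / ((2 * (T : ℝ) ^ 2) ^ κ * T), by positivity, fun D D' hD hD' => ?_⟩
  have hD0 : (1 : ℝ) ≤ D := by exact_mod_cast hD
  have hD0' : (1 : ℝ) ≤ D' := by exact_mod_cast hD'
  have hDD : 0 < (D : ℤ) * D' := by positivity
  have h1 := h (fun i => q i * (D * D')) (fun h2 => hq0 (by
    funext i
    have h3 := congrFun h2 i
    simp only [Pi.zero_apply, mul_eq_zero] at h3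
    refine h3.resolve_right ?_
    rintro (h4 | h4)
    · have : D = 0 := by exact_mod_cast h4
      omega
    · have : D' = 0 := by exact_mod_cast h4
      omega)) (2 * T ^ 2 * (D * D')) (fun i => by
      rw [abs_mul, abs_of_pos hDD]
      push_cast
      have := hqT i
      gcongr)
  have h2 : ∑ i : Fin r, ((q i * (D * D') : ℤ) : ℝ) * x i =
      ((g' 0 * D' : ℤ) : ℝ) * (y * D) - ((g 0 * D : ℤ) : ℝ) * (y' * D') := by
    have h3 : ∑ i : Fin r, ((q i * (D * D') : ℤ) : ℝ) * x i =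
        (g' 0 * D * D') * ∑ i : Fin r, (g i.succ : ℝ) * x i - (g 0 * D * D') * ∑ i : Fin r, (g' i.succ : ℝ) * x i := by
      rw [Finset.mul_sum, Finset.mul_sum, ← Finset.sum_sub_distrib]
      refine Finset.sum_congr rfl fun i _ => ?_
      rw [hq]
      push_cast
      ring
    rw [h3, hy1, hy1']
    push_cast
    ring
  rw [h2] at h1
  have h3 := h1.trans ((dz_sub_le _ _).trans (add_le_add (dz_int_mul _ _) (dz_int_mul _ _)))
  have k1 : |((g' 0 * D' : ℤ) : ℝ)| ≤ T * (D * D') := by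
    push_cast
    rw [abs_mul, Nat.abs_cast]
    have h4 : |((g' 0 : ℤ) : ℝ)| ≤ T := by exact_mod_cast hTg' 0
    calc |((g' 0 : ℤ) : ℝ)| * D' ≤ T * (1 * D') := by
          rw [one_mul]
          gcongr
      _ ≤ T * (D * D') := by gcongr
  have k2 : |((g 0 * D : ℤ) : ℝ)| ≤ T * (D * D') := by
    push_cast
    rw [abs_mul, Nat.abs_cast]
    have h4 : |((g 0 : ℤ) : ℝ)| ≤ T := by exact_mod_cast hTg 0
    calc |((g 0 : ℤ) : ℝ)| * D ≤ T * (D * 1) := by
          rw [mul_one]
          gcongr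
      _ ≤ T * (D * D') := by gcongr
  have k3 := dz_nonneg (y * D)
  have k4 := dz_nonneg (y' * D')
  have h5 : c / ((2 * T ^ 2 * (D * D') : ℕ) : ℝ) ^ κ ≤ T * (D * D') * (dz (y * D) + dz (y' * D')) := by
    refine h3.trans ?_
    rw [mul_add]
    gcongr
  have h6 : (0 : ℝ) < D * D' := by positivity
  push_cast at h5
  rw [mul_pow (2 * (T : ℝ) ^ 2), ← div_div, div_le_iff₀ (by positivity)] at h5
  rw [← div_div, div_le_iff₀ (by positivity), div_le_iff₀ (by positivity), pow_succ]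
  calc c / (2 * (T : ℝ) ^ 2) ^ κ ≤ _ := h5
    _ = _ := by ring

/-- one arbitrary number and numbers algebraic over `ℚ(z)` -/
theorem one_line_forms {a b : ℝ} {Ω : Type*} [MeasurableSpace Ω] (μ : Measure Ω) (p : ℕ → Ω → ℕ)
    (h : ∀ (s : ℕ) (y : Fin s → ℝ),
      (∀ g g' : Fin s → ℤ, Indep2 g g' → Apart (∑ i, (g i : ℝ) * y i) (∑ i, (g' i : ℝ) * y i)) →
        ∀ᵐ ω ∂μ, OneLine a b (fun k => p k ω) y) {z : ℝ} (hz : MT z) (ξ : ℝ) :
    ∀ᵐ ω ∂μ, ∀ (r : ℕ) (x : Fin r → ℝ), (∀ i, IsAlgebraic (Algebra.adjoin ℤ ({z} : Set ℝ)) (x i)) → Indep x →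
      OneLine a b (fun k => p k ω) (Fin.cons ξ x : Fin (r + 1) → ℝ) := by
  have hcz : Countable (Algebra.adjoin ℤ ({z} : Set ℝ)) := by
    have h0 : Countable (Polynomial ℤ) :=
      Cardinal.mk_le_aleph0_iff.1 (Polynomial.cardinalMk_le_max.trans (by simp))
    rw [Algebra.adjoin_singleton_eq_range_aeval]
    exact Set.countable_range _
  have hc : Countable {x : ℝ // IsAlgebraic (Algebra.adjoin ℤ ({z} : Set ℝ)) x} :=
    (Algebraic.countable (Algebra.adjoin ℤ ({z} : Set ℝ)) ℝ).to_subtype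
  have h1 : ∀ᵐ ω ∂μ, ∀ (r : ℕ) (x : Fin r → {x : ℝ // IsAlgebraic (Algebra.adjoin ℤ ({z} : Set ℝ)) x}),
      Indep (fun i => (x i : ℝ)) →
        OneLine a b (fun k => p k ω) (Fin.cons ξ (fun i => (x i : ℝ)) : Fin (r + 1) → ℝ) := by
    rw [ae_all_iff]
    intro r
    rw [ae_all_iff]
    intro x
    by_cases hx : Indep (fun i => (x i : ℝ))
    · filter_upwards [h (r + 1) (Fin.cons ξ (fun i => (x i : ℝ)) : Fin (r + 1) → ℝ)
        (fun g g' hg => apart_forms (meas_alg hz (fun i => (x i : ℝ)) (fun i => (x i).2) hx) ξ g g' hg)] with ω hω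
      exact fun _ => hω
    · exact Eventually.of_forall fun ω h2 => absurd h2 hx
  filter_upwards [h1] with ω hω
  intro r x hx hi
  exact hω r (fun i => ⟨x i, hx i⟩) hi

end Run7.h683.MR
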