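import Pool.Agent.Run7.h683.MR.R

/-!
# Random products: the exceptional space of an arbitrary family of real numbers
-/

set_option autoImplicit false

namespace Run7.h683.MR

open Finset Filter Run7.h683.AB MeasureTheory ProbabilityTheory Topology
open Pool.Agent.Y957.VK (dz mn)

section

attribute [local instance] Matrix.seminormedAddCommGroup

/-- a system of linear equations with small integral coefficients which has a nonzero solution has a small one -/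
theorem small_kernel {ι : Type*} (k : ℕ) (M : ι → Fin k → ℤ) (X : ℝ) (hX : 1 ≤ X)
    (hM : ∀ i j, |(M i j : ℝ)| ≤ X) (a0 : Fin k → ℚ) (h0 : a0 ≠ 0)
    (hk : ∀ i, ∑ j, a0 j * (M i j : ℚ) = 0) :
    ∃ a : Fin k → ℤ, a ≠ 0 ∧ (∀ i, ∑ j, a j * M i j = 0) ∧ ∀ j, |(a j : ℝ)| ≤ (k * X) ^ k := by
  classical
  obtain ⟨j0, hj0⟩ := Function.ne_iff.1 h0
  have hk0 : 0 < k := j0.pos
  have hk1 : (1 : ℝ) ≤ k := by exact_mod_cast hk0
  have hkX : 1 ≤ (k : ℝ) * X := by nlinarith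
  obtain ⟨R, hR⟩ : ∃ R : Set (Fin k → ℚ), R = Set.range fun i => fun j => (M i j : ℚ) := ⟨_, rfl⟩
  obtain ⟨r, f, hr, hf, hspan⟩ : ∃ (r : ℕ) (f : Fin r → Fin k → ℚ), r = Module.finrank ℚ (Submodule.span ℚ R) ∧
      (∀ i, f i ∈ R) ∧ Submodule.span ℚ (Set.range f) = Submodule.span ℚ R := by
    obtain ⟨f, hf, hspan, -⟩ := Submodule.exists_fun_fin_finrank_span_eq ℚ R
    exact ⟨_, f, rfl, hf, hspan⟩
  have hrk : r < k := by
    obtain ⟨φ, hφ⟩ : ∃ φ : (Fin k → ℚ) →ₗ[ℚ] ℚ, ∀ v, φ v = ∑ j, a0 j * v j :=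
      ⟨∑ j, a0 j • LinearMap.proj j, fun v => by simp [LinearMap.sum_apply]⟩
    have h1 : Submodule.span ℚ R ≤ LinearMap.ker φ := by
      rw [Submodule.span_le, hR]
      rintro v ⟨i, rfl⟩
      rw [SetLike.mem_coe, LinearMap.mem_ker, hφ]
      exact hk i
    have h2 : LinearMap.ker φ < ⊤ := by
      rw [lt_top_iff_ne_top]
      intro h3
      have h4 : Pi.single j0 (1 : ℚ) ∈ LinearMap.ker φ := by
        rw [h3]
        exact Submodule.mem_top
      rw [LinearMap.mem_ker, hφ, Finset.sum_eq_single j0] at h4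
      · rw [Pi.single_eq_same, mul_one] at h4
        exact hj0 h4
      · intro j _ hj
        rw [Pi.single_eq_of_ne hj, mul_zero]
      · intro h5
        exact absurd (Finset.mem_univ _) h5
    have h3 := Submodule.finrank_lt (lt_of_le_of_lt h1 h2).ne
    rw [Module.finrank_fin_fun, ← hr] at h3
    exact h3
  have hrow : ∀ a : Fin k → ℤ, (∀ i, ∑ j, (a j : ℚ) * f i j = 0) → ∀ i, ∑ j, a j * M i j = 0 := by
    intro a ha i
    obtain ⟨φ, hφ⟩ : ∃ φ : (Fin k → ℚ) →ₗ[ℚ] ℚ, ∀ v, φ v = ∑ j, (a j : ℚ) * v j :=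
      ⟨∑ j, (a j : ℚ) • LinearMap.proj j, fun v => by simp [LinearMap.sum_apply]⟩
    have h1 : Submodule.span ℚ R ≤ LinearMap.ker φ := by
      rw [← hspan, Submodule.span_le]
      rintro v ⟨i, rfl⟩
      rw [SetLike.mem_coe, LinearMap.mem_ker, hφ]
      exact ha i
    have h2 : (fun j => (M i j : ℚ)) ∈ LinearMap.ker φ := h1 (Submodule.subset_span (by
      rw [hR]
      exact ⟨i, rfl⟩))
    rw [LinearMap.mem_ker, hφ] at h2
    exact_mod_cast h2
  rcases Nat.eq_zero_or_pos r with hr0 | hr0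
  · subst hr0
    refine ⟨Pi.single j0 1, ?_, hrow _ fun i => i.elim0, fun j => ?_⟩
    · intro h1
      have := congrFun h1 j0
      rw [Pi.single_eq_same] at this
      exact one_ne_zero this
    · refine le_trans ?_ (one_le_pow₀ hkX)
      rcases eq_or_ne j j0 with rfl | h1
      · rw [Pi.single_eq_same]
        norm_num
      · rw [Pi.single_eq_of_ne h1]
        norm_num
  · have hf' : ∀ i, ∃ i' : ι, f i = fun j => (M i' j : ℚ) := by
      intro i
      have := hf i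
      rw [hR] at this
      obtain ⟨i', hi'⟩ := this
      exact ⟨i', hi'.symm⟩
    choose idx hidx using hf'
    obtain ⟨A, hA⟩ : ∃ A : Matrix (Fin r) (Fin k) ℤ, A = Matrix.of fun i j => M (idx i) j := ⟨_, rfl⟩
    obtain ⟨t, ht0, ht, hnorm⟩ := Int.Matrix.exists_ne_zero_int_vec_norm_le A
      (by rw [Fintype.card_fin, Fintype.card_fin]; exact hrk) (by rw [Fintype.card_fin]; exact hr0)
    refine ⟨t, ht0, hrow t fun i => ?_, fun j => ?_⟩
    · have h1 := congrFun ht i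
      simp only [Matrix.mulVec, dotProduct, hA, Matrix.of_apply, Pi.zero_apply] at h1
      rw [hidx]
      have h2 : ∑ j, t j * M (idx i) j = 0 := by
        rw [← h1]
        exact Finset.sum_congr rfl fun j _ => mul_comm _ _
      show ∑ j, (t j : ℚ) * (M (idx i) j : ℚ) = 0
      exact_mod_cast h2
    · have hTn : ‖A‖ ≤ X := by
        rw [Matrix.norm_le_iff (by linarith)]
        intro i j
        rw [hA, Matrix.of_apply, Int.norm_eq_abs]
        exact hM _ _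
      have hmax : max 1 ‖A‖ ≤ X := max_le hX hTn
      have h2 : |(t j : ℝ)| ≤ ‖t‖ := by
        have := norm_le_pi_norm t j
        rw [Int.norm_eq_abs] at this
        exact_mod_cast this
      refine h2.trans (hnorm.trans ?_)
      rw [Fintype.card_fin, Fintype.card_fin]
      have hrk' : (1 : ℝ) ≤ (k : ℝ) - r := by
        have h3 : (r : ℝ) + 1 ≤ k := by exact_mod_cast hrk
        linarith
      have hexp : (r : ℝ) / ((k : ℝ) - r) ≤ k := by
        rw [div_le_iff₀ (by linarith)]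
        have h3 : (r : ℝ) ≤ k := by linarith
        nlinarith
      have h3 : (0 : ℝ) ≤ (r : ℝ) / ((k : ℝ) - r) := by positivity
      have h4 : (k : ℝ) * max 1 ‖A‖ ≤ k * X := by gcongr
      have h5 : (0 : ℝ) ≤ (k : ℝ) * max 1 ‖A‖ := by positivity
      calc ((k : ℝ) * max 1 ‖A‖) ^ ((r : ℝ) / ((k : ℝ) - r)) ≤ (k * X) ^ ((r : ℝ) / ((k : ℝ) - r)) :=
            Real.rpow_le_rpow h5 h4 h3
        _ ≤ (k * X) ^ (k : ℝ) := Real.rpow_le_rpow_of_exponent_le hkX hexp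
        _ = (k * X) ^ k := Real.rpow_natCast _ _

end

/-- the exceptional space at the scale `N`: it is spanned by the integral vectors `h` with `|h_i| ≤ exp (N ^ a)` such that
`∑ h_i y_i` is closer than `exp (- N ^ b)` to an integer -/
def Exc (a b : ℝ) {s : ℕ} (y : Fin s → ℝ) (N : ℕ) : Submodule ℚ (Fin s → ℚ) :=
  Submodule.span ℚ {q | ∃ h : Fin s → ℤ, (∀ i, |(h i : ℝ)| ≤ Real.exp ((N : ℝ) ^ a)) ∧
    dz (∑ i, (h i : ℝ) * y i) < Real.exp (-(N : ℝ) ^ b) ∧ q = fun i => (h i : ℚ)}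

/-- the structure theorem -/
theorem structure_ae.{u} {S : ℕ → Finset ℕ} {M : ℕ → ℕ} {θ Θ : ℝ} (G : Growth S M θ Θ) :
    ∃ a b : ℝ, 0 < a ∧ a < b ∧ b < 1 ∧ ∀ (Ω : Type u) [MeasurableSpace Ω] (μ : Measure Ω) [IsProbabilityMeasure μ]
      (p : ℕ → Ω → ℕ), Uniform μ S p → ∀ (s : ℕ) (y : Fin s → ℝ), ∀ᵐ ω ∂μ,
        ∀ (m L H : ℕ) (ε : ℝ), 0 < ε → ∀ᶠ N : ℕ in atTop, ∀ f : Fin m → Fin s → ℤ, (∀ j i, |f j i| ≤ H) →
          (∀ c : Fin m → ℤ, c ≠ 0 → (fun i => ((∑ j, c j * f j i : ℤ) : ℚ)) ∉ Exc a b y N) →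
            Words (fun k => p k ω) (fun j => ∑ i, (f j i : ℝ) * y i) L N ε := by
  classical
  obtain ⟨a, b, c, ha, hab, hb, hc, hc1, h⟩ := ae_words.{u} G
  obtain ⟨a', ha'⟩ : ∃ a' : ℝ, a' = (a + b) / 2 := ⟨_, rfl⟩
  refine ⟨a', b, by rw [ha']; linarith, by rw [ha']; linarith, hb, ?_⟩
  intro Ω _ μ _ p hp s y
  have h1 : ∀ᵐ ω ∂μ, ∀ (m : ℕ) (f : Fin m → Fin s → ℤ), ∀ (L : ℕ) (ε : ℝ), 0 < ε → ∃ H : ℕ,
      ∀ᶠ N : ℕ in atTop, (∀ c : Fin m → ℤ, c ≠ 0 → (∀ j, |c j| ≤ H) →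
        ¬ Near a b (∑ j, (c j : ℝ) * ∑ i, (f j i : ℝ) * y i) N) →
          Words (fun k => p k ω) (fun j => ∑ i, (f j i : ℝ) * y i) L N ε := by
    rw [ae_all_iff]
    intro m
    rw [ae_all_iff]
    intro f
    filter_upwards [h Ω μ p hp m (fun j => ∑ i, (f j i : ℝ) * y i)] with ω hω
    exact hω.2
  filter_upwards [h1] with ω hω
  intro m L H ε hε
  obtain ⟨F, hF⟩ : ∃ F : Finset (Fin m → Fin s → ℤ), F = Fintype.piFinset fun _ =>
    Fintype.piFinset fun _ => Finset.Icc (-(H : ℤ)) H := ⟨_, rfl⟩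
  have hFmem : ∀ f : Fin m → Fin s → ℤ, f ∈ F ↔ ∀ j i, |f j i| ≤ H := by
    intro f
    rw [hF, Fintype.mem_piFinset]
    refine forall_congr' fun j => ?_
    rw [Fintype.mem_piFinset]
    refine forall_congr' fun i => ?_
    rw [Finset.mem_Icc]
    exact abs_le.symm
  have h2 : ∀ f : Fin m → Fin s → ℤ, ∃ H' : ℕ, ∀ᶠ N : ℕ in atTop,
      (∀ c : Fin m → ℤ, c ≠ 0 → (∀ j, |c j| ≤ H') → ¬ Near a b (∑ j, (c j : ℝ) * ∑ i, (f j i : ℝ) * y i) N) →
          Words (fun k => p k ω) (fun j => ∑ i, (f j i : ℝ) * y i) L N ε := fun f => hω m f L ε hε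
  choose H' hH' using h2
  obtain ⟨W, hW⟩ : ∃ W : ℕ, W = F.sup H' := ⟨_, rfl⟩
  have hWle : ∀ f ∈ F, H' f ≤ W := by
    intro f hf
    rw [hW]
    exact Finset.le_sup hf
  obtain ⟨R, hR⟩ : ∃ R : ℕ, R = m * (W * H) := ⟨_, rfl⟩
  have e2 : ∀ᶠ N : ℕ in atTop, ∀ f ∈ F, (∀ c : Fin m → ℤ, c ≠ 0 → (∀ j, |c j| ≤ H' f) →
      ¬ Near a b (∑ j, (c j : ℝ) * ∑ i, (f j i : ℝ) * y i) N) →
          Words (fun k => p k ω) (fun j => ∑ i, (f j i : ℝ) * y i) L N ε := by
    rw [Filter.eventually_all_finset]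
    intro f _
    exact hH' f
  have hcomb : ∀ (f : Fin m → Fin s → ℤ) (c : Fin m → ℤ),
      ∑ j, (c j : ℝ) * ∑ i, (f j i : ℝ) * y i = ∑ i, ((∑ j, c j * f j i : ℤ) : ℝ) * y i := by
    intro f c
    simp only [Finset.mul_sum]
    rw [Finset.sum_comm]
    refine Finset.sum_congr rfl fun i _ => ?_
    push_cast
    rw [Finset.sum_mul]
    refine Finset.sum_congr rfl fun j _ => ?_
    ring
  have hin : ∀ f ∈ F, ∀ c : Fin m → ℤ, (∀ j, |c j| ≤ H' f) → ∀ i, |∑ j, c j * f j i| ≤ (R : ℤ) := by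
    intro f hf c hcH i
    refine (Finset.abs_sum_le_sum_abs _ _).trans ?_
    refine (Finset.sum_le_sum (g := fun _ => ((W : ℤ) * H)) fun j _ => ?_).trans (le_of_eq ?_)
    · rw [abs_mul]
      have h3 : |c j| ≤ (W : ℤ) := (hcH j).trans (by exact_mod_cast hWle f hf)
      exact mul_le_mul h3 ((hFmem f).1 hf j i) (abs_nonneg _) (by positivity)
    · rw [Finset.sum_const, Finset.card_univ, Fintype.card_fin, hR, nsmul_eq_mul]
      push_cast
      ring
  have e3 : ∀ᶠ N : ℕ in atTop, (1 + |Real.log (R + 1)|) * (N : ℝ) ^ a ≤ (N : ℝ) ^ a' :=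
    evn (ev_lt (by rw [ha']; linarith) _)
  filter_upwards [e2, e3, eventually_ge_atTop 1] with N g2 g3 g4
  intro f hfH hf
  have hfF := (hFmem f).2 hfH
  refine g2 f hfF fun c hc0 hcH hnear => ?_
  rw [hcomb] at hnear
  apply hf c hc0
  obtain ⟨D, hD1, hD2, hD3⟩ := hnear
  have hD0 : (D : ℚ) ≠ 0 := by
    have : D ≠ 0 := by omega
    exact_mod_cast this
  have h3 : (fun i => (((∑ j, c j * f j i) * D : ℤ) : ℚ)) ∈ Exc a' b y N := by
    refine Submodule.subset_span ⟨fun i => (∑ j, c j * f j i) * D, fun i => ?_, ?_, rfl⟩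
    · have hN1 : (1 : ℝ) ≤ N := by exact_mod_cast g4
      have h3 : |((∑ j, c j * f j i : ℤ) : ℝ)| ≤ R := by exact_mod_cast hin f hfF c hcH i
      have hR0 : (0 : ℝ) ≤ R := by positivity
      have h5 : (R : ℝ) ≤ Real.exp (|Real.log (R + 1)|) := by
        have h6 : (R : ℝ) + 1 = Real.exp (Real.log (R + 1)) := (Real.exp_log (by positivity)).symm
        have h7 : Real.exp (Real.log (R + 1)) ≤ Real.exp (|Real.log (R + 1)|) := Real.exp_le_exp.2 (le_abs_self _)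
        linarith
      have h8 : (1 : ℝ) ≤ (N : ℝ) ^ a := Real.one_le_rpow hN1 ha.le
      rw [Int.cast_mul, abs_mul, Int.cast_natCast, Nat.abs_cast]
      calc |((∑ j, c j * f j i : ℤ) : ℝ)| * D ≤ Real.exp (|Real.log (R + 1)|) * Real.exp ((N : ℝ) ^ a) :=
            mul_le_mul (h3.trans h5) hD2 (by positivity) (by positivity)
        _ = Real.exp (|Real.log (R + 1)| + (N : ℝ) ^ a) := (Real.exp_add _ _).symm
        _ ≤ Real.exp ((N : ℝ) ^ a') := by
            refine Real.exp_le_exp.2 (le_trans ?_ g3)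
            have : 0 ≤ |Real.log (R + 1)| := abs_nonneg _
            nlinarith
    · have h3 : ∑ i, (((∑ j, c j * f j i) * D : ℤ) : ℝ) * y i = (∑ i, ((∑ j, c j * f j i : ℤ) : ℝ) * y i) * D := by
        rw [Finset.sum_mul]
        refine Finset.sum_congr rfl fun i _ => ?_
        push_cast
        ring
      rw [h3]
      exact hD3
  have h4 := Submodule.smul_mem _ ((D : ℚ)⁻¹) h3
  convert h4 using 1
  funext i
  rw [Pi.smul_apply, smul_eq_mul]
  push_cast
  field_simp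

end Run7.h683.MR
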