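import Pool.Agent.Run7.h683.MR.T

/-!
# Random products: families with an exceptional space of dimension at most one
-/

set_option autoImplicit false

namespace Run7.h683.MR

open Finset Filter Run7.h683.AB MeasureTheory ProbabilityTheory Topology
open Pool.Agent.Y957.VK (dz mn)

/-- two forms which are not proportional are not both close to integers, uniformly in the height -/
def Apart2 {s : ℕ} (y : Fin s → ℝ) : Prop := ∃ (κ : ℕ) (c : ℝ), 0 < c ∧ ∀ H : ℕ, 1 ≤ H → ∀ h h' : Fin s → ℤ,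
  (∀ i, |h i| ≤ H) → (∀ i, |h' i| ≤ H) → Indep2 h h' →
    c / (H : ℝ) ^ κ ≤ dz (∑ i, (h i : ℝ) * y i) + dz (∑ i, (h' i : ℝ) * y i)

/-- then the exceptional space is a line or zero -/
theorem Apart2.finrank {s : ℕ} {y : Fin s → ℝ} (hy : Apart2 y) {a b : ℝ} (ha : 0 < a) (hab : a < b) :
    ∀ᶠ N : ℕ in atTop, Module.finrank ℚ (Exc a b y N) ≤ 1 := by
  obtain ⟨κ, c, hc, h⟩ := hy
  have e1 : ∀ᶠ N : ℕ in atTop, (κ + 1 + |Real.log (c / 2 ^ κ / 2)|) * (N : ℝ) ^ a ≤ (N : ℝ) ^ b := evn (ev_lt hab _)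
  filter_upwards [e1, eventually_ge_atTop 1] with N g1 g2
  have hN1 : (1 : ℝ) ≤ N := by exact_mod_cast g2
  have hNa : 1 ≤ (N : ℝ) ^ a := Real.one_le_rpow hN1 ha.le
  refine finrank_le_one_of _ ?_
  rintro u ⟨g, hgX, hgd, hu⟩ v ⟨g', hgX', hgd', hv⟩
  by_contra hcon
  push Not at hcon
  have hI : Indep2 g g' := by
    intro p q hpq
    by_contra h1
    have h2 : (p : ℚ) ≠ 0 ∨ (q : ℚ) ≠ 0 := by
      by_contra h3
      push Not at h3
      exact h1 ⟨by exact_mod_cast h3.1, by exact_mod_cast h3.2⟩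
    refine hcon p q h2 ?_
    funext i
    rw [hu, hv, Pi.smul_apply, Pi.smul_apply, smul_eq_mul, smul_eq_mul]
    exact_mod_cast hpq i
  obtain ⟨H, hH⟩ : ∃ H : ℕ, H = ⌈Real.exp ((N : ℝ) ^ a)⌉₊ := ⟨_, rfl⟩
  have hH0 : Real.exp ((N : ℝ) ^ a) ≤ H := by
    rw [hH]
    exact Nat.le_ceil _
  have hX1 : 1 ≤ Real.exp ((N : ℝ) ^ a) := Real.one_le_exp (by positivity)
  have hH1 : (H : ℝ) ≤ 2 * Real.exp ((N : ℝ) ^ a) := by
    rw [hH]
    have h1 := Nat.ceil_lt_add_one (show 0 ≤ Real.exp ((N : ℝ) ^ a) by positivity)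
    linarith
  have hHpos : (0 : ℝ) < H := by linarith
  have h1 := h H (by
    have : (1 : ℝ) ≤ H := by linarith
    exact_mod_cast this) g g' (fun i => by
      have := (hgX i).trans hH0
      exact_mod_cast this) (fun i => by
      have := (hgX' i).trans hH0
      exact_mod_cast this) hI
  have h3 : c / 2 ^ κ * Real.exp (-(κ * (N : ℝ) ^ a)) ≤ c / (H : ℝ) ^ κ := by
    have h4 : c / 2 ^ κ * Real.exp (-(κ * (N : ℝ) ^ a)) = c / (2 * Real.exp ((N : ℝ) ^ a)) ^ κ := by
      rw [mul_pow, ← div_div, Real.exp_neg, ← div_eq_mul_inv, ← Real.exp_nat_mul]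
    rw [h4]
    exact div_le_div_of_nonneg_left hc.le (by positivity) (pow_le_pow_left₀ hHpos.le hH1 κ)
  have h4 : c / 2 ^ κ / 2 * Real.exp (-(κ * (N : ℝ) ^ a)) < Real.exp (-(N : ℝ) ^ b) := by linarith
  have h7 : 0 < c / 2 ^ κ / 2 := by positivity
  have h8 : c / 2 ^ κ / 2 = Real.exp (Real.log (c / 2 ^ κ / 2)) := (Real.exp_log h7).symm
  rw [h8, ← Real.exp_add, Real.exp_lt_exp] at h4
  have h9 : -|Real.log (c / 2 ^ κ / 2)| ≤ Real.log (c / 2 ^ κ / 2) := neg_abs_le _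
  have h11 : 0 ≤ |Real.log (c / 2 ^ κ / 2)| := abs_nonneg _
  nlinarith

/-- the measure for the forms without constant term -/
theorem lin_measure0 {z : ℝ} (hz : MT z) {s : ℕ} (β : Fin s → ℝ)
    (hβ : ∀ i, IsAlgebraic (Algebra.adjoin ℤ ({z} : Set ℝ)) (β i)) (hi : IndepZ β) :
    ∃ (κ : ℕ) (c : ℝ), 0 < c ∧ ∀ g : Fin s → ℤ, g ≠ 0 → ∀ H : ℕ, 1 ≤ H → (∀ i, |g i| ≤ H) →
      c / (H : ℝ) ^ κ ≤ |∑ i, (g i : ℝ) * β i| := by
  obtain ⟨κ, c, hc, h⟩ := lin_measure' hz β hβ
  refine ⟨κ, c, hc, fun g hg H hH hgH => ?_⟩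
  have h1 := h (fun o => o.elim 0 g) (by
    simp only [Option.elim_none, Option.elim_some, Int.cast_zero, zero_add]
    exact fun h2 => hg (hi g h2)) H hH (fun o => by
    cases o with
    | none => simp
    | some i => exact hgH i)
  simpa using h1

/-- the numbers `β_i t` -/
theorem apart2_mul {z : ℝ} (hz : MT z) {t : ℝ} (ht : t ≠ 0) {s : ℕ} {β : Fin s → ℝ}
    (hβ : ∀ i, IsAlgebraic (Algebra.adjoin ℤ ({z} : Set ℝ)) (β i)) (hi : IndepZ β) :
    Apart2 (fun i => β i * t) := by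
  obtain ⟨κ, c, hc, h⟩ := lin_measure0 hz β hβ hi
  obtain ⟨S, hS⟩ : ∃ S : ℝ, S = 1 + ∑ i, |β i| := ⟨_, rfl⟩
  have hS0 : 0 ≤ ∑ i, |β i| := Finset.sum_nonneg fun i _ => abs_nonneg _
  have hS1 : 1 ≤ S := by linarith
  obtain ⟨T, hT⟩ : ∃ T : ℝ, T = |t| := ⟨_, rfl⟩
  have hT0 : 0 < T := by rw [hT]; exact abs_pos.2 ht
  obtain ⟨W, hW⟩ : ∃ W : ℕ, W = ⌈2 * (S * T + 1)⌉₊ := ⟨_, rfl⟩
  have hW0 : 2 * (S * T + 1) ≤ W := by
    rw [hW]
    exact Nat.le_ceil _
  have hW1 : (1 : ℝ) ≤ W := by nlinarith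
  refine ⟨2 * κ + 1, min (T * c) (c / (W : ℝ) ^ κ / S), by positivity, fun H hH h' h'' hh hh' hI => ?_⟩
  have hH1 : (1 : ℝ) ≤ H := by exact_mod_cast hH
  have hsum : ∀ g : Fin s → ℤ, ∑ i, (g i : ℝ) * (β i * t) = (∑ i, (g i : ℝ) * β i) * t := by
    intro g
    rw [Finset.sum_mul]
    exact Finset.sum_congr rfl fun i _ => by ring
  rw [hsum, hsum]
  have hbd : ∀ g : Fin s → ℤ, (∀ i, |g i| ≤ (H : ℤ)) → |∑ i, (g i : ℝ) * β i| ≤ S * H := by
    intro g hg
    refine (Finset.abs_sum_le_sum_abs _ _).trans ?_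
    calc ∑ i, |(g i : ℝ) * β i| ≤ ∑ i, (H : ℝ) * |β i| := by
          refine Finset.sum_le_sum fun i _ => ?_
          rw [abs_mul]
          have : |(g i : ℝ)| ≤ H := by exact_mod_cast hg i
          gcongr
      _ = H * ∑ i, |β i| := by rw [Finset.mul_sum]
      _ ≤ S * H := by nlinarith
  obtain ⟨B, hB⟩ : ∃ B, B = ∑ i, (h' i : ℝ) * β i := ⟨_, rfl⟩
  obtain ⟨B', hB'⟩ : ∃ B', B' = ∑ i, (h'' i : ℝ) * β i := ⟨_, rfl⟩
  have kB : |B| ≤ S * H := by rw [hB]; exact hbd h' hh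
  have kB' : |B'| ≤ S * H := by rw [hB']; exact hbd h'' hh'
  rw [← hB, ← hB']
  obtain ⟨p, hp⟩ : ∃ p : ℤ, p = round (B * t) := ⟨_, rfl⟩
  obtain ⟨p', hp'⟩ : ∃ p' : ℤ, p' = round (B' * t) := ⟨_, rfl⟩
  have kp : dz (B * t) = |B * t - p| := by rw [hp]; rfl
  have kp' : dz (B' * t) = |B' * t - p'| := by rw [hp']; rfl
  have kpb : ∀ (B : ℝ) (p : ℤ), |B| ≤ S * H → p = round (B * t) → |(p : ℝ)| ≤ (S * T + 1) * H := by
    intro B p hB hp
    have h1 : |B * t - p| ≤ 1 / 2 := by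
      rw [hp]
      exact abs_sub_round _
    have h2 : |B * t| ≤ S * H * T := by
      rw [abs_mul, ← hT]
      gcongr
    have h3 : |(p : ℝ)| ≤ |B * t| + |B * t - p| := by
      have := abs_sub_abs_le_abs_sub (p : ℝ) (B * t)
      rw [abs_sub_comm] at this
      linarith
    nlinarith
  have kp1 := kpb B p kB hp
  have kp1' := kpb B' p' kB' hp'
  obtain ⟨w, hw⟩ : ∃ w : Fin s → ℤ, w = fun i => p * h'' i - p' * h' i := ⟨_, rfl⟩
  have hdz0 := dz_nonneg (B * t)
  have hdz0' := dz_nonneg (B' * t)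
  by_cases hw0 : w = 0
  · have h1 : ∀ i, p' * h' i = p * h'' i := by
      intro i
      have := congrFun hw0 i
      rw [hw] at this
      simp only [Pi.zero_apply] at this
      linarith
    have h2 := hI p' p h1
    have h3 : c / (H : ℝ) ^ κ ≤ |B| := by
      rw [hB]
      exact h h' hI.left_ne H hH hh
    have h4 : dz (B * t) = |B| * T := by
      rw [kp, h2.2, Int.cast_zero, sub_zero, abs_mul, ← hT]
    have h5 : T * c / (H : ℝ) ^ (2 * κ + 1) ≤ T * c / (H : ℝ) ^ κ :=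
      div_le_div_of_nonneg_left (by positivity) (by positivity) (pow_le_pow_right₀ hH1 (by omega))
    have h6 : min (T * c) (c / (W : ℝ) ^ κ / S) / (H : ℝ) ^ (2 * κ + 1) ≤ T * c / (H : ℝ) ^ (2 * κ + 1) := by
      gcongr
      exact min_le_left _ _
    have h7 : T * c / (H : ℝ) ^ κ ≤ |B| * T := by
      rw [mul_div_assoc, mul_comm]
      gcongr
    linarith
  · have hwb : ∀ i, |w i| ≤ ((W * H ^ 2 : ℕ) : ℤ) := by
      intro i
      have h1 : |(w i : ℝ)| ≤ W * (H : ℝ) ^ 2 := by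
        rw [hw]
        push_cast
        refine (abs_sub _ _).trans ?_
        rw [abs_mul, abs_mul]
        have k1 : |(h' i : ℝ)| ≤ H := by exact_mod_cast hh i
        have k2 : |(h'' i : ℝ)| ≤ H := by exact_mod_cast hh' i
        have k3 := mul_le_mul kp1 k2 (abs_nonneg _) (by positivity)
        have k4 := mul_le_mul kp1' k1 (abs_nonneg _) (by positivity)
        nlinarith
      have h2 : |(w i : ℝ)| ≤ ((W * H ^ 2 : ℕ) : ℝ) := by
        push_cast
        exact h1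
      exact_mod_cast h2
    have h1 := h w hw0 (W * H ^ 2) (by
      have : (1 : ℝ) ≤ ((W * H ^ 2 : ℕ) : ℝ) := by
        push_cast
        have : (1 : ℝ) ≤ (H : ℝ) ^ 2 := one_le_pow₀ hH1
        nlinarith
      exact_mod_cast this) hwb
    have h2 : ∑ i, (w i : ℝ) * β i = -(B * t - p) * B' + (B' * t - p') * B := by
      have h3 : ∑ i, (w i : ℝ) * β i = p * B' - p' * B := by
        rw [hw, hB, hB', Finset.mul_sum, Finset.mul_sum, ← Finset.sum_sub_distrib]
        refine Finset.sum_congr rfl fun i _ => ?_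
        push_cast
        ring
      rw [h3]
      ring
    have h3 : |∑ i, (w i : ℝ) * β i| ≤ (dz (B * t) + dz (B' * t)) * (S * H) := by
      rw [h2, kp, kp']
      refine (abs_add_le _ _).trans ?_
      rw [abs_mul, abs_mul, abs_neg, add_mul]
      gcongr
    have h4 := h1.trans h3
    have h5 : c / (W : ℝ) ^ κ / S / (H : ℝ) ^ (2 * κ + 1) ≤ dz (B * t) + dz (B' * t) := by
      push_cast at h4
      rw [mul_pow, ← pow_mul, ← div_div] at h4
      rw [pow_succ, div_div, div_le_iff₀ (by positivity)]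
      rw [div_le_iff₀ (by positivity)] at h4
      calc c / (W : ℝ) ^ κ ≤ _ := h4
        _ = _ := by ring
    refine le_trans ?_ h5
    gcongr
    exact min_le_right _ _

/-- the numbers `z, w, z w` -/
theorem apart2_bilinear {z w : ℝ} (hz : MT z) (hw : MT w) : Apart2 ![z, w, z * w] := by
  obtain ⟨κ, c, hc, hZ⟩ := hz 2
  obtain ⟨κ', c', hc', hW⟩ := hw 1
  obtain ⟨T, hT⟩ : ∃ T : ℝ, T = 1 + |z| + |w| + |z * w| := ⟨_, rfl⟩
  have hT1 : 1 ≤ T := by
    rw [hT]
    have := abs_nonneg z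
    have := abs_nonneg w
    have := abs_nonneg (z * w)
    linarith
  -- linear forms in one number
  have hlin : ∀ (z : ℝ) (κ : ℕ) (c : ℝ), (∀ P : Polynomial ℤ, P ≠ 0 → P.natDegree ≤ 1 → ∀ H : ℝ, 1 ≤ H →
      (∀ j, |(P.coeff j : ℝ)| ≤ H) → c ≤ H ^ κ * |Polynomial.aeval z P|) → ∀ u v : ℤ, (u ≠ 0 ∨ v ≠ 0) →
        ∀ H : ℝ, 1 ≤ H → |(u : ℝ)| ≤ H → |(v : ℝ)| ≤ H → c ≤ H ^ κ * |u * z + v| := by
    intro z κ c h u v huv H hH hu hv
    have h1 := h (Polynomial.C u * Polynomial.X + Polynomial.C v) (by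
      intro h5
      have h6 : (Polynomial.C u * Polynomial.X + Polynomial.C v : Polynomial ℤ).coeff 1 = 0 := by
        rw [h5, Polynomial.coeff_zero]
      have h7 : (Polynomial.C u * Polynomial.X + Polynomial.C v : Polynomial ℤ).coeff 0 = 0 := by
        rw [h5, Polynomial.coeff_zero]
      rw [Polynomial.coeff_add, Polynomial.coeff_C_mul, Polynomial.coeff_X_one,
        Polynomial.coeff_C_ne_zero one_ne_zero, mul_one, add_zero] at h6
      rw [Polynomial.coeff_add, Polynomial.coeff_C_mul, Polynomial.coeff_X_zero,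
        Polynomial.coeff_C_zero, mul_zero, zero_add] at h7
      rcases huv with h8 | h8
      · exact h8 h6
      · exact h8 h7) Polynomial.natDegree_linear_le H hH (by
      intro j
      rcases j with _ | _ | j
      · simp only [Polynomial.coeff_add, Polynomial.coeff_C_mul, Polynomial.coeff_X_zero, mul_zero,
          Polynomial.coeff_C_zero, zero_add]
        exact hv
      · simp only [zero_add, Polynomial.coeff_add, Polynomial.coeff_C_mul, Polynomial.coeff_X_one, mul_one,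
          Polynomial.coeff_C_succ, add_zero]
        exact hu
      · simp only [Polynomial.coeff_add, Polynomial.coeff_C_mul, Polynomial.coeff_C_succ, add_zero,
          Polynomial.coeff_X]
        rw [if_neg (by omega)]
        simp only [mul_zero, Int.cast_zero, abs_zero]
        linarith)
    have h5 : Polynomial.aeval z (Polynomial.C u * Polynomial.X + Polynomial.C v) = u * z + v := by
      simp only [map_add, map_mul, Polynomial.aeval_C, Polynomial.aeval_X]
      simp only [eq_intCast]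
    rwa [h5] at h1
  have hZ1 := hlin z κ c (fun P hP hP1 H hH hPH => hZ P hP (hP1.trans one_le_two) H hH hPH)
  have hW1 := hlin w κ' c' hW
  obtain ⟨c0, hc0⟩ : ∃ c0 : ℝ, c0 = min (c / 4 ^ κ) (min (c * c') (min c' c)) := ⟨_, rfl⟩
  have hc0pos : 0 < c0 := by
    rw [hc0]
    positivity
  have hm1 : c0 ≤ c / 4 ^ κ := by rw [hc0]; exact min_le_left _ _
  have hm2 : c0 ≤ c * c' := by rw [hc0]; exact (min_le_right _ _).trans (min_le_left _ _)
  have hm3 : c0 ≤ c' := by rw [hc0]; exact (min_le_right _ _).trans ((min_le_right _ _).trans (min_le_left _ _))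
  have hm4 : c0 ≤ c := by rw [hc0]; exact (min_le_right _ _).trans ((min_le_right _ _).trans (min_le_right _ _))
  refine ⟨2 * κ + κ' + 1, c0 / T ^ (2 * κ + κ' + 1), by positivity, fun H hH h h' hh hh' hI => ?_⟩
  have hH1 : (1 : ℝ) ≤ H := by exact_mod_cast hH
  obtain ⟨X, hX⟩ : ∃ X : ℝ, X = T * H := ⟨_, rfl⟩
  have hX1 : 1 ≤ X := by
    rw [hX]
    nlinarith
  have hHX : (H : ℝ) ≤ X := by
    rw [hX]
    nlinarith
  have hfin : ∀ (m : ℕ) (u d : ℝ), m ≤ 2 * κ + κ' + 1 → c0 ≤ u → u ≤ X ^ m * d →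
      c0 / T ^ (2 * κ + κ' + 1) / (H : ℝ) ^ (2 * κ + κ' + 1) ≤ d := by
    intro m u d hm hu hd
    have hd0 : 0 ≤ d := by
      by_contra hneg
      push Not at hneg
      have : X ^ m * d < 0 := mul_neg_of_pos_of_neg (by positivity) hneg
      linarith
    rw [div_div, ← mul_pow, ← hX, div_le_iff₀ (by positivity)]
    calc c0 ≤ X ^ m * d := hu.trans hd
      _ ≤ X ^ (2 * κ + κ' + 1) * d := by
          gcongr
      _ = _ := mul_comm _ _
  have hval : ∀ g : Fin 3 → ℤ, ∑ i, (g i : ℝ) * (![z, w, z * w] : Fin 3 → ℝ) i = g 0 * z + g 1 * w + g 2 * (z * w) := by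
    intro g
    rw [Fin.sum_univ_three]
    rfl
  rw [hval, hval]
  have hkb : ∀ g : Fin 3 → ℤ, (∀ i, |g i| ≤ (H : ℤ)) →
      |((round ((g 0 : ℝ) * z + g 1 * w + g 2 * (z * w)) : ℤ) : ℝ)| ≤ X := by
    intro g hg
    have k0 : |(g 0 : ℝ)| ≤ H := by exact_mod_cast hg 0
    have k1 : |(g 1 : ℝ)| ≤ H := by exact_mod_cast hg 1
    have k2 : |(g 2 : ℝ)| ≤ H := by exact_mod_cast hg 2
    have h1 := abs_sub_round ((g 0 : ℝ) * z + g 1 * w + g 2 * (z * w))
    have h2 : |(g 0 : ℝ) * z + g 1 * w + g 2 * (z * w)| ≤ H * (|z| + |w| + |z * w|) := by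
      refine (abs_add_three _ _ _).trans ?_
      rw [abs_mul, abs_mul (g 1 : ℝ), abs_mul (g 2 : ℝ), mul_add, mul_add]
      gcongr
    have h3 := abs_sub_abs_le_abs_sub ((round ((g 0 : ℝ) * z + g 1 * w + g 2 * (z * w)) : ℤ) : ℝ)
      ((g 0 : ℝ) * z + g 1 * w + g 2 * (z * w))
    rw [abs_sub_comm] at h3
    rw [hX, hT]
    nlinarith
  obtain ⟨k, hk⟩ : ∃ k : ℤ, k = round ((h 0 : ℝ) * z + h 1 * w + h 2 * (z * w)) := ⟨_, rfl⟩
  obtain ⟨k', hk'⟩ : ∃ k' : ℤ, k' = round ((h' 0 : ℝ) * z + h' 1 * w + h' 2 * (z * w)) := ⟨_, rfl⟩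
  have hkX : |(k : ℝ)| ≤ X := by rw [hk]; exact hkb h hh
  have hkX' : |(k' : ℝ)| ≤ X := by rw [hk']; exact hkb h' hh'
  obtain ⟨F, hF⟩ : ∃ F : ℝ, F = h 0 * z + h 1 * w + h 2 * (z * w) - k := ⟨_, rfl⟩
  obtain ⟨F', hF'⟩ : ∃ F' : ℝ, F' = h' 0 * z + h' 1 * w + h' 2 * (z * w) - k' := ⟨_, rfl⟩
  have kF : dz ((h 0 : ℝ) * z + h 1 * w + h 2 * (z * w)) = |F| := by
    rw [hF, hk]
    rfl
  have kF' : dz ((h' 0 : ℝ) * z + h' 1 * w + h' 2 * (z * w)) = |F'| := by
    rw [hF', hk']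
    rfl
  rw [kF, kF']
  have b0 : ∀ i, |(h i : ℝ)| ≤ X := fun i => le_trans (by exact_mod_cast hh i) hHX
  have b0' : ∀ i, |(h' i : ℝ)| ≤ X := fun i => le_trans (by exact_mod_cast hh' i) hHX
  obtain ⟨r0, hr0⟩ : ∃ r0 : ℤ, r0 = k' * h 1 - k * h' 1 := ⟨_, rfl⟩
  obtain ⟨r1, hr1⟩ : ∃ r1 : ℤ, r1 = h 0 * h' 1 - h' 0 * h 1 - k * h' 2 + k' * h 2 := ⟨_, rfl⟩
  obtain ⟨r2, hr2⟩ : ∃ r2 : ℤ, r2 = h 0 * h' 2 - h' 0 * h 2 := ⟨_, rfl⟩
  have hR : (r0 : ℝ) + r1 * z + r2 * z ^ 2 = F * (h' 1 + h' 2 * z) - F' * (h 1 + h 2 * z) := by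
    rw [hr0, hr1, hr2, hF, hF']
    push_cast
    ring
  by_cases hR0 : r0 = 0 ∧ r1 = 0 ∧ r2 = 0
  · obtain ⟨e0, e1, e2⟩ := hR0
    rw [hr0] at e0
    rw [hr1] at e1
    rw [hr2] at e2
    have hΔ : h 0 * h 1 + k * h 2 = 0 := by
      refine (hI (h' 0 * h 1 + k * h' 2) (h 0 * h 1 + k * h 2) fun i => ?_).2
      fin_cases i
      · show (h' 0 * h 1 + k * h' 2) * h 0 = (h 0 * h 1 + k * h 2) * h' 0
        linear_combination k * e2
      · show (h' 0 * h 1 + k * h' 2) * h 1 = (h 0 * h 1 + k * h 2) * h' 1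
        linear_combination -h 1 * e1 + h 2 * e0
      · show (h' 0 * h 1 + k * h' 2) * h 2 = (h 0 * h 1 + k * h 2) * h' 2
        linear_combination -h 1 * e2
    by_cases h20 : h 2 = 0
    · rw [h20, mul_zero, add_zero] at hΔ
      rcases mul_eq_zero.1 hΔ with h00 | h10
      · have h1 : h 1 ≠ 0 := by
          intro h1
          apply hI.left_ne
          funext i
          fin_cases i
          · exact h00
          · exact h1
          · exact h20
        have h2 := hW1 (h 1) (-k) (Or.inl h1) X hX1 (b0 1) (by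
          rw [Int.cast_neg, abs_neg]
          exact hkX)
        refine hfin κ' c' (|F| + |F'|) (by omega) hm3 (h2.trans ?_)
        gcongr
        have h3 : (h 1 : ℝ) * w + ((-k : ℤ) : ℝ) = F := by
          rw [hF, h00, h20]
          push_cast
          ring
        rw [h3]
        linarith [abs_nonneg F']
      · have h1 : h 0 ≠ 0 := by
          intro h1
          apply hI.left_ne
          funext i
          fin_cases i
          · exact h1
          · exact h10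
          · exact h20
        have h2 := hZ1 (h 0) (-k) (Or.inl h1) X hX1 (b0 0) (by
          rw [Int.cast_neg, abs_neg]
          exact hkX)
        refine hfin κ c (|F| + |F'|) (by omega) hm4 (h2.trans ?_)
        gcongr
        have h3 : (h 0 : ℝ) * z + ((-k : ℤ) : ℝ) = F := by
          rw [hF, h10, h20]
          push_cast
          ring
        rw [h3]
        linarith [abs_nonneg F']
    · have h1 := hZ1 (h 2) (h 1) (Or.inl h20) X hX1 (b0 2) (b0 1)
      have h2 := hW1 (h 2) (h 0) (Or.inl h20) X hX1 (b0 2) (b0 0)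
      have h3 : ((h 2 : ℝ) * z + h 1) * (h 2 * w + h 0) = h 2 * F := by
        have h4 : (h 0 : ℝ) * h 1 + k * h 2 = 0 := by exact_mod_cast hΔ
        rw [hF]
        linear_combination h4
      have h4 : c * c' ≤ X ^ κ * X ^ κ' * |(h 2 : ℝ) * F| := by
        rw [← h3, abs_mul]
        calc c * c' ≤ (X ^ κ * |(h 2 : ℝ) * z + h 1|) * (X ^ κ' * |(h 2 : ℝ) * w + h 0|) :=
              mul_le_mul h1 h2 hc'.le (by positivity)
          _ = _ := by ring
      refine hfin (κ + κ' + 1) (c * c') (|F| + |F'|) (by omega) hm2 (h4.trans ?_)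
      rw [abs_mul, pow_add, pow_add, pow_one, mul_assoc, mul_assoc, mul_assoc]
      gcongr
      · exact b0 2
      · linarith [abs_nonneg F']
  · obtain ⟨P, hP⟩ : ∃ P : Polynomial ℤ, P = Polynomial.C r0 + Polynomial.C r1 * Polynomial.X +
      Polynomial.C r2 * Polynomial.X ^ 2 := ⟨_, rfl⟩
    have hPc : ∀ j, P.coeff j = if j = 0 then r0 else if j = 1 then r1 else if j = 2 then r2 else 0 := by
      intro j
      rw [hP, Polynomial.coeff_add, Polynomial.coeff_add, Polynomial.coeff_C, Polynomial.coeff_C_mul,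
        Polynomial.coeff_C_mul, Polynomial.coeff_X, Polynomial.coeff_X_pow]
      rcases j with _ | _ | _ | j
      · simp
      · simp
      · simp
      · simp
    have hP0 : P ≠ 0 := by
      intro h5
      apply hR0
      refine ⟨?_, ?_, ?_⟩
      · have := hPc 0
        rw [h5, Polynomial.coeff_zero] at this
        simpa using this.symm
      · have := hPc 1
        rw [h5, Polynomial.coeff_zero] at this
        simpa using this.symm
      · have := hPc 2
        rw [h5, Polynomial.coeff_zero] at this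
        simpa using this.symm
    have hPd : P.natDegree ≤ 2 := by
      rw [Polynomial.natDegree_le_iff_coeff_eq_zero]
      intro j hj
      rw [hPc, if_neg (by omega), if_neg (by omega), if_neg (by omega)]
    have hprod : ∀ u v : ℝ, |u| ≤ X → |v| ≤ X → |u * v| ≤ X ^ 2 := by
      intro u v hu hv
      rw [abs_mul, sq]
      exact mul_le_mul hu hv (abs_nonneg _) (by positivity)
    have hPb : ∀ j, |(P.coeff j : ℝ)| ≤ 4 * X ^ 2 := by
      intro j
      rw [hPc]
      have q1 := hprod _ _ hkX' (b0 1)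
      have q2 := hprod _ _ hkX (b0' 1)
      have q3 := hprod _ _ (b0 0) (b0' 1)
      have q4 := hprod _ _ (b0' 0) (b0 1)
      have q5 := hprod _ _ hkX (b0' 2)
      have q6 := hprod _ _ hkX' (b0 2)
      have q7 := hprod _ _ (b0 0) (b0' 2)
      have q8 := hprod _ _ (b0' 0) (b0 2)
      rw [abs_le] at q1 q2 q3 q4 q5 q6 q7 q8
      have hX2 : 0 ≤ X ^ 2 := by positivity
      split_ifs
      · rw [hr0, abs_le]
        push_cast
        constructor <;> linarith [q1.1, q1.2, q2.1, q2.2]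
      · rw [hr1, abs_le]
        push_cast
        constructor <;> linarith [q3.1, q3.2, q4.1, q4.2, q5.1, q5.2, q6.1, q6.2]
      · rw [hr2, abs_le]
        push_cast
        constructor <;> linarith [q7.1, q7.2, q8.1, q8.2]
      · simp only [Int.cast_zero, abs_zero]
        positivity
    have hev : Polynomial.aeval z P = (r0 : ℝ) + r1 * z + r2 * z ^ 2 := by
      rw [hP]
      simp only [map_add, map_mul, map_pow, Polynomial.aeval_C, Polynomial.aeval_X]
      simp only [eq_intCast]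
    have h1 := hZ P hP0 hPd (4 * X ^ 2) (by nlinarith) hPb
    rw [hev, hR] at h1
    have hQ : ∀ g : Fin 3 → ℤ, (∀ i, |(g i : ℤ)| ≤ (H : ℤ)) → |(g 1 : ℝ) + g 2 * z| ≤ X := by
      intro g hg
      have k1 : |(g 1 : ℝ)| ≤ H := by exact_mod_cast hg 1
      have k2 : |(g 2 : ℝ)| ≤ H := by exact_mod_cast hg 2
      refine (abs_add_le _ _).trans ?_
      rw [abs_mul, hX, hT]
      have h3 : |(g 2 : ℝ)| * |z| ≤ H * |z| := by gcongr
      have h4 : 0 ≤ (H : ℝ) * (|w| + |z * w|) := by positivity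
      nlinarith
    have h2 : |F * (h' 1 + h' 2 * z) - F' * (h 1 + h 2 * z)| ≤ X * (|F| + |F'|) := by
      refine (abs_sub _ _).trans ?_
      rw [abs_mul, abs_mul]
      have k1 := hQ h hh
      have k2 := hQ h' hh'
      have k3 : |F| * |(h' 1 : ℝ) + h' 2 * z| ≤ |F| * X := by gcongr
      have k4 : |F'| * |(h 1 : ℝ) + h 2 * z| ≤ |F'| * X := by gcongr
      linarith
    refine hfin (2 * κ + 1) (c / 4 ^ κ) (|F| + |F'|) (by omega) hm1 ?_
    rw [div_le_iff₀ (by positivity)]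
    calc c ≤ (4 * X ^ 2) ^ κ * (X * (|F| + |F'|)) := h1.trans (by gcongr)
      _ = _ := by
          rw [mul_pow, ← pow_mul, pow_succ]
          ring

end Run7.h683.MR
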