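import Pool.Agent.Run7.h683.MR.S
import Pool.Agent.Run7.h168.Near.Cons

/-!
# Random products: the values of the polynomials in an arbitrary number and in a family with a measure
-/

set_option autoImplicit false

namespace Run7.h683.MR

open Filter Run7.h683.AB MeasureTheory ProbabilityTheory Topology
open Pool.Agent.Y957.VK (dz mn)
open Pool.Agent.Run7.h168.Near (val Small Loc)
open Pool.Agent.N743.SS (MeasM)

/-- the value of a polynomial at `(t, x)` -/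
noncomputable def pv {n : ℕ} (t : ℝ) (x : Fin n → ℝ) (R : MvPolynomial (Fin (n + 1)) ℤ) : ℝ :=
  MvPolynomial.aeval (Fin.cons t x : Fin (n + 1) → ℝ) R

theorem val_real {n : ℕ} (t : ℝ) (x : Fin n → ℝ) (R : MvPolynomial (Fin (n + 1)) ℤ) :
    val (t : ℂ) x R = ((pv t x R : ℝ) : ℂ) := by
  have h := Pool.Agent.Run7.h168.Near.ev_eq (Fin.cons t x : Fin (n + 1) → ℝ) R
  unfold val pv
  rw [← h]
  unfold Pool.Agent.Run7.h168.Near.ev
  have h1 : (Fin.cons (t : ℂ) (fun i => ((x i : ℝ) : ℂ)) : Fin (n + 1) → ℂ) =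
      fun i => (((Fin.cons t x : Fin (n + 1) → ℝ) i : ℝ) : ℂ) := by
    funext i
    exact Fin.cases rfl (fun j => rfl) i
  rw [h1]
  rfl

theorem norm_val {n : ℕ} (t : ℝ) (x : Fin n → ℝ) (R : MvPolynomial (Fin (n + 1)) ℤ) :
    ‖val (t : ℂ) x R‖ = |pv t x R| := by
  rw [val_real, Complex.norm_real, Real.norm_eq_abs]

/-- the polynomials `f j` are linearly independent modulo the multiples of `F` and the constants -/
def FreeMod {n m : ℕ} (F : MvPolynomial (Fin n) ℤ) (f : Fin m → MvPolynomial (Fin n) ℤ) : Prop :=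
  ∀ (c : Fin m → ℤ) (u : ℤ), F ∣ ∑ j, MvPolynomial.C (c j) * f j - MvPolynomial.C u → c = 0

/-- at the scale `N` all the polynomials with a very small value are multiples of one polynomial `F N` -/
theorem exists_F {a b a₁ b₁ : ℝ} (ha : 0 < a) (haa : a < a₁) (hab : a₁ < b₁) (hbb : b₁ < b) (hb1 : b < 1) {n : ℕ} (x : Fin n → ℝ)
    (hx : MeasM x) (t : ℝ) (d : ℕ) (hd : 1 ≤ d) :
    ∃ F : ℕ → MvPolynomial (Fin (n + 1)) ℤ,
      (∀ᶠ N : ℕ in atTop, F N = 0 ∨ (Irreducible (F N) ∧ 0 < (F N).degreeOf 0 ∧ (F N).totalDegree ≤ d ∧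
        (∀ s, |(((F N).coeff s : ℤ) : ℝ)| ≤ Real.exp ((N : ℝ) ^ a₁)) ∧ |pv t x (F N)| < Real.exp (-(N : ℝ) ^ b₁))) ∧
      (∀ V : ℝ, ∀ᶠ N : ℕ in atTop, ∀ R : MvPolynomial (Fin (n + 1)) ℤ, R.totalDegree ≤ d →
        (∀ s, |((R.coeff s : ℤ) : ℝ)| ≤ V * Real.exp ((N : ℝ) ^ a)) → |pv t x R| < Real.exp (-(N : ℝ) ^ b) →
          F N ∣ R) ∧
      ((∃ R : MvPolynomial (Fin (n + 1)) ℤ, R ≠ 0 ∧ R.totalDegree ≤ d ∧ pv t x R = 0) ↔
        ∀ᶠ N : ℕ in atTop, F N ≠ 0) := by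
  classical
  obtain ⟨κ, K, hκ, hK, h⟩ := Pool.Agent.Run7.h168.Near.intervals x hx d hd
  obtain ⟨C, hC, hL⟩ := h (max 1 |t|) (le_max_left _ _)
  have ha₁ : 0 < a₁ := ha.trans haa
  have hab₁ : a₁ < b := hab.trans hbb
  have htn : ‖(t : ℂ)‖ ≤ max 1 |t| := by
    rw [Complex.norm_real, Real.norm_eq_abs]
    exact le_max_right _ _
  have h1 : ∀ H : ℝ, 1 ≤ H → ∃ F : MvPolynomial (Fin (n + 1)) ℤ, Irreducible F ∧ 0 < F.degreeOf 0 ∧ Small d (K * H) F ∧
      ∀ R, Small d H R → C⁻¹ * H ^ (-κ) ≤ ‖val (t : ℂ) x R‖ ∨ (F ∣ R ∧ ‖val (t : ℂ) x F‖ ^ d ≤ ‖val (t : ℂ) x R‖) :=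
    fun H hH => hL.one (t : ℂ) htn H hH
  choose! P hPi hPd hPs hP using h1
  obtain ⟨Y, hY⟩ : ∃ Y : ℕ → ℝ, ∀ N, Y N = Real.exp ((N : ℝ) ^ a₁) / K := ⟨_, fun _ => rfl⟩
  have hK0 : 0 < K := by linarith
  obtain ⟨F, hFy, hFn⟩ : ∃ F : ℕ → MvPolynomial (Fin (n + 1)) ℤ,
      (∀ N, (∃ R, Small d (Y N) R ∧ ‖val (t : ℂ) x R‖ < Real.exp (-(N : ℝ) ^ b)) → F N = P (Y N)) ∧
      (∀ N, (¬ ∃ R, Small d (Y N) R ∧ ‖val (t : ℂ) x R‖ < Real.exp (-(N : ℝ) ^ b)) → F N = 0) := by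
    refine ⟨fun N => if ∃ R, Small d (Y N) R ∧ ‖val (t : ℂ) x R‖ < Real.exp (-(N : ℝ) ^ b) then P (Y N) else 0,
      fun N hN => if_pos hN, fun N hN => if_neg hN⟩
  -- the basic inequalities
  have e1 : ∀ᶠ N : ℕ in atTop, (1 + |Real.log K|) * (N : ℝ) ^ a ≤ (N : ℝ) ^ a₁ := evn (ev_lt haa _)
  have e2 : ∀ᶠ N : ℕ in atTop, (1 + |Real.log C| + κ) * (N : ℝ) ^ a₁ ≤ (N : ℝ) ^ b := evn (ev_lt hab₁ _)
  have e3 : ∀ᶠ N : ℕ in atTop, (d : ℝ) * (N : ℝ) ^ b₁ ≤ (N : ℝ) ^ b := evn (ev_lt hbb _)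
  have hbase : ∀ᶠ N : ℕ in atTop, 1 ≤ Y N ∧ Real.exp (-(N : ℝ) ^ b) < C⁻¹ * (Y N) ^ (-κ) := by
    filter_upwards [e1, e2, eventually_ge_atTop 1] with N g1 g2 g3
    have hN1 : (1 : ℝ) ≤ N := by exact_mod_cast g3
    have hNa : 1 ≤ (N : ℝ) ^ a := Real.one_le_rpow hN1 ha.le
    have hNa₁ : 1 ≤ (N : ℝ) ^ a₁ := Real.one_le_rpow hN1 ha₁.le
    have hY1 : 1 ≤ Y N := by
      rw [hY, le_div_iff₀ hK0, one_mul]
      calc K = Real.exp (Real.log K) := (Real.exp_log hK0).symm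
        _ ≤ Real.exp ((N : ℝ) ^ a₁) := by
            refine Real.exp_le_exp.2 ?_
            have := le_abs_self (Real.log K)
            have := abs_nonneg (Real.log K)
            nlinarith
    refine ⟨hY1, ?_⟩
    have hYl : Real.log (Y N) ≤ (N : ℝ) ^ a₁ := by
      rw [hY, Real.log_div (Real.exp_pos _).ne' hK0.ne', Real.log_exp]
      have := Real.log_nonneg hK
      linarith
    have hY0 : 0 < Y N := by linarith
    have hC0 : 0 < C := by linarith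
    rw [← Real.exp_log (show 0 < C⁻¹ * (Y N) ^ (-κ) by positivity), Real.exp_lt_exp,
      Real.log_mul (by positivity) (by positivity), Real.log_inv, Real.log_rpow hY0]
    have k1 := le_abs_self (Real.log C)
    have k2 := abs_nonneg (Real.log C)
    have k3 : κ * Real.log (Y N) ≤ κ * (N : ℝ) ^ a₁ := by gcongr
    nlinarith
  have hdvd : ∀ V : ℝ, ∀ᶠ N : ℕ in atTop, ∀ R : MvPolynomial (Fin (n + 1)) ℤ, R.totalDegree ≤ d →
        (∀ s, |((R.coeff s : ℤ) : ℝ)| ≤ V * Real.exp ((N : ℝ) ^ a)) → |pv t x R| < Real.exp (-(N : ℝ) ^ b) →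
          F N ∣ R := by
    intro V
    have e4 : ∀ᶠ N : ℕ in atTop, (1 + |Real.log K| + |Real.log (|V| + 1)|) * (N : ℝ) ^ a ≤ (N : ℝ) ^ a₁ :=
      evn (ev_lt haa _)
    filter_upwards [hbase, e4, eventually_ge_atTop 1] with N g1 g2 g3
    intro R hRd hRc hRv
    rcases eq_or_ne R 0 with hR0 | hR0
    · rw [hR0]
      exact dvd_zero _
    have hN1 : (1 : ℝ) ≤ N := by exact_mod_cast g3
    have hNa : 1 ≤ (N : ℝ) ^ a := Real.one_le_rpow hN1 ha.le
    have hS : Small d (Y N) R := by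
      refine ⟨hR0, hRd, fun s => (hRc s).trans ?_⟩
      rw [hY, le_div_iff₀ hK0]
      have hV0 : 0 < |V| + 1 := by positivity
      have k0 : V ≤ |V| + 1 := (le_abs_self V).trans (by linarith)
      calc V * Real.exp ((N : ℝ) ^ a) * K ≤ (|V| + 1) * Real.exp ((N : ℝ) ^ a) * K := by gcongr
        _ = Real.exp (Real.log (|V| + 1) + (N : ℝ) ^ a + Real.log K) := by
            rw [Real.exp_add, Real.exp_add, Real.exp_log hV0, Real.exp_log hK0]
        _ ≤ Real.exp ((N : ℝ) ^ a₁) := by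
            refine Real.exp_le_exp.2 (le_trans ?_ g2)
            have k1 := le_abs_self (Real.log K)
            have k2 := abs_nonneg (Real.log K)
            have k3 := le_abs_self (Real.log (|V| + 1))
            have k4 := abs_nonneg (Real.log (|V| + 1))
            nlinarith
    rw [← norm_val] at hRv
    rw [hFy N ⟨R, hS, hRv⟩]
    rcases hP (Y N) g1.1 R hS with h2 | h2
    · linarith [g1.2]
    · exact h2.1
  refine ⟨F, ?_, hdvd, ?_, ?_⟩
  · filter_upwards [hbase, e3] with N g1 g3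
    by_cases hN : ∃ R, Small d (Y N) R ∧ ‖val (t : ℂ) x R‖ < Real.exp (-(N : ℝ) ^ b)
    · right
      rw [hFy N hN]
      obtain ⟨R, hRS, hRv⟩ := hN
      refine ⟨hPi _ g1.1, hPd _ g1.1, (hPs _ g1.1).2.1, fun s => ?_, ?_⟩
      · refine ((hPs _ g1.1).2.2 s).trans (le_of_eq ?_)
        rw [hY]
        field_simp
      · rcases hP (Y N) g1.1 R hRS with h2 | h2
        · linarith [g1.2]
        · by_contra hcon
          push Not at hcon
          rw [← norm_val] at hcon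
          have h3 : Real.exp (-(N : ℝ) ^ b) ≤ ‖val (t : ℂ) x (P (Y N))‖ ^ d := by
            calc Real.exp (-(N : ℝ) ^ b) ≤ Real.exp (d * -(N : ℝ) ^ b₁) := Real.exp_le_exp.2 (by linarith)
              _ = Real.exp (-(N : ℝ) ^ b₁) ^ d := Real.exp_nat_mul _ _
              _ ≤ _ := pow_le_pow_left₀ (Real.exp_pos _).le hcon d
          linarith [h2.2]
    · left
      exact hFn N hN
  · rintro ⟨R, hR0, hRd, hRv⟩
    have h2 := hdvd (∑ s ∈ R.support, |((R.coeff s : ℤ) : ℝ)|)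
    filter_upwards [h2] with N g1
    intro hF0
    have h3 := g1 R hRd (fun s => by
      have h4 : (1 : ℝ) ≤ Real.exp ((N : ℝ) ^ a) := Real.one_le_exp (by positivity)
      have h5 : 0 ≤ ∑ s ∈ R.support, |((R.coeff s : ℤ) : ℝ)| := Finset.sum_nonneg fun _ _ => abs_nonneg _
      refine le_trans ?_ (le_mul_of_one_le_right h5 h4)
      by_cases hs : s ∈ R.support
      · exact Finset.single_le_sum (f := fun s => |((R.coeff s : ℤ) : ℝ)|) (fun _ _ => abs_nonneg _) hs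
      · rw [MvPolynomial.notMem_support_iff.1 hs, Int.cast_zero, abs_zero]
        exact h5) (by
      rw [hRv, abs_zero]
      exact Real.exp_pos _)
    rw [hF0, zero_dvd_iff] at h3
    exact hR0 h3
  · intro hev
    have hcr := (Pool.Agent.Run7.h168.Near.criterion x d hd κ K hκ h (κ + 1) (by linarith) (t : ℂ)).2
    have hgoal : ∃ R : MvPolynomial (Fin (n + 1)) ℤ, R ≠ 0 ∧ R.totalDegree ≤ d ∧ val (t : ℂ) x R = 0 := by
      apply hcr
      obtain ⟨B, hB⟩ : ∃ B : ℝ → ℕ, ∀ H, B H = ⌊(Real.log (K * H)) ^ (1 / a₁)⌋₊ := ⟨_, fun _ => rfl⟩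
      have htend : Tendsto B atTop atTop := by
        have h2 : Tendsto (fun H : ℝ => K * H) atTop atTop := tendsto_id.const_mul_atTop hK0
        have h3 := (tendsto_nat_floor_atTop (α := ℝ)).comp
          ((tendsto_rpow_atTop (y := 1 / a₁) (by positivity)).comp (Real.tendsto_log_atTop.comp h2))
        refine h3.congr fun H => ?_
        rw [hB]
        rfl
      have e5 : ∀ᶠ N : ℕ in atTop, (2 * (κ + 1)) * (N : ℝ) ^ a₁ ≤ (N : ℝ) ^ b := evn (ev_lt hab₁ _)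
      have h2 := htend.eventually (hev.and (e5.and (eventually_ge_atTop 1)))
      obtain ⟨H₀, hH₀⟩ := eventually_atTop.1 (h2.and (eventually_ge_atTop (1 : ℝ)))
      refine ⟨H₀, fun H hH => ?_⟩
      obtain ⟨⟨g1, g2, g3⟩, g4⟩ := hH₀ H hH
      have hex : ∃ R, Small d (Y (B H)) R ∧ ‖val (t : ℂ) x R‖ < Real.exp (-((B H : ℕ) : ℝ) ^ b) := by
        by_contra hcon
        exact g1 (hFn _ hcon)
      obtain ⟨R, hRS, hRv⟩ := hex
      have hH0 : 0 < H := by linarith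
      have hKH : 1 ≤ K * H := by nlinarith
      have hl0 : 0 ≤ Real.log (K * H) := Real.log_nonneg hKH
      have k1 : ((B H : ℕ) : ℝ) ^ a₁ ≤ Real.log (K * H) := by
        have h3 : ((B H : ℕ) : ℝ) ≤ (Real.log (K * H)) ^ (1 / a₁) := by
          rw [hB]
          exact Nat.floor_le (by positivity)
        calc ((B H : ℕ) : ℝ) ^ a₁ ≤ ((Real.log (K * H)) ^ (1 / a₁)) ^ a₁ := by gcongr
          _ = Real.log (K * H) := by
              rw [← Real.rpow_mul hl0, one_div, inv_mul_cancel₀ ha₁.ne', Real.rpow_one]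
      have k2 : Real.log (K * H) ≤ 2 * ((B H : ℕ) : ℝ) ^ a₁ := by
        have h3 : (Real.log (K * H)) ^ (1 / a₁) ≤ ((B H : ℕ) : ℝ) + 1 := by
          rw [hB]
          exact (Nat.lt_floor_add_one _).le
        have h4 : (1 : ℝ) ≤ ((B H : ℕ) : ℝ) := by exact_mod_cast g3
        have h5 : (Real.log (K * H)) ^ (1 / a₁) ≤ 2 * ((B H : ℕ) : ℝ) := by linarith
        calc Real.log (K * H) = ((Real.log (K * H)) ^ (1 / a₁)) ^ a₁ := by
              rw [← Real.rpow_mul hl0, one_div, inv_mul_cancel₀ ha₁.ne', Real.rpow_one]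
          _ ≤ (2 * ((B H : ℕ) : ℝ)) ^ a₁ := by gcongr
          _ = 2 ^ a₁ * ((B H : ℕ) : ℝ) ^ a₁ := Real.mul_rpow (by norm_num) (by positivity)
          _ ≤ 2 * ((B H : ℕ) : ℝ) ^ a₁ := by
              gcongr
              have h6 := Real.rpow_le_rpow_of_exponent_le one_le_two (show a₁ ≤ 1 by linarith)
              simpa using h6
      refine ⟨R, ⟨hRS.1, hRS.2.1, fun s => (hRS.2.2 s).trans ?_⟩, hRv.le.trans ?_⟩
      · rw [hY, div_le_iff₀ hK0]
        calc Real.exp (((B H : ℕ) : ℝ) ^ a₁) ≤ Real.exp (Real.log (K * H)) := Real.exp_le_exp.2 k1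
          _ = K * H := Real.exp_log (by positivity)
          _ = H * K := mul_comm _ _
      · rw [Real.rpow_def_of_pos hH0]
        refine Real.exp_le_exp.2 ?_
        have k3 : Real.log H ≤ Real.log (K * H) := Real.log_le_log hH0 (by nlinarith)
        nlinarith
    obtain ⟨R, hR0, hRd, hRv⟩ := hgoal
    refine ⟨R, hR0, hRd, ?_⟩
    rw [val_real] at hRv
    exact_mod_cast hRv

/-- the values of the polynomials are equidistributed outside the multiples of one polynomial -/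
theorem poly_structure.{u} {S : ℕ → Finset ℕ} {M : ℕ → ℕ} {θ Θ : ℝ} (G : Growth S M θ Θ) :
    ∃ a b : ℝ, 0 < a ∧ a < b ∧ b < 1 ∧ ∀ (n : ℕ) (x : Fin n → ℝ), MeasM x → ∀ t : ℝ,
      ∃ F : ℕ → ℕ → MvPolynomial (Fin (n + 1)) ℤ,
        (∀ d : ℕ, 1 ≤ d → (∀ᶠ N : ℕ in atTop, F d N = 0 ∨ (Irreducible (F d N) ∧ 0 < (F d N).degreeOf 0 ∧
          (F d N).totalDegree ≤ d ∧ (∀ s, |(((F d N).coeff s : ℤ) : ℝ)| ≤ Real.exp ((N : ℝ) ^ a)) ∧
          |pv t x (F d N)| < Real.exp (-(N : ℝ) ^ b))) ∧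
          ((∃ R : MvPolynomial (Fin (n + 1)) ℤ, R ≠ 0 ∧ R.totalDegree ≤ d ∧ pv t x R = 0) ↔
            ∀ᶠ N : ℕ in atTop, F d N ≠ 0)) ∧
        ∀ (Ω : Type u) [MeasurableSpace Ω] (μ : Measure Ω) [IsProbabilityMeasure μ] (p : ℕ → Ω → ℕ),
          Uniform μ S p → ∀ᵐ ω ∂μ, ∀ d : ℕ, 1 ≤ d → ∀ (m : ℕ) (f : Fin m → MvPolynomial (Fin (n + 1)) ℤ),
            (∀ j, (f j).totalDegree ≤ d) → ∀ (L : ℕ) (ε : ℝ), 0 < ε → ∀ᶠ N : ℕ in atTop, FreeMod (F d N) f →
              Words (fun k => p k ω) (fun j => pv t x (f j)) L N ε := by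
  classical
  obtain ⟨a, b, c, ha, hab, hb, hc, hc1, h⟩ := ae_words.{u} G
  obtain ⟨a₁, ha₁⟩ : ∃ a₁ : ℝ, a₁ = (2 * a + b) / 3 := ⟨_, rfl⟩
  obtain ⟨b₁, hb₁⟩ : ∃ b₁ : ℝ, b₁ = (a + 2 * b) / 3 := ⟨_, rfl⟩
  refine ⟨a₁, b₁, by linarith, by linarith, by linarith, fun n x hx t => ?_⟩
  have hF : ∀ d : ℕ, 1 ≤ d → ∃ F : ℕ → MvPolynomial (Fin (n + 1)) ℤ,
      (∀ᶠ N : ℕ in atTop, F N = 0 ∨ (Irreducible (F N) ∧ 0 < (F N).degreeOf 0 ∧ (F N).totalDegree ≤ d ∧
        (∀ s, |(((F N).coeff s : ℤ) : ℝ)| ≤ Real.exp ((N : ℝ) ^ a₁)) ∧ |pv t x (F N)| < Real.exp (-(N : ℝ) ^ b₁))) ∧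
      (∀ V : ℝ, ∀ᶠ N : ℕ in atTop, ∀ R : MvPolynomial (Fin (n + 1)) ℤ, R.totalDegree ≤ d →
        (∀ s, |((R.coeff s : ℤ) : ℝ)| ≤ V * Real.exp ((N : ℝ) ^ a)) → |pv t x R| < Real.exp (-(N : ℝ) ^ b) →
          F N ∣ R) ∧
      ((∃ R : MvPolynomial (Fin (n + 1)) ℤ, R ≠ 0 ∧ R.totalDegree ≤ d ∧ pv t x R = 0) ↔
        ∀ᶠ N : ℕ in atTop, F N ≠ 0) :=
    fun d hd => exists_F ha (by linarith) (by linarith) (by linarith) hb x hx t d hd
  choose! F hF1 hF2 hF3 using hF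
  refine ⟨F, fun d hd => ⟨hF1 d hd, hF3 d hd⟩, ?_⟩
  intro Ω _ μ _ p hp
  have hcount : Countable (MvPolynomial (Fin (n + 1)) ℤ) := by
    rw [← Cardinal.mk_le_aleph0_iff]
    refine (MvPolynomial.cardinalMk_le_max).trans ?_
    simp
  have h1 : ∀ᵐ ω ∂μ, ∀ (m : ℕ) (f : Fin m → MvPolynomial (Fin (n + 1)) ℤ), ∀ (L : ℕ) (ε : ℝ), 0 < ε → ∃ H : ℕ,
      ∀ᶠ N : ℕ in atTop, (∀ g : Fin m → ℤ, g ≠ 0 → (∀ j, |g j| ≤ H) →
        ¬ Near a b (∑ j, (g j : ℝ) * pv t x (f j)) N) →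
          Words (fun k => p k ω) (fun j => pv t x (f j)) L N ε := by
    rw [ae_all_iff]
    intro m
    rw [ae_all_iff]
    intro f
    filter_upwards [h Ω μ p hp m (fun j => pv t x (f j))] with ω hω
    exact hω.2
  filter_upwards [h1] with ω hω
  intro d hd m f hf L ε hε
  obtain ⟨H, hH⟩ := hω m f L ε hε
  -- bounds for the coefficients and the values
  obtain ⟨B, hB0, hB⟩ : ∃ B : ℝ, 0 ≤ B ∧ ∀ j s, |(((f j).coeff s : ℤ) : ℝ)| ≤ B := by
    refine ⟨∑ j, ∑ s ∈ (f j).support, |(((f j).coeff s : ℤ) : ℝ)|,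
      Finset.sum_nonneg fun j _ => Finset.sum_nonneg fun s _ => abs_nonneg _, fun j s => ?_⟩
    refine le_trans ?_ (Finset.single_le_sum (f := fun j => ∑ s ∈ (f j).support, |(((f j).coeff s : ℤ) : ℝ)|)
      (fun j _ => Finset.sum_nonneg fun s _ => abs_nonneg _) (Finset.mem_univ j))
    by_cases hs : s ∈ (f j).support
    · exact Finset.single_le_sum (f := fun s => |(((f j).coeff s : ℤ) : ℝ)|) (fun _ _ => abs_nonneg _) hs
    · rw [MvPolynomial.notMem_support_iff.1 hs, Int.cast_zero, abs_zero]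
      exact Finset.sum_nonneg fun _ _ => abs_nonneg _
  obtain ⟨Y, hY0, hY⟩ : ∃ Y : ℝ, 0 ≤ Y ∧ ∀ j, |pv t x (f j)| ≤ Y :=
    ⟨∑ j, |pv t x (f j)|, Finset.sum_nonneg fun j _ => abs_nonneg _, fun j =>
      Finset.single_le_sum (f := fun j => |pv t x (f j)|) (fun j _ => abs_nonneg _) (Finset.mem_univ j)⟩
  obtain ⟨V, hV⟩ : ∃ V : ℝ, V = m * (H * B) + (m * (H * Y) + 1) := ⟨_, rfl⟩
  filter_upwards [hH, hF2 d hd V] with N g1 g2
  intro hfree
  refine g1 fun g hg0 hgH hnear => ?_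
  obtain ⟨D, hD1, hD2, hD3⟩ := hnear
  have hD0 : (1 : ℝ) ≤ D := by exact_mod_cast hD1
  obtain ⟨y, hy⟩ : ∃ y : ℝ, y = ∑ j, (g j : ℝ) * pv t x (f j) := ⟨_, rfl⟩
  rw [← hy] at hD3
  obtain ⟨k, hk⟩ : ∃ k : ℤ, k = round (y * D) := ⟨_, rfl⟩
  have hgR : ∀ j, |(g j : ℝ)| ≤ H := fun j => by exact_mod_cast hgH j
  have hyb : |y| ≤ m * (H * Y) := by
    rw [hy]
    refine (Finset.abs_sum_le_sum_abs _ _).trans ?_
    refine (Finset.sum_le_sum (g := fun _ => (H : ℝ) * Y) fun j _ => ?_).trans ?_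
    · rw [abs_mul]
      exact mul_le_mul (hgR j) (hY j) (abs_nonneg _) (by positivity)
    · rw [Finset.sum_const, Finset.card_univ, Fintype.card_fin, nsmul_eq_mul]
  have hkb : |(k : ℝ)| ≤ (m * (H * Y) + 1) * D := by
    have k1 := abs_sub_round (y * D)
    rw [← hk] at k1
    have k2 := abs_sub_abs_le_abs_sub (k : ℝ) (y * D)
    rw [abs_sub_comm] at k2
    have k3 : |y * D| ≤ m * (H * Y) * D := by
      rw [abs_mul, Nat.abs_cast]
      gcongr
    nlinarith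
  obtain ⟨R, hR⟩ : ∃ R : MvPolynomial (Fin (n + 1)) ℤ,
      R = ∑ j, MvPolynomial.C ((D : ℤ) * g j) * f j - MvPolynomial.C k := ⟨_, rfl⟩
  have hRv : pv t x R = y * D - k := by
    rw [hR, hy]
    unfold pv
    rw [map_sub, map_sum, MvPolynomial.aeval_C, Finset.sum_mul]
    congr 1
    · refine Finset.sum_congr rfl fun j _ => ?_
      rw [map_mul, MvPolynomial.aeval_C]
      simp only [eq_intCast]
      push_cast
      ring
  have hRc : ∀ s, |((R.coeff s : ℤ) : ℝ)| ≤ V * Real.exp ((N : ℝ) ^ a) := by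
    intro s
    have k1 : ((R.coeff s : ℤ) : ℝ) = ∑ j, ((D : ℝ) * g j) * (((f j).coeff s : ℤ) : ℝ) - if 0 = s then (k : ℝ) else 0 := by
      rw [hR, MvPolynomial.coeff_sub, MvPolynomial.coeff_sum, MvPolynomial.coeff_C]
      push_cast
      congr 1
      · refine Finset.sum_congr rfl fun j _ => ?_
        rw [MvPolynomial.coeff_C_mul]
        push_cast
        ring
    rw [k1]
    refine (abs_sub _ _).trans ?_
    have k2 : |∑ j, ((D : ℝ) * g j) * (((f j).coeff s : ℤ) : ℝ)| ≤ m * (H * B) * D := by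
      refine (Finset.abs_sum_le_sum_abs _ _).trans ?_
      refine (Finset.sum_le_sum (g := fun _ => (D : ℝ) * H * B) fun j _ => ?_).trans (le_of_eq ?_)
      · rw [abs_mul, abs_mul, Nat.abs_cast]
        have := hgR j
        have := hB j s
        gcongr
      · rw [Finset.sum_const, Finset.card_univ, Fintype.card_fin, nsmul_eq_mul]
        ring
    have k3 : |if 0 = s then (k : ℝ) else 0| ≤ (m * (H * Y) + 1) * D := by
      split_ifs
      · exact hkb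
      · rw [abs_zero]
        positivity
    calc |∑ j, ((D : ℝ) * g j) * (((f j).coeff s : ℤ) : ℝ)| + |if 0 = s then (k : ℝ) else 0| ≤
        m * (H * B) * D + (m * (H * Y) + 1) * D := add_le_add k2 k3
      _ = V * D := by
          rw [hV]
          ring
      _ ≤ V * Real.exp ((N : ℝ) ^ a) := by
          have : 0 ≤ V := by
            rw [hV]
            positivity
          gcongr
  have hRd : R.totalDegree ≤ d := by
    rw [hR]
    refine (MvPolynomial.totalDegree_sub _ _).trans (max_le ?_ ?_)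
    · refine (MvPolynomial.totalDegree_finset_sum _ _).trans (Finset.sup_le fun j _ => ?_)
      refine (MvPolynomial.totalDegree_mul _ _).trans ?_
      rw [MvPolynomial.totalDegree_C, zero_add]
      exact hf j
    · rw [MvPolynomial.totalDegree_C]
      exact Nat.zero_le _
  have hdv := g2 R hRd hRc (by
    rw [hRv, hk]
    exact hD3)
  rw [hR] at hdv
  have h3 := hfree (fun j => (D : ℤ) * g j) k hdv
  apply hg0
  funext j
  have h4 := congrFun h3 j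
  simp only [Pi.zero_apply, mul_eq_zero] at h4
  rcases h4 with h4 | h4
  · have : D = 0 := by exact_mod_cast h4
    omega
  · exact h4

end Run7.h683.MR
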